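import Pool.Agent.H27.SW.XL
import Pool.Agent.H27.G.R_seed8.TH75.AFE2

set_option autoImplicit false

/-! Project SW (helper27): approximate functional equation with fixed coefficients in a window (AFW). -/

namespace Pool.Agent.H27.SW

open Complex Filter Topology MeasureTheory Set
open Pool.Agent.TH612.CF Pool.Agent.TH612.GS
open Pool.Agent.H448R2.GC (cs cu cu_nonneg cu_le_one cu_one cu_zero cu_cont cu_deriv)
open scoped ComplexConjugate

noncomputable section

theorem cu_lip (k : ℕ) (c : ℝ) (hc : 0 < c) (x y : ℝ) :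
    |cu (k + 2) c y - cu (k + 2) c x| ≤ (1 / c) * |y - x| := by
  have h := Convex.norm_image_sub_le_of_norm_hasDerivWithin_le (f := cu (k + 2) c) (s := Set.univ)
    (C := 1 / c) (fun x _ => (cu_deriv k c x hc).hasDerivWithinAt) (fun x _ => ?_)
    convex_univ (Set.mem_univ x) (Set.mem_univ y)
  · simpa [Real.norm_eq_abs] using h
  · rw [Real.norm_eq_abs, abs_div, abs_of_pos hc]
    refine div_le_div_of_nonneg_right ?_ hc.le
    have h1 := cu_nonneg (k + 1) c x hc
    have h2 := cu_le_one (k + 1) c x hc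
    have h3 := cu_nonneg (k + 1) c (x - c) hc
    have h4 := cu_le_one (k + 1) c (x - c) hc
    rw [abs_le]
    constructor <;> linarith

theorem cs_ext (k : ℕ) (c D : ℝ) (hc : 0 < c) (s : ℂ) (Y : ℕ) (hY : ⌊Real.exp (D + k * c)⌋₊ ≤ Y) :
    cs k c D s = ∑ m ∈ Finset.Icc 1 Y, (cu k c (Real.log m - D) : ℂ) * (m : ℂ) ^ (-s) := by
  unfold cs
  refine Finset.sum_subset (Finset.Icc_subset_Icc_right hY) fun m hm hm' => ?_
  rw [Finset.mem_Icc] at hm
  rw [Finset.mem_Icc, not_and, not_le] at hm'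
  have h1 := hm' hm.1
  have h2 : Real.exp (D + k * c) < m := Nat.lt_of_floor_lt h1
  have hm0 : (0 : ℝ) < m := (Real.exp_pos _).trans h2
  have h3 : D + k * c < Real.log m := (Real.lt_log_iff_exp_lt hm0).2 h2
  rw [cu_zero k c _ hc (by linarith)]
  simp

theorem sum_inv_sqrt (Y : ℕ) : ∑ m ∈ Finset.Icc 1 Y, (m : ℝ) ^ (-(1 / 2) : ℝ) ≤ 2 * √(Y : ℝ) := by
  induction Y with
  | zero => simp
  | succ n ih =>
    rw [Finset.sum_Icc_succ_top (by omega)]
    have h0 : (0 : ℝ) < ((n + 1 : ℕ) : ℝ) := by positivity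
    have h1 : ((n + 1 : ℕ) : ℝ) ^ (-(1 / 2) : ℝ) = 1 / √((n + 1 : ℕ) : ℝ) := by
      rw [Real.rpow_neg h0.le, Real.sqrt_eq_rpow]
      exact (one_div _).symm
    rw [h1]
    have h2 : 0 < √((n + 1 : ℕ) : ℝ) := Real.sqrt_pos.2 h0
    have h3 : √(n : ℝ) ≤ √((n + 1 : ℕ) : ℝ) := Real.sqrt_le_sqrt (by push_cast; linarith)
    have h4 : √((n + 1 : ℕ) : ℝ) ^ 2 = n + 1 := by
      rw [Real.sq_sqrt h0.le]; push_cast; ring
    have h5 : √(n : ℝ) ^ 2 = n := Real.sq_sqrt (by positivity)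
    have h6 : 1 / √((n + 1 : ℕ) : ℝ) ≤ 2 * (√((n + 1 : ℕ) : ℝ) - √(n : ℝ)) := by
      rw [div_le_iff₀ h2]
      nlinarith [sq_nonneg (√((n + 1 : ℕ) : ℝ) - √(n : ℝ))]
    linarith

theorem conj_Sa (b : ℕ → ℝ) (Y : ℕ) (u : ℝ) :
    conj (Sa b Y u) = ∑ n ∈ Finset.Icc 1 Y, (b n : ℂ) * (n : ℂ) ^ (-(1 - (1 / 2 + I * (u : ℂ)))) := by
  unfold Sa
  rw [map_sum]
  refine Finset.sum_congr rfl fun n hn => ?_
  rw [map_mul, conj_ofReal]
  congr 1
  have hn0 : (n : ℂ).arg ≠ Real.pi := by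
    rw [Complex.natCast_arg]
    exact Real.pi_pos.ne
  have h1 := Complex.cpow_conj (n : ℂ) (-(1 / 2 + I * (u : ℂ))) hn0
  rw [Complex.conj_natCast] at h1
  rw [← h1]
  congr 1
  simp only [map_neg, map_add, map_mul, map_div₀, map_one, map_ofNat, conj_ofReal, conj_I]
  ring

theorem afw : S_AFW := by
  intro η hη hη1
  obtain ⟨k₀, hmain⟩ := Pool.Agent.TH75.AFE1.main η hη hη1
  obtain ⟨k, hkdef⟩ : ∃ k, k = k₀ + 2 := ⟨_, rfl⟩
  obtain ⟨T₁, hT₁⟩ := hmain k (by omega)
  have hk2 : (2 : ℝ) ≤ k := by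
    rw [hkdef]; push_cast
    have : (0 : ℝ) ≤ k₀ := by positivity
    linarith
  have hk0 : (0 : ℝ) < k := by linarith
  refine ⟨max (max T₁ 3) (max (Real.exp (k / η)) (9 ^ 14)),
    (le_max_right _ _).trans (le_max_left _ _), ?_⟩
  intro T hT
  have hTT₁ : T₁ ≤ T := ((le_max_left _ _).trans (le_max_left _ _)).trans hT
  have hT3 : 3 ≤ T := ((le_max_right _ _).trans (le_max_left _ _)).trans hT
  have hTe : Real.exp (k / η) ≤ T := ((le_max_left _ _).trans (le_max_right _ _)).trans hT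
  have hT9 : (9 : ℝ) ^ 14 ≤ T := ((le_max_right _ _).trans (le_max_right _ _)).trans hT
  have hT0 : 0 < T := by linarith
  have hT1 : 1 ≤ T := by linarith
  obtain ⟨L, hL⟩ : ∃ L : ℝ, L = Real.log T := ⟨_, rfl⟩
  have hLk : k / η ≤ L := by
    rw [hL, Real.le_log_iff_exp_le hT0]
    exact hTe
  have hLη : k ≤ η * L := by
    rw [div_le_iff₀ hη] at hLk
    linarith
  have hL0 : 0 < L := lt_of_lt_of_le (by positivity) hLk
  obtain ⟨c, hc⟩ : ∃ c : ℝ, c = η * L / k := ⟨_, rfl⟩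
  have hc1 : 1 ≤ c := by
    rw [hc, le_div_iff₀ hk0]
    linarith
  have hc0 : 0 < c := by linarith
  have hkc : k * c = η * L := by
    rw [hc]
    field_simp
  obtain ⟨D, hD⟩ : ∃ D : ℝ, D = 1 / 2 * L := ⟨_, rfl⟩
  obtain ⟨D1, hD1⟩ : ∃ D1 : ℝ, D1 = Real.log (T / (2 * Real.pi)) - D - η * L := ⟨_, rfl⟩
  have hpi := Real.pi_gt_three
  have hpi' := Real.pi_lt_d2
  have h2pi : Real.log (2 * Real.pi) ≤ 2 := by
    rw [Real.log_le_iff_le_exp (by positivity)]
    have h1 : (2.7 : ℝ) ≤ Real.exp 1 := by linarith [Real.exp_one_gt_d9]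
    have h2 : Real.exp 2 = Real.exp 1 ^ 2 := by rw [← Real.exp_nat_mul]; norm_num
    rw [h2]
    nlinarith
  obtain ⟨Y, hY⟩ : ∃ Y : ℕ, Y = ⌊T ^ (1 / 2 + 2 * η)⌋₊ := ⟨_, rfl⟩
  have hTp : 1 ≤ T ^ (1 / 2 + 2 * η) := Real.one_le_rpow hT1 (by positivity)
  have hY1 : 1 ≤ Y := by
    rw [hY, Nat.one_le_floor_iff]
    exact hTp
  have hYT : (Y : ℝ) ≤ T ^ (1 / 2 + 2 * η) := by
    rw [hY]
    exact Nat.floor_le (by linarith)
  have hexpT : ∀ x : ℝ, Real.exp (x * L) = T ^ x := by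
    intro x
    rw [hL, Real.rpow_def_of_pos hT0, mul_comm]
  refine ⟨Y, fun n => cu k c (Real.log n - D), fun n => cu k c (Real.log n - D1), hY1, hYT,
    fun n => ⟨cu_nonneg _ _ _ hc0, cu_le_one _ _ _ hc0⟩,
    fun n => ⟨cu_nonneg _ _ _ hc0, cu_le_one _ _ _ hc0⟩, ?_, ?_⟩
  · intro n hn hnT
    have hn0 : (0 : ℝ) < n := by exact_mod_cast hn
    have hlog : Real.log n ≤ (1 / 2 - 2 * η) * L := by
      rw [Real.log_le_iff_le_exp hn0, hexpT]
      exact hnT
    have hlT : Real.log (T / (2 * Real.pi)) = L - Real.log (2 * Real.pi) := by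
      rw [Real.log_div hT0.ne' (by positivity), hL]
    refine ⟨cu_one _ _ _ hc0 ?_, cu_one _ _ _ hc0 ?_, ?_⟩
    · rw [hD]
      nlinarith
    · rw [hD1, hD, hlT]
      nlinarith
    · rw [hY]
      refine Nat.le_floor (hnT.trans (Real.rpow_le_rpow_of_exponent_le hT1 (by linarith)))
  · intro u hu hu2
    have hu0 : 0 < u := by linarith
    have huT : u ≤ 5 * T := by
      have h1 : T ^ (1 / 2 + 4 * η) ≤ T := by
        calc T ^ (1 / 2 + 4 * η) ≤ T ^ (1 : ℝ) := Real.rpow_le_rpow_of_exponent_le hT1 (by linarith)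
          _ = T := Real.rpow_one T
      linarith
    obtain ⟨s, hs⟩ : ∃ s : ℂ, s = 1 / 2 + I * (u : ℂ) := ⟨_, rfl⟩
    have hs' : s = ((1 / 2 : ℝ) : ℂ) + (u : ℂ) * I := by
      rw [hs]; push_cast; ring
    have h1 := hT₁ T hTT₁ u (by linarith) D (by rw [hD]; positivity) (by rw [hD, hL]) s hs'
    rw [← hL, ← hc] at h1
    obtain ⟨D2, hD2⟩ : ∃ D2 : ℝ, D2 = Real.log (u / (2 * Real.pi)) - D - η * L := ⟨_, rfl⟩
    rw [← hD2] at h1
    have hXX : Pool.Agent.H448R2.GC.XX (1 - s) = Xc u := by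
      have h2 := chi_XX (w := 1 - s) (by rw [hs]; simp <;> norm_num) (by rw [hs]; simp <;> norm_num)
      have h3 : (1 : ℂ) - (1 - s) = s := by ring
      rw [h3] at h2
      unfold Xc
      rw [← hs, h2]
      rfl
    rw [hXX] at h1
    have hA : cs k c D s = Sa (fun n => cu k c (Real.log n - D)) Y u := by
      rw [cs_ext k c D hc0 s Y]
      · unfold Sa
        rw [hs]
      · rw [hY, hkc, hD]
        refine Nat.floor_le_floor ?_
        rw [show 1 / 2 * L + η * L = (1 / 2 + η) * L by ring, hexpT]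
        exact Real.rpow_le_rpow_of_exponent_le hT1 (by linarith)
    have hB : cs k c D2 (1 - s) =
        ∑ m ∈ Finset.Icc 1 Y, (cu k c (Real.log m - D2) : ℂ) * (m : ℂ) ^ (-(1 - s)) := by
      refine cs_ext k c D2 hc0 (1 - s) Y ?_
      rw [hY, hkc, hD2, hD]
      refine Nat.floor_le_floor ?_
      rw [← hexpT]
      refine Real.exp_le_exp.2 ?_
      have h2 : Real.log (u / (2 * Real.pi)) ≤ L := by
        rw [hL]
        refine Real.log_le_log (by positivity) ?_
        rw [div_le_iff₀ (by positivity)]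
        nlinarith
      nlinarith
    have hdiff : ‖cs k c D2 (1 - s) - conj (Sa (fun n => cu k c (Real.log n - D1)) Y u)‖ ≤
        8 * T ^ (-(1 / 5) : ℝ) := by
      rw [hB, conj_Sa, ← hs, ← Finset.sum_sub_distrib]
      have hDD : |D2 - D1| ≤ 4 * T ^ (-(1 / 2) + 4 * η) := by
        rw [hD2, hD1]
        have e1 : Real.log (u / (2 * Real.pi)) - D - η * L - (Real.log (T / (2 * Real.pi)) - D - η * L) =
            Real.log (u / T) := by
          rw [Real.log_div hu0.ne' (by positivity), Real.log_div hT0.ne' (by positivity),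
            Real.log_div hu0.ne' hT0.ne']
          ring
        rw [e1]
        have h2 : 1 ≤ u / T := by
          rw [le_div_iff₀ hT0]
          linarith
        rw [abs_of_nonneg (Real.log_nonneg h2)]
        have h3 := Real.log_le_sub_one_of_pos (x := u / T) (by positivity)
        refine h3.trans ?_
        have h4 : T ^ (-(1 / 2) + 4 * η) = T ^ (1 / 2 + 4 * η) / T := by
          rw [show -(1 / 2) + 4 * η = (1 / 2 + 4 * η) - 1 by ring, Real.rpow_sub_one hT0.ne']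
        rw [h4, ← mul_div_assoc, sub_le_iff_le_add, div_le_iff₀ hT0]
        have h5 : (4 * T ^ (1 / 2 + 4 * η) / T + 1) * T = 4 * T ^ (1 / 2 + 4 * η) + T := by
          field_simp
        rw [h5]
        linarith
      have hterm : ∀ m ∈ Finset.Icc 1 Y,
          ‖(cu k c (Real.log m - D2) : ℂ) * (m : ℂ) ^ (-(1 - s)) -
            (cu k c (Real.log m - D1) : ℂ) * (m : ℂ) ^ (-(1 - s))‖ ≤
          4 * T ^ (-(1 / 2) + 4 * η) * (m : ℝ) ^ (-(1 / 2) : ℝ) := by
        intro m hm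
        rw [Finset.mem_Icc] at hm
        rw [← sub_mul, norm_mul, Complex.norm_natCast_cpow_of_pos (by omega)]
        have h2 : (-(1 - s)).re = -(1 / 2) := by
          rw [hs]; simp; norm_num
        rw [h2, ← Complex.ofReal_sub, Complex.norm_real, Real.norm_eq_abs]
        refine mul_le_mul_of_nonneg_right ?_ (by positivity)
        have h3 := cu_lip k₀ c hc0 (Real.log m - D1) (Real.log m - D2)
        rw [← hkdef] at h3
        have h4 : Real.log m - D2 - (Real.log m - D1) = -(D2 - D1) := by ring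
        rw [h4, abs_neg] at h3
        have h5 : 1 / c ≤ 1 := by
          rw [div_le_one hc0]
          exact hc1
        calc _ ≤ 1 / c * |D2 - D1| := h3
          _ ≤ 1 * |D2 - D1| := mul_le_mul_of_nonneg_right h5 (abs_nonneg _)
          _ ≤ _ := by rw [one_mul]; exact hDD
      refine (norm_sum_le _ _).trans ((Finset.sum_le_sum hterm).trans ?_)
      rw [← Finset.mul_sum]
      have h6 : √(Y : ℝ) ≤ T ^ (1 / 4 + η) := by
        have h7 : T ^ (1 / 4 + η) = √(T ^ (1 / 2 + 2 * η)) := by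
          rw [Real.sqrt_eq_rpow, ← Real.rpow_mul hT0.le]
          congr 1
          ring
        rw [h7]
        exact Real.sqrt_le_sqrt hYT
      calc 4 * T ^ (-(1 / 2) + 4 * η) * ∑ m ∈ Finset.Icc 1 Y, (m : ℝ) ^ (-(1 / 2) : ℝ)
          ≤ 4 * T ^ (-(1 / 2) + 4 * η) * (2 * T ^ (1 / 4 + η)) := by
            refine mul_le_mul_of_nonneg_left ((sum_inv_sqrt Y).trans ?_) (by positivity)
            linarith
        _ = 8 * T ^ (-(1 / 4) + 5 * η) := by
            rw [show 4 * T ^ (-(1 / 2) + 4 * η) * (2 * T ^ (1 / 4 + η)) =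
              8 * (T ^ (-(1 / 2) + 4 * η) * T ^ (1 / 4 + η)) by ring, ← Real.rpow_add hT0]
            congr 2
            ring
        _ ≤ 8 * T ^ (-(1 / 5) : ℝ) := by
            refine mul_le_mul_of_nonneg_left ?_ (by norm_num)
            exact Real.rpow_le_rpow_of_exponent_le hT1 (by linarith)
    have hfin : 9 * T ^ (-(1 / 5) : ℝ) ≤ T ^ (-(1 / 8) : ℝ) := by
      have h2 : T ^ (-(1 / 8) : ℝ) = T ^ (3 / 40 : ℝ) * T ^ (-(1 / 5) : ℝ) := by
        rw [← Real.rpow_add hT0]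
        congr 1
        norm_num
      rw [h2]
      refine mul_le_mul_of_nonneg_right ?_ (by positivity)
      have h3 : ((9 : ℝ) ^ 14) ^ (3 / 40 : ℝ) ≤ T ^ (3 / 40 : ℝ) :=
        Real.rpow_le_rpow (by positivity) hT9 (by norm_num)
      have h4 : (9 : ℝ) ≤ ((9 : ℝ) ^ 14) ^ (3 / 40 : ℝ) := by
        rw [← Real.rpow_natCast, ← Real.rpow_mul (by norm_num)]
        calc (9 : ℝ) = 9 ^ (1 : ℝ) := (Real.rpow_one 9).symm
          _ ≤ 9 ^ (((14 : ℕ) : ℝ) * (3 / 40)) :=
            Real.rpow_le_rpow_of_exponent_le (by norm_num) (by norm_num)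
      exact h4.trans h3
    have hz : z u = riemannZeta s := by
      rw [hs]
      rfl
    rw [hz]
    have e2 : riemannZeta s - Sa (fun n => cu k c (Real.log n - D)) Y u -
        Xc u * conj (Sa (fun n => cu k c (Real.log n - D1)) Y u) =
        (riemannZeta s - cs k c D s - Xc u * cs k c D2 (1 - s)) +
          Xc u * (cs k c D2 (1 - s) - conj (Sa (fun n => cu k c (Real.log n - D1)) Y u)) := by
      rw [hA]
      ring
    rw [e2]
    refine (norm_add_le _ _).trans ?_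
    rw [norm_mul, Xc_norm, one_mul]
    linarith

end

end Pool.Agent.H27.SW
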