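import Pool.Agent.H27.SW.Stm

set_option autoImplicit false

/-! SW-EXC: permutations and subsets (helper17). -/

namespace Pool.Agent.H27.SW.EXC

open Complex Filter Topology MeasureTheory Set
open Pool.Agent.TH612.CF
open Pool.Agent.TH612.GS
open Pool.Agent.N879.PZ (Wb)
open Pool.Agent.N879.PU (fs)
open Pool.Agent.H27.SW

noncomputable section

variable {k : ℕ}

/-- the image of the left places -/
def AP (π : Equiv.Perm (Fin k ⊕ Fin k)) : Finset (Fin k ⊕ Fin k) :=
  Finset.univ.image fun j : Fin k => π (Sum.inl j)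

lemma mem_inl (π : Equiv.Perm (Fin k ⊕ Fin k)) (j : Fin k) : π (Sum.inl j) ∈ AP π :=
  Finset.mem_image_of_mem _ (Finset.mem_univ j)

lemma not_mem_inr (π : Equiv.Perm (Fin k ⊕ Fin k)) (j : Fin k) : π (Sum.inr j) ∉ AP π := by
  intro h
  unfold AP at h
  rw [Finset.mem_image] at h
  obtain ⟨i, -, hi⟩ := h
  exact Sum.inl_ne_inr (π.injective hi)

lemma card_AP (π : Equiv.Perm (Fin k ⊕ Fin k)) : (AP π).card = k := by
  unfold AP
  rw [Finset.card_image_of_injective _ fun a b h => Sum.inl_injective (π.injective h)]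
  simp

lemma compl_AP (π : Equiv.Perm (Fin k ⊕ Fin k)) :
    (AP π)ᶜ = Finset.univ.image fun j : Fin k => π (Sum.inr j) := by
  ext i
  obtain ⟨i', rfl⟩ := π.surjective i
  rw [Finset.mem_compl, Finset.mem_image]
  rcases i' with j | j
  · constructor
    · intro h; exact absurd (mem_inl π j) h
    · rintro ⟨i, -, hi⟩
      exact absurd (π.injective hi) Sum.inr_ne_inl
  · constructor
    · intro _; exact ⟨j, Finset.mem_univ _, rfl⟩
    · intro _; exact not_mem_inr π j

lemma AP_iff {A : Finset (Fin k ⊕ Fin k)} (hA : A.card = k) (π : Equiv.Perm (Fin k ⊕ Fin k)) :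
    AP π = A ↔ Good (fun i => if i ∈ A then (1 : ℝ) else -1) π := by
  unfold Good
  constructor
  · rintro rfl j
    exact ⟨if_pos (mem_inl π j), if_neg (not_mem_inr π j)⟩
  · intro h
    have h1 : AP π ⊆ A := by
      intro i hi
      unfold AP at hi
      rw [Finset.mem_image] at hi
      obtain ⟨j, -, rfl⟩ := hi
      by_contra hc
      have h2 : (if π (Sum.inl j) ∈ A then (1 : ℝ) else -1) = 1 := (h j).1
      rw [if_neg hc] at h2
      norm_num at h2
    exact Finset.eq_of_subset_of_card_le h1 (by rw [hA, card_AP])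

open Classical in
lemma card_fiber (A : Finset (Fin k ⊕ Fin k)) :
    (Finset.univ.filter fun π : Equiv.Perm (Fin k ⊕ Fin k) => AP π = A).card =
      if A.card = k then (Nat.factorial k) ^ 2 else 0 := by
  split_ifs with hA
  · obtain ⟨π0, h0⟩ := exists_good hA
    have h1 : Good (fun i => if i ∈ A then (1 : ℝ) else -1) π0 := by
      intro j
      exact ⟨if_pos (h0 j).1, if_neg (h0 j).2⟩
    rw [← card_good h1]
    congr 1
    ext π
    simp only [Finset.mem_filter, Finset.mem_univ, true_and]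
    exact AP_iff hA π
  · rw [Finset.card_eq_zero, Finset.filter_eq_empty_iff]
    intro π _ h
    exact hA (by rw [← h]; exact card_AP π)

lemma conj_Xc (u : ℝ) : (starRingEnd ℂ) (Xc u) = chi (1 / 2 - I * u) := by
  have h1 : ‖Xc u‖ = 1 := norm_chi u
  have h2 : Xc u * chi (1 / 2 - I * u) = 1 := chi_mul (w := I * u) (by simp)
  have h3 : Xc u * (starRingEnd ℂ) (Xc u) = 1 := by
    rw [Complex.mul_conj, Complex.normSq_eq_norm_sq, h1]
    norm_num
  have h4 : Xc u ≠ 0 := by
    intro h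
    rw [h, norm_zero] at h1
    norm_num at h1
  exact mul_left_cancel₀ h4 (by rw [h2, h3])

lemma GG_XA (t : ℝ) (γ : Fin k ⊕ Fin k → ℝ) (π : Equiv.Perm (Fin k ⊕ Fin k)) :
    GG t (fun i => (γ i : ℂ)) π = XA (AP π) γ t := by
  unfold XA GG
  rw [← Equiv.prod_comp π, Fintype.prod_sum_type]
  congr 1
  · refine Finset.prod_congr rfl fun j _ => ?_
    rw [if_pos (mem_inl π j), conj_Xc]
    congr 1
    congr 1
    push_cast
    ring
  · refine Finset.prod_congr rfl fun j _ => ?_
    rw [if_neg (not_mem_inr π j)]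
    unfold Xc
    congr 1
    congr 1
    push_cast
    ring

lemma prod_AP {M : Type*} [CommMonoid M] (f : Fin k ⊕ Fin k → M) (π : Equiv.Perm (Fin k ⊕ Fin k)) :
    ∏ i ∈ AP π, f i = ∏ j, f (π (Sum.inl j)) := by
  unfold AP
  rw [Finset.prod_image fun a _ b _ h => Sum.inl_injective (π.injective h)]

lemma prod_cAP {M : Type*} [CommMonoid M] (f : Fin k ⊕ Fin k → M) (π : Equiv.Perm (Fin k ⊕ Fin k)) :
    ∏ i ∈ (AP π)ᶜ, f i = ∏ j, f (π (Sum.inr j)) := by
  rw [compl_AP, Finset.prod_image fun a _ b _ h => Sum.inr_injective (π.injective h)]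

lemma ch_chA (μ : Fin k ⊕ Fin k → ℕ) (γ : Fin k ⊕ Fin k → ℝ) (π : Equiv.Perm (Fin k ⊕ Fin k)) :
    ch (fun i => μ (π i)) (fun i => γ (π i)) = chA (AP π) μ γ := by
  unfold ch chA
  rw [← Equiv.prod_comp π, Fintype.prod_sum_type]
  congr 1
  · refine Finset.prod_congr rfl fun j _ => ?_
    rw [if_pos (mem_inl π j)]
  · refine Finset.prod_congr rfl fun j _ => ?_
    rw [if_neg (not_mem_inr π j)]

lemma wt_comp (μ : Fin k ⊕ Fin k → ℕ) (π : Equiv.Perm (Fin k ⊕ Fin k)) :
    wt (fun i => μ (π i)) = wt μ := by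
  unfold wt
  rw [Equiv.prod_comp π (fun i => (μ i : ℝ))]

lemma SN_DA (N : ℕ) (γ : Fin k ⊕ Fin k → ℝ) (π : Equiv.Perm (Fin k ⊕ Fin k)) :
    SN N (fun i => γ (π i)) = DA N (AP π) γ := by
  unfold SN DA
  symm
  refine Finset.sum_bij' (fun μ _ => fun i => μ (π i)) (fun ν _ => fun i => ν (π.symm i)) ?_ ?_ ?_ ?_ ?_
  · intro μ hμ
    unfold tup at hμ ⊢
    rw [Fintype.mem_piFinset] at hμ ⊢
    exact fun i => hμ _
  · intro ν hν
    unfold tup at hν ⊢
    rw [Fintype.mem_piFinset] at hν ⊢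
    exact fun i => hν _
  · intro μ _
    funext i
    simp
  · intro ν _
    funext i
    simp
  · intro μ _
    rw [prod_AP, prod_cAP, ch_chA, wt_comp]

theorem main : S_EXC := by
  classical
  intro k N T H γ
  have h1 : ∀ π : Equiv.Perm (Fin k ⊕ Fin k), (∫ t in T..(T + H), GG t (fun i => (γ i : ℂ)) π) *
      SN N (fun i => γ (π i)) = (∫ t in T..(T + H), XA (AP π) γ t) * DA N (AP π) γ := by
    intro π
    rw [SN_DA]
    congr 1
    refine intervalIntegral.integral_congr fun t _ => ?_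
    exact GG_XA t γ π
  rw [Finset.sum_congr rfl fun π _ => h1 π, Finset.mul_sum,
    ← Finset.sum_fiberwise_of_maps_to (s := Finset.univ) (t := Finset.univ) (g := AP)
      (fun π _ => Finset.mem_univ _)]
  refine Finset.sum_congr rfl fun A _ => ?_
  have h2 : ∀ π ∈ Finset.univ.filter (fun π : Equiv.Perm (Fin k ⊕ Fin k) => AP π = A),
      (∫ t in T..(T + H), XA (AP π) γ t) * DA N (AP π) γ =
        (∫ t in T..(T + H), XA A γ t) * DA N A γ := by
    intro π hπ
    rw [Finset.mem_filter] at hπ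
    rw [hπ.2]
  rw [Finset.sum_congr rfl h2, Finset.sum_const, card_fiber]
  split_ifs with hA
  · rw [nsmul_eq_mul]
    push_cast
    ring
  · simp

end

end Pool.Agent.H27.SW.EXC
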