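import Pool.Agent.H27.SW.Stm

set_option autoImplicit false

/-! Project SW (helper27): the monomials off the diagonal (EXM). -/

namespace Pool.Agent.H27.SW

open Complex Filter Topology MeasureTheory Set
open Pool.Agent.TH612.CF
open Pool.Agent.TH612.GS
open scoped ComplexConjugate

namespace EXM

noncomputable section

theorem prod_sub_le {ι : Type*} (S : Finset ι) (a b : ι → ℂ) (δ : ℝ) (ha : ∀ i ∈ S, ‖a i‖ ≤ 1)
    (hb : ∀ i ∈ S, ‖b i‖ ≤ 1) (h : ∀ i ∈ S, ‖a i - b i‖ ≤ δ) :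
    ‖∏ i ∈ S, a i - ∏ i ∈ S, b i‖ ≤ S.card * δ := by
  classical
  induction S using Finset.induction_on with
  | empty => simp
  | insert j S hj ih =>
    rw [Finset.prod_insert hj, Finset.prod_insert hj, Finset.card_insert_of_notMem hj]
    have e : a j * ∏ i ∈ S, a i - b j * ∏ i ∈ S, b i =
        (a j - b j) * ∏ i ∈ S, a i + b j * (∏ i ∈ S, a i - ∏ i ∈ S, b i) := by ring
    rw [e]
    have h1 : ‖∏ i ∈ S, a i‖ ≤ 1 := by
      rw [norm_prod]
      exact Finset.prod_le_one (fun i _ => norm_nonneg _)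
        (fun i hi => ha i (Finset.mem_insert_of_mem hi))
    have h2 : ‖∏ i ∈ S, a i - ∏ i ∈ S, b i‖ ≤ S.card * δ :=
      ih (fun i hi => ha i (Finset.mem_insert_of_mem hi))
        (fun i hi => hb i (Finset.mem_insert_of_mem hi))
        (fun i hi => h i (Finset.mem_insert_of_mem hi))
    have h3 := h j (Finset.mem_insert_self _ _)
    have h4 := hb j (Finset.mem_insert_self _ _)
    calc ‖(a j - b j) * ∏ i ∈ S, a i + b j * (∏ i ∈ S, a i - ∏ i ∈ S, b i)‖
        ≤ ‖(a j - b j) * ∏ i ∈ S, a i‖ + ‖b j * (∏ i ∈ S, a i - ∏ i ∈ S, b i)‖ := norm_add_le _ _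
      _ ≤ δ + S.card * δ := by
        rw [norm_mul, norm_mul]
        have h5 : ‖a j - b j‖ * ‖∏ i ∈ S, a i‖ ≤ ‖a j - b j‖ * 1 :=
          mul_le_mul_of_nonneg_left h1 (norm_nonneg _)
        have h6 : ‖b j‖ * ‖∏ i ∈ S, a i - ∏ i ∈ S, b i‖ ≤ 1 * ‖∏ i ∈ S, a i - ∏ i ∈ S, b i‖ :=
          mul_le_mul_of_nonneg_right h4 (norm_nonneg _)
        linarith
      _ = ((S.card + 1 : ℕ) : ℝ) * δ := by push_cast; ring

theorem exp_int (ω H : ℝ) (hω : ω ≠ 0) :
    ‖∫ s in (0 : ℝ)..H, cexp (-(I * ((s * ω : ℝ) : ℂ)))‖ ≤ 2 / |ω| := by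
  have e : ∀ s : ℝ, cexp (-(I * ((s * ω : ℝ) : ℂ))) = cexp ((-(I * (ω : ℂ))) * (s : ℂ)) := by
    intro s
    congr 1
    push_cast
    ring
  simp_rw [e]
  have hc : (-(I * (ω : ℂ))) ≠ 0 := by
    simp [hω]
  rw [integral_exp_mul_complex hc, norm_div]
  have hn : ‖-(I * (ω : ℂ))‖ = |ω| := by
    rw [norm_neg, norm_mul, norm_I, one_mul, Complex.norm_real, Real.norm_eq_abs]
  rw [hn]
  have hω' : 0 < |ω| := abs_pos.mpr hω
  have h1 : ∀ x : ℝ, ‖cexp ((-(I * (ω : ℂ))) * (x : ℂ))‖ = 1 := by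
    intro x
    rw [← e, Complex.norm_exp]
    simp
  refine div_le_div_of_nonneg_right ?_ hω'.le
  refine (norm_sub_le _ _).trans ?_
  rw [h1, h1]
  norm_num

/-- `n^(-iu)` -/
def en (n : ℕ) (u : ℝ) : ℂ := cexp (-(I * ((u * Real.log n : ℝ) : ℂ)))

theorem norm_ex (x : ℝ) : ‖cexp (-(I * (x : ℂ)))‖ = 1 := by
  rw [Complex.norm_exp]
  simp

theorem en_norm (n : ℕ) (u : ℝ) : ‖en n u‖ = 1 := norm_ex _


theorem cpow_neg_eq {n : ℕ} (hn : 1 ≤ n) (u : ℝ) : (n : ℂ) ^ (-(I * (u : ℂ))) = en n u := by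
  have h0 : (n : ℂ) ≠ 0 := by exact_mod_cast (by omega : n ≠ 0)
  rw [Complex.cpow_def_of_ne_zero h0, en, ← Complex.natCast_log]
  congr 1
  push_cast
  ring

theorem cpow_eq {n : ℕ} (hn : 1 ≤ n) (u : ℝ) : (n : ℂ) ^ (I * (u : ℂ)) = en n (-u) := by
  rw [← cpow_neg_eq hn]
  congr 1
  push_cast
  ring

theorem en_add (n : ℕ) (u v : ℝ) : en n (u + v) = en n u * en n v := by
  unfold en
  rw [← Complex.exp_add]
  congr 1
  push_cast
  ring

/-- one factor -/
def fac {k : ℕ} (A : Finset (Fin k ⊕ Fin k)) (ν : Fin k ⊕ Fin k → ℕ) (i : Fin k ⊕ Fin k) (v : ℝ) : ℂ :=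
  (if i ∈ A then (if i.isRight then conj (Xc v) else 1) else (if i.isLeft then Xc v else 1)) *
    (if i ∈ A then (ν i : ℂ) ^ (-(I * (v : ℂ))) else (ν i : ℂ) ^ (I * (v : ℂ)))

/-- the frequency of a factor -/
def om {k : ℕ} (A : Finset (Fin k ⊕ Fin k)) (ν : Fin k ⊕ Fin k → ℕ) (i : Fin k ⊕ Fin k) (v : ℝ) : ℝ :=
  if i ∈ A then Real.log (ν i) - (if i.isRight then Real.log (v / (2 * Real.pi)) else 0)
  else (if i.isLeft then Real.log (v / (2 * Real.pi)) else 0) - Real.log (ν i)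

theorem fac_norm {k : ℕ} (hX : ∀ u, ‖Xc u‖ = 1) (A : Finset (Fin k ⊕ Fin k))
    (ν : Fin k ⊕ Fin k → ℕ) (i : Fin k ⊕ Fin k) (hν : 1 ≤ ν i) (v : ℝ) : ‖fac A ν i v‖ = 1 := by
  unfold fac
  rw [cpow_neg_eq hν, cpow_eq hν, norm_mul]
  split_ifs <;> simp [en_norm, hX]

theorem fac_lin {k : ℕ} (C : ℝ) (hC : 0 < C) (V s : ℝ) (hV : 0 < V) (hs : 0 ≤ s)
    (hX : ‖Xc (V + s) - Xc V * cexp (-(I * ((s * Real.log (V / (2 * Real.pi)) : ℝ) : ℂ)))‖ ≤
      C * (s + s ^ 2) / V) (A : Finset (Fin k ⊕ Fin k))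
    (ν : Fin k ⊕ Fin k → ℕ) (i : Fin k ⊕ Fin k) (hν : 1 ≤ ν i) :
    ‖fac A ν i (V + s) - fac A ν i V * cexp (-(I * ((s * om A ν i V : ℝ) : ℂ)))‖ ≤
      C * (s + s ^ 2) / V := by
  have hnn : 0 ≤ C * (s + s ^ 2) / V := by positivity
  unfold fac om
  rw [cpow_neg_eq hν, cpow_eq hν, cpow_neg_eq hν, cpow_eq hν]
  have e1 : en (ν i) (V + s) = en (ν i) V * en (ν i) s := en_add _ _ _
  have e2 : en (ν i) (-(V + s)) = en (ν i) (-V) * en (ν i) (-s) := by
    rw [← en_add]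
    congr 1
    ring
  obtain ⟨l, hl⟩ : ∃ l : ℝ, l = Real.log (V / (2 * Real.pi)) := ⟨_, rfl⟩
  rw [← hl] at hX ⊢
  split_ifs with h1 h2 h2
  · -- in A, right
    have e3 : cexp (-(I * ((s * (Real.log (ν i) - l) : ℝ) : ℂ))) =
        en (ν i) s * conj (cexp (-(I * ((s * l : ℝ) : ℂ)))) := by
      rw [en, ← Complex.exp_conj, ← Complex.exp_add]
      congr 1
      simp only [map_neg, map_mul, conj_I, conj_ofReal]
      push_cast
      ring
    rw [e3, e1]
    have e4 : conj (Xc (V + s)) * (en (ν i) V * en (ν i) s) -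
        conj (Xc V) * en (ν i) V * (en (ν i) s * conj (cexp (-(I * ((s * l : ℝ) : ℂ))))) =
        (en (ν i) V * en (ν i) s) * conj (Xc (V + s) - Xc V * cexp (-(I * ((s * l : ℝ) : ℂ)))) := by
      rw [map_sub, map_mul]
      ring
    rw [e4, norm_mul, norm_mul, en_norm, en_norm, one_mul, one_mul, Complex.norm_conj]
    exact hX
  · -- in A, left
    rw [e1, sub_zero]
    have e4 : 1 * (en (ν i) V * en (ν i) s) -
        1 * en (ν i) V * cexp (-(I * ((s * Real.log (ν i) : ℝ) : ℂ))) = 0 := by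
      rw [show cexp (-(I * ((s * Real.log (ν i) : ℝ) : ℂ))) = en (ν i) s from rfl]
      ring
    rw [e4, norm_zero]
    exact hnn
  · -- not in A, left
    have e3 : cexp (-(I * ((s * (l - Real.log (ν i)) : ℝ) : ℂ))) =
        en (ν i) (-s) * cexp (-(I * ((s * l : ℝ) : ℂ))) := by
      rw [en, ← Complex.exp_add]
      congr 1
      push_cast
      ring
    rw [e3, e2]
    have e4 : Xc (V + s) * (en (ν i) (-V) * en (ν i) (-s)) -
        Xc V * en (ν i) (-V) * (en (ν i) (-s) * cexp (-(I * ((s * l : ℝ) : ℂ)))) =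
        (en (ν i) (-V) * en (ν i) (-s)) * (Xc (V + s) - Xc V * cexp (-(I * ((s * l : ℝ) : ℂ)))) := by
      ring
    rw [e4, norm_mul, norm_mul, en_norm, en_norm, one_mul, one_mul]
    exact hX
  · -- not in A, right
    rw [e2]
    have e4 : 1 * (en (ν i) (-V) * en (ν i) (-s)) -
        1 * en (ν i) (-V) * cexp (-(I * ((s * (0 - Real.log (ν i)) : ℝ) : ℂ))) = 0 := by
      rw [show cexp (-(I * ((s * (0 - Real.log (ν i)) : ℝ) : ℂ))) = en (ν i) (-s) from by
        unfold en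
        congr 1
        push_cast
        ring]
      ring
    rw [e4, norm_zero]
    exact hnn

theorem sum_sig {k : ℕ} (A : Finset (Fin k ⊕ Fin k)) :
    ∑ i, (if i ∈ A then (if i.isRight then (-1 : ℝ) else 0) else (if i.isLeft then 1 else 0)) =
      (k : ℝ) - A.card := by
  have h : ∀ i : Fin k ⊕ Fin k,
      (if i ∈ A then (if i.isRight then (-1 : ℝ) else 0) else (if i.isLeft then 1 else 0)) =
        (if i.isLeft then (1 : ℝ) else 0) - (if i ∈ A then (1 : ℝ) else 0) := by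
    intro i
    rcases i with i | i <;> by_cases hi : (Sum.inl i : Fin k ⊕ Fin k) ∈ A <;>
      by_cases hj : (Sum.inr i : Fin k ⊕ Fin k) ∈ A <;> simp [hi, hj]
  simp_rw [h]
  rw [Finset.sum_sub_distrib]
  congr 1
  · rw [Fintype.sum_sum_type]
    simp
  · rw [Finset.sum_ite_mem]
    simp

theorem om_sum {k : ℕ} (A : Finset (Fin k ⊕ Fin k)) (ν : Fin k ⊕ Fin k → ℕ) (T U : ℝ)
    (γ : Fin k ⊕ Fin k → ℝ) (hT : 0 < T) (hγ : ∀ i, 0 ≤ γ i ∧ γ i ≤ U) :
    |∑ i, om A ν i (T + γ i) - (((k : ℝ) - A.card) * Real.log (T / (2 * Real.pi)) +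
      (∑ i ∈ A, Real.log (ν i) - ∑ i ∈ Aᶜ, Real.log (ν i)))| ≤ 2 * k * (U / T) := by
  have hpi : 0 < 2 * Real.pi := by positivity
  have hε : ∀ i, 0 ≤ Real.log ((T + γ i) / (2 * Real.pi)) - Real.log (T / (2 * Real.pi)) ∧
      Real.log ((T + γ i) / (2 * Real.pi)) - Real.log (T / (2 * Real.pi)) ≤ U / T := by
    intro i
    have h1 := hγ i
    have h2 : 0 < T + γ i := by linarith [h1.1]
    rw [Real.log_div h2.ne' hpi.ne', Real.log_div hT.ne' hpi.ne']
    have h3 : Real.log (T + γ i) - Real.log T = Real.log ((T + γ i) / T) := by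
      rw [Real.log_div h2.ne' hT.ne']
    have h4 : Real.log (T + γ i) - Real.log (2 * Real.pi) - (Real.log T - Real.log (2 * Real.pi)) =
        Real.log ((T + γ i) / T) := by
      rw [← h3]
      ring
    rw [h4]
    constructor
    · apply Real.log_nonneg
      rw [le_div_iff₀ hT]
      linarith
    · have h5 : Real.log ((T + γ i) / T) ≤ (T + γ i) / T - 1 := Real.log_le_sub_one_of_pos (by positivity)
      have h6 : (T + γ i) / T - 1 = γ i / T := by
        field_simp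
        ring
      rw [h6] at h5
      exact h5.trans (div_le_div_of_nonneg_right h1.2 hT.le)
  have e : ∀ i : Fin k ⊕ Fin k, om A ν i (T + γ i) =
      (if i ∈ A then (if i.isRight then (-1 : ℝ) else 0) else (if i.isLeft then 1 else 0)) *
        Real.log (T / (2 * Real.pi)) +
      ((if i ∈ A then Real.log (ν i) else 0) - (if i ∈ Aᶜ then Real.log (ν i) else 0)) +
      (if i ∈ A then (if i.isRight then (-1 : ℝ) else 0) else (if i.isLeft then 1 else 0)) *
        (Real.log ((T + γ i) / (2 * Real.pi)) - Real.log (T / (2 * Real.pi))) := by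
    intro i
    unfold om
    simp only [Finset.mem_compl]
    split_ifs <;> ring
  have e2 : ∑ i, om A ν i (T + γ i) - (((k : ℝ) - A.card) * Real.log (T / (2 * Real.pi)) +
      (∑ i ∈ A, Real.log (ν i) - ∑ i ∈ Aᶜ, Real.log (ν i))) =
      ∑ i, (if i ∈ A then (if i.isRight then (-1 : ℝ) else 0) else (if i.isLeft then 1 else 0)) *
        (Real.log ((T + γ i) / (2 * Real.pi)) - Real.log (T / (2 * Real.pi))) := by
    simp_rw [e]
    rw [Finset.sum_add_distrib, Finset.sum_add_distrib, ← Finset.sum_mul, sum_sig,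
      Finset.sum_sub_distrib, Finset.sum_ite_mem, Finset.sum_ite_mem, Finset.univ_inter,
      Finset.univ_inter]
    ring
  rw [e2]
  refine (Finset.abs_sum_le_sum_abs _ _).trans ?_
  have h7 : ∀ i ∈ (Finset.univ : Finset (Fin k ⊕ Fin k)),
      |(if i ∈ A then (if i.isRight then (-1 : ℝ) else 0) else (if i.isLeft then 1 else 0)) *
        (Real.log ((T + γ i) / (2 * Real.pi)) - Real.log (T / (2 * Real.pi)))| ≤ U / T := by
    intro i _
    rw [abs_mul, abs_of_nonneg (hε i).1]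
    have h8 : |(if i ∈ A then (if i.isRight then (-1 : ℝ) else 0) else
        (if i.isLeft then 1 else 0))| ≤ 1 := by
      split_ifs <;> simp
    calc _ ≤ 1 * (Real.log ((T + γ i) / (2 * Real.pi)) - Real.log (T / (2 * Real.pi))) :=
          mul_le_mul_of_nonneg_right h8 (hε i).1
      _ ≤ U / T := by rw [one_mul]; exact (hε i).2
  refine (Finset.sum_le_sum h7).trans ?_
  rw [Finset.sum_const, Finset.card_univ, Fintype.card_sum, Fintype.card_fin, nsmul_eq_mul]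
  push_cast
  nlinarith

theorem log_ratio {M M' P : ℕ} (hM : 1 ≤ M) (hM' : 1 ≤ M') (hMP : M ≤ P) (hMP' : M' ≤ P)
    (hne : M ≠ M') : 1 / (P : ℝ) ≤ |Real.log M - Real.log M'| := by
  have key : ∀ a b : ℕ, 1 ≤ a → a < b → b ≤ P → 1 / (P : ℝ) ≤ Real.log b - Real.log a := by
    intro a b ha hab hbP
    have ha' : (0 : ℝ) < a := by exact_mod_cast ha
    have hb' : (0 : ℝ) < b := by exact_mod_cast (by omega : 0 < b)
    have hP' : (0 : ℝ) < P := by exact_mod_cast (by omega : 0 < P)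
    have h1 : Real.log (a / b) ≤ a / b - 1 := Real.log_le_sub_one_of_pos (by positivity)
    rw [Real.log_div ha'.ne' hb'.ne'] at h1
    have h2 : (a : ℝ) + 1 ≤ b := by exact_mod_cast hab
    have h3 : (a : ℝ) / b ≤ 1 - 1 / b := by
      rw [div_le_iff₀ hb', sub_mul, one_div, inv_mul_cancel₀ hb'.ne']
      linarith
    have h4 : 1 / (P : ℝ) ≤ 1 / b := by
      apply one_div_le_one_div_of_le hb'
      exact_mod_cast hbP
    linarith
  rcases lt_or_gt_of_ne hne with h | h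
  · have h1 := key M M' hM h hMP'
    rw [abs_sub_comm]
    exact h1.trans (le_abs_self _)
  · have h1 := key M' M hM' h hMP
    exact h1.trans (le_abs_self _)

theorem freq {k : ℕ} (A : Finset (Fin k ⊕ Fin k)) (ν : Fin k ⊕ Fin k → ℕ) (T U : ℝ) (N : ℕ)
    (γ : Fin k ⊕ Fin k → ℝ) (hT : Real.exp (8 * k + 16) ≤ T) (hU : 1 ≤ U) (hN : 1 ≤ N)
    (hNU : (N : ℝ) ^ (8 * k + 8) * U ≤ T) (hγ : ∀ i, 0 ≤ γ i ∧ γ i ≤ U)
    (hν : ∀ i, 1 ≤ ν i ∧ ν i ≤ N) (hA : ¬(A.card = k ∧ ∏ i ∈ A, ν i = ∏ i ∈ Aᶜ, ν i)) :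
    ((N : ℝ) ^ k)⁻¹ / 2 ≤ |∑ i, om A ν i (T + γ i)| := by
  have hT0 : 0 < T := lt_of_lt_of_le (Real.exp_pos _) hT
  have hN1 : (1 : ℝ) ≤ N := by exact_mod_cast hN
  have hN0 : (0 : ℝ) < N := by linarith
  have hos := om_sum A ν T U γ hT0 hγ
  have hNk1 : (1 : ℝ) ≤ (N : ℝ) ^ k := one_le_pow₀ hN1
  have hNk0 : (0 : ℝ) < (N : ℝ) ^ k := by positivity
  have hUT : U / T ≤ ((N : ℝ) ^ (8 * k + 8))⁻¹ := by
    rw [div_le_iff₀ hT0, ← div_eq_inv_mul, le_div_iff₀ (by positivity)]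
    linarith
  have hU0 : 0 ≤ U / T := by positivity
  have hinv : ((N : ℝ) ^ k)⁻¹ ≤ 1 := inv_le_one_of_one_le₀ hNk1
  by_cases hc : A.card = k
  · -- equal cardinalities
    have hne : ∏ i ∈ A, ν i ≠ ∏ i ∈ Aᶜ, ν i := fun h => hA ⟨hc, h⟩
    have hcc : (Aᶜ).card = k := by
      rw [Finset.card_compl, Fintype.card_sum, Fintype.card_fin, hc]
      omega
    have hp1 : ∀ S : Finset (Fin k ⊕ Fin k), 1 ≤ ∏ i ∈ S, ν i := fun S =>
      Finset.one_le_prod' (fun i _ => (hν i).1)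
    have hpN : ∀ S : Finset (Fin k ⊕ Fin k), S.card = k → ∏ i ∈ S, ν i ≤ N ^ k := by
      intro S hS
      have h := Finset.prod_le_pow_card S ν N (fun i _ => (hν i).2)
      rwa [hS] at h
    have hlog : ∀ S : Finset (Fin k ⊕ Fin k), ∑ i ∈ S, Real.log (ν i) =
        Real.log ((∏ i ∈ S, ν i : ℕ) : ℝ) := by
      intro S
      push_cast
      rw [Real.log_prod]
      intro i _
      have := (hν i).1
      have h : (0 : ℝ) < ν i := by exact_mod_cast this
      exact h.ne'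
    have hΛ := log_ratio (hp1 A) (hp1 Aᶜ) (hpN A hc) (hpN Aᶜ hcc) hne
    rw [← hlog, ← hlog] at hΛ
    rw [hc, sub_self, zero_mul, zero_add] at hos
    have hN2 : 2 ≤ N := by
      by_contra hlt
      have hN1' : N = 1 := by omega
      apply hne
      have h1 : ∀ i, ν i = 1 := fun i => by
        have := hν i
        omega
      simp [h1]
    have h2 : 2 * (k : ℝ) * (U / T) ≤ ((N : ℝ) ^ k)⁻¹ / 2 := by
      have h3 : (4 * k : ℝ) ≤ (N : ℝ) ^ (7 * k + 8) := by
        have h4 : (4 * k : ℕ) ≤ 2 ^ (7 * k + 8) := by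
          have h5 : 4 * k < 2 ^ (4 * k) := Nat.lt_two_pow_self
          have h6 : 2 ^ (4 * k) ≤ 2 ^ (7 * k + 8) := Nat.pow_le_pow_right (by norm_num) (by omega)
          omega
        have h7 : (2 : ℝ) ^ (7 * k + 8) ≤ (N : ℝ) ^ (7 * k + 8) :=
          pow_le_pow_left₀ (by norm_num) (by exact_mod_cast hN2) _
        have h8 : ((4 * k : ℕ) : ℝ) ≤ ((2 ^ (7 * k + 8) : ℕ) : ℝ) := by exact_mod_cast h4
        push_cast at h8
        linarith
      have h9 : (N : ℝ) ^ (8 * k + 8) = (N : ℝ) ^ k * (N : ℝ) ^ (7 * k + 8) := by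
        rw [← pow_add]
        congr 1
        ring
      have h10 : 2 * (k : ℝ) * (U / T) ≤ 2 * k * ((N : ℝ) ^ (8 * k + 8))⁻¹ :=
        mul_le_mul_of_nonneg_left hUT (by positivity)
      refine h10.trans ?_
      rw [h9, mul_inv]
      have h11 : 0 < (N : ℝ) ^ (7 * k + 8) := by positivity
      have h12 : 2 * (k : ℝ) * ((N : ℝ) ^ (7 * k + 8))⁻¹ ≤ 1 / 2 := by
        rw [← div_eq_mul_inv, div_le_iff₀ h11]
        linarith
      have h13 : 0 < ((N : ℝ) ^ k)⁻¹ := by positivity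
      nlinarith
    have h14 : (1 : ℝ) / ((N ^ k : ℕ) : ℝ) = ((N : ℝ) ^ k)⁻¹ := by
      push_cast
      rw [one_div]
    rw [h14] at hΛ
    have h15 : |∑ i ∈ A, Real.log (ν i) - ∑ i ∈ Aᶜ, Real.log (ν i)| ≤
        |∑ i, om A ν i (T + γ i)| + |∑ i, om A ν i (T + γ i) -
          (∑ i ∈ A, Real.log (ν i) - ∑ i ∈ Aᶜ, Real.log (ν i))| := by
      have h16 := abs_sub_abs_le_abs_sub (∑ i ∈ A, Real.log (ν i) - ∑ i ∈ Aᶜ, Real.log (ν i))
        (∑ i, om A ν i (T + γ i))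
      have h17 := abs_sub_comm (∑ i ∈ A, Real.log (ν i) - ∑ i ∈ Aᶜ, Real.log (ν i))
        (∑ i, om A ν i (T + γ i))
      rw [h17] at h16
      linarith
    linarith
  · -- different cardinalities
    have hlogT : 8 * (k : ℝ) + 16 ≤ Real.log T := by
      rw [Real.le_log_iff_exp_le hT0]
      exact hT
    have hlogN0 : 0 ≤ Real.log N := Real.log_nonneg hN1
    have hlogN : (8 * (k : ℝ) + 8) * Real.log N ≤ Real.log T := by
      have h1 : (N : ℝ) ^ (8 * k + 8) ≤ T := by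
        have : (N : ℝ) ^ (8 * k + 8) * 1 ≤ (N : ℝ) ^ (8 * k + 8) * U :=
          mul_le_mul_of_nonneg_left hU (by positivity)
        linarith
      have h2 := Real.log_le_log (by positivity) h1
      rw [Real.log_pow] at h2
      push_cast at h2
      exact h2
    have hsum : ∀ S : Finset (Fin k ⊕ Fin k), 0 ≤ ∑ i ∈ S, Real.log (ν i) := fun S =>
      Finset.sum_nonneg (fun i _ => Real.log_nonneg (by exact_mod_cast (hν i).1))
    have htot : ∑ i ∈ A, Real.log (ν i) + ∑ i ∈ Aᶜ, Real.log (ν i) ≤ 2 * k * Real.log N := by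
      rw [Finset.sum_add_sum_compl]
      have h1 : ∀ i ∈ (Finset.univ : Finset (Fin k ⊕ Fin k)), Real.log (ν i) ≤ Real.log N := by
        intro i _
        have h2 := hν i
        have h3 : (0 : ℝ) < ν i := by exact_mod_cast h2.1
        exact Real.log_le_log h3 (by exact_mod_cast h2.2)
      refine (Finset.sum_le_sum h1).trans ?_
      rw [Finset.sum_const, Finset.card_univ, Fintype.card_sum, Fintype.card_fin, nsmul_eq_mul]
      push_cast
      linarith
    have hΛ : |∑ i ∈ A, Real.log (ν i) - ∑ i ∈ Aᶜ, Real.log (ν i)| ≤ 2 * k * Real.log N := by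
      rw [abs_le]
      have h1 := hsum A
      have h2 := hsum Aᶜ
      constructor <;> linarith
    have hL : Real.log T - 2 ≤ Real.log (T / (2 * Real.pi)) := by
      rw [Real.log_div hT0.ne' (by positivity)]
      have h1 : Real.log (2 * Real.pi) ≤ 2 := by
        have h2 : 2 * Real.pi ≤ Real.exp 2 := by
          have h3 : Real.pi < 3.15 := Real.pi_lt_d2
          have h4 : (2.7182818283 : ℝ) < Real.exp 1 := Real.exp_one_gt_d9
          have h5 : Real.exp 2 = Real.exp 1 * Real.exp 1 := by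
            rw [← Real.exp_add]
            norm_num
          rw [h5]
          nlinarith
        have h6 := Real.log_le_log (by positivity) h2
        rw [Real.log_exp] at h6
        exact h6
      linarith
    have hcard : (1 : ℝ) ≤ |(k : ℝ) - A.card| := by
      have h1 : (k : ℤ) - (A.card : ℤ) ≠ 0 := by
        intro h
        apply hc
        omega
      have h2 : (1 : ℤ) ≤ |(k : ℤ) - (A.card : ℤ)| := Int.one_le_abs h1
      have h3 : ((1 : ℤ) : ℝ) ≤ ((|(k : ℤ) - (A.card : ℤ)| : ℤ) : ℝ) := by exact_mod_cast h2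
      push_cast at h3
      exact h3
    obtain ⟨L, hLd⟩ : ∃ L : ℝ, L = Real.log (T / (2 * Real.pi)) := ⟨_, rfl⟩
    rw [← hLd] at hL hos
    have hL0 : 0 ≤ L := by
      have : (0 : ℝ) ≤ k := Nat.cast_nonneg _
      linarith
    have hkL : L ≤ |((k : ℝ) - A.card) * L| := by
      rw [abs_mul, abs_of_nonneg hL0]
      nlinarith
    have hU1 : U / T ≤ 1 := by
      refine hUT.trans (inv_le_one_of_one_le₀ (one_le_pow₀ hN1))
    have hk0 : (0 : ℝ) ≤ k := Nat.cast_nonneg _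
    have h20 : 2 * (k : ℝ) * (U / T) ≤ 2 * k := by nlinarith
    have h21 : |((k : ℝ) - A.card) * L| ≤ |∑ i, om A ν i (T + γ i)| +
        |∑ i ∈ A, Real.log (ν i) - ∑ i ∈ Aᶜ, Real.log (ν i)| +
        |∑ i, om A ν i (T + γ i) - (((k : ℝ) - A.card) * L +
          (∑ i ∈ A, Real.log (ν i) - ∑ i ∈ Aᶜ, Real.log (ν i)))| := by
      have e : ((k : ℝ) - A.card) * L = ∑ i, om A ν i (T + γ i) +
          (-(∑ i ∈ A, Real.log (ν i) - ∑ i ∈ Aᶜ, Real.log (ν i))) +
          (-(∑ i, om A ν i (T + γ i) - (((k : ℝ) - A.card) * L +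
          (∑ i ∈ A, Real.log (ν i) - ∑ i ∈ Aᶜ, Real.log (ν i))))) := by ring
      calc |((k : ℝ) - A.card) * L| = _ := congrArg _ e
        _ ≤ _ := (abs_add_le _ _).trans (add_le_add (abs_add_le _ _) le_rfl)
        _ = _ := by rw [abs_neg, abs_neg]
    have h22 : 2 * (k : ℝ) * Real.log N ≤ Real.log T / 4 := by nlinarith
    linarith

theorem rpow_small {T H : ℝ} (hT : 1 ≤ T) (h1 : 1 ≤ H) (hH : H ≤ T ^ (1 / 16 : ℝ)) :
    H * (H + H ^ 2) ≤ 2 * T ∧ H ≤ T := by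
  have hT0 : 0 < T := by linarith
  have h2 : H ^ 3 ≤ T := by
    have h3 : H ^ 3 ≤ (T ^ (1 / 16 : ℝ)) ^ 3 := pow_le_pow_left₀ (by linarith) hH 3
    rw [← Real.rpow_natCast (T ^ (1 / 16 : ℝ)) 3, ← Real.rpow_mul hT0.le] at h3
    have h4 : T ^ ((1 / 16 : ℝ) * ((3 : ℕ) : ℝ)) ≤ T ^ (1 : ℝ) :=
      Real.rpow_le_rpow_of_exponent_le hT (by norm_num)
    rw [Real.rpow_one] at h4
    linarith
  have h5 : H ^ 2 ≤ H ^ 3 := pow_le_pow_right₀ h1 (by norm_num)
  have h6 : H ≤ H ^ 2 := by nlinarith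
  constructor
  · nlinarith
  · linarith

theorem main (hXL : S_XL) : S_EXM := by
  obtain ⟨hXcont, hXnorm, C, hC, hlin⟩ := hXL
  intro k
  refine ⟨4 + 4 * k * C, 100 + Real.exp (8 * k + 16), 8 * k + 8, by positivity,
    by linarith [Real.exp_pos (8 * (k : ℝ) + 16)], ?_⟩
  intro T H U N γ A ν hT hH1 hH hU hN hNU hγ hν hA
  have hT100 : 100 ≤ T := by linarith [Real.exp_pos (8 * (k : ℝ) + 16)]
  have hTe : Real.exp (8 * k + 16) ≤ T := by linarith
  have hT0 : 0 < T := by linarith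
  have hν' : ∀ i, 1 ≤ ν i ∧ ν i ≤ N := by
    intro i
    have h := (Fintype.mem_piFinset.mp hν) i
    exact Finset.mem_Icc.mp h
  obtain ⟨hHT2, hHT⟩ := rpow_small (by linarith) hH1 hH
  obtain ⟨ω, hω⟩ : ∃ ω : ℝ, ω = ∑ i, om A ν i (T + γ i) := ⟨_, rfl⟩
  have hfreq := freq A ν T U N γ hTe hU hN hNU hγ hν' hA
  rw [← hω] at hfreq
  have hN1 : (1 : ℝ) ≤ N := by exact_mod_cast hN
  have hNk : (0 : ℝ) < (N : ℝ) ^ k := by positivity
  have hω0 : 0 < |ω| := lt_of_lt_of_le (by positivity) hfreq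
  -- the integrand
  have hint : ∀ t : ℝ, XA A γ t * chA A ν (fun i => t + γ i) = ∏ i, fac A ν i (t + γ i) := by
    intro t
    unfold XA chA fac
    rw [← Finset.prod_mul_distrib]
  have hshift : ∫ t in T..(T + H), XA A γ t * chA A ν (fun i => t + γ i) =
      ∫ s in (0 : ℝ)..H, ∏ i, fac A ν i (T + γ i + s) := by
    have h1 := intervalIntegral.integral_comp_add_left (a := (0 : ℝ)) (b := H)
      (fun t => XA A γ t * chA A ν (fun i => t + γ i)) T
    rw [add_zero] at h1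
    rw [← h1]
    congr 1
    funext s
    rw [hint]
    refine Finset.prod_congr rfl (fun i _ => ?_)
    congr 1
    ring
  rw [hshift]
  obtain ⟨c, hc⟩ : ∃ c : ℂ, c = ∏ i, fac A ν i (T + γ i) := ⟨_, rfl⟩
  have hcn : ‖c‖ = 1 := by
    rw [hc, norm_prod]
    exact Finset.prod_eq_one (fun i _ => fac_norm hXnorm A ν i (hν' i).1 _)
  have hprod : ∀ s : ℝ, ∏ i, (fac A ν i (T + γ i) * cexp (-(I * ((s * om A ν i (T + γ i) : ℝ) : ℂ)))) =
      c * cexp (-(I * ((s * ω : ℝ) : ℂ))) := by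
    intro s
    rw [Finset.prod_mul_distrib, ← hc, ← Complex.exp_sum]
    congr 2
    rw [hω, Finset.sum_neg_distrib, ← Finset.mul_sum]
    congr 2
    push_cast
    rw [Finset.mul_sum]
  have hdiff : ∀ s : ℝ, 0 ≤ s → s ≤ H →
      ‖∏ i, fac A ν i (T + γ i + s) - c * cexp (-(I * ((s * ω : ℝ) : ℂ)))‖ ≤
        2 * k * (C * (H + H ^ 2) / T) := by
    intro s hs hsH
    rw [← hprod]
    have h1 := prod_sub_le (Finset.univ : Finset (Fin k ⊕ Fin k))
      (fun i => fac A ν i (T + γ i + s))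
      (fun i => fac A ν i (T + γ i) * cexp (-(I * ((s * om A ν i (T + γ i) : ℝ) : ℂ))))
      (C * (H + H ^ 2) / T) (fun i _ => (fac_norm hXnorm A ν i (hν' i).1 _).le)
      (fun i _ => by
        rw [norm_mul, fac_norm hXnorm A ν i (hν' i).1 _, norm_ex, one_mul])
      (fun i _ => by
        have hγi := hγ i
        have hV : 0 < T + γ i := by linarith [hγi.1]
        have h2 := fac_lin C hC (T + γ i) s hV hs
          (hlin (T + γ i) s (by linarith [hγi.1]) hs (by linarith [hγi.1])) A ν i (hν' i).1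
        refine h2.trans ?_
        have h3 : s + s ^ 2 ≤ H + H ^ 2 := by nlinarith
        have h4 : C * (s + s ^ 2) ≤ C * (H + H ^ 2) := mul_le_mul_of_nonneg_left h3 hC.le
        have h5 : 0 ≤ C * (H + H ^ 2) := by positivity
        calc C * (s + s ^ 2) / (T + γ i) ≤ C * (H + H ^ 2) / (T + γ i) :=
              div_le_div_of_nonneg_right h4 hV.le
          _ ≤ C * (H + H ^ 2) / T := div_le_div_of_nonneg_left h5 hT0 (by linarith [hγi.1]))
    rw [Finset.card_univ, Fintype.card_sum, Fintype.card_fin] at h1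
    have e : ((k + k : ℕ) : ℝ) * (C * (H + H ^ 2) / T) = 2 * k * (C * (H + H ^ 2) / T) := by
      push_cast
      ring
    rw [e] at h1
    exact h1
  have hfcont : Continuous fun s : ℝ => ∏ i, fac A ν i (T + γ i + s) := by
    refine continuous_finsetProd _ (fun i _ => ?_)
    unfold fac
    have hx : Continuous fun s : ℝ => Xc (T + γ i + s) := hXcont.comp (by fun_prop)
    have hν1 := (hν' i).1
    have he1 : (fun s : ℝ => (ν i : ℂ) ^ (-(I * ((T + γ i + s : ℝ) : ℂ)))) =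
        fun s : ℝ => en (ν i) (T + γ i + s) := by
      funext s
      exact cpow_neg_eq hν1 _
    have he2 : (fun s : ℝ => (ν i : ℂ) ^ (I * ((T + γ i + s : ℝ) : ℂ))) =
        fun s : ℝ => en (ν i) (-(T + γ i + s)) := by
      funext s
      exact cpow_eq hν1 _
    have hc1 : Continuous fun s : ℝ => (ν i : ℂ) ^ (-(I * ((T + γ i + s : ℝ) : ℂ))) := by
      rw [he1]
      unfold en
      fun_prop
    have hc2 : Continuous fun s : ℝ => (ν i : ℂ) ^ (I * ((T + γ i + s : ℝ) : ℂ)) := by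
      rw [he2]
      unfold en
      fun_prop
    have hx' : Continuous fun s : ℝ => conj (Xc (T + γ i + s)) := Complex.continuous_conj.comp hx
    split_ifs
    · exact hx'.mul hc1
    · exact continuous_const.mul hc1
    · exact hx.mul hc2
    · exact continuous_const.mul hc2
  have hgcont : Continuous fun s : ℝ => c * cexp (-(I * ((s * ω : ℝ) : ℂ))) := by fun_prop
  have hsplit : ∫ s in (0 : ℝ)..H, ∏ i, fac A ν i (T + γ i + s) =
      (∫ s in (0 : ℝ)..H, (∏ i, fac A ν i (T + γ i + s) - c * cexp (-(I * ((s * ω : ℝ) : ℂ))))) +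
        ∫ s in (0 : ℝ)..H, c * cexp (-(I * ((s * ω : ℝ) : ℂ))) := by
    have hdc : Continuous fun s : ℝ => ∏ i, fac A ν i (T + γ i + s) -
        c * cexp (-(I * ((s * ω : ℝ) : ℂ))) := hfcont.sub hgcont
    rw [← intervalIntegral.integral_add (hdc.intervalIntegrable _ _)
      (hgcont.intervalIntegrable _ _)]
    congr 1
    funext s
    ring
  rw [hsplit]
  have hI1 : ‖∫ s in (0 : ℝ)..H, (∏ i, fac A ν i (T + γ i + s) -
      c * cexp (-(I * ((s * ω : ℝ) : ℂ))))‖ ≤ 2 * k * (C * (H + H ^ 2) / T) * |H - 0| := by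
    refine intervalIntegral.norm_integral_le_of_norm_le_const (fun s hs => ?_)
    rw [uIoc_of_le (by linarith)] at hs
    exact hdiff s hs.1.le hs.2
  have hI2 : ‖∫ s in (0 : ℝ)..H, c * cexp (-(I * ((s * ω : ℝ) : ℂ)))‖ ≤ 2 / |ω| := by
    rw [intervalIntegral.integral_const_mul, norm_mul, hcn, one_mul]
    exact exp_int ω H (abs_pos.mp hω0)
  have hI3 : 2 / |ω| ≤ 4 * (N : ℝ) ^ k := by
    rw [div_le_iff₀ hω0]
    have h1 : 4 * (N : ℝ) ^ k * (((N : ℝ) ^ k)⁻¹ / 2) = 2 := by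
      field_simp
      norm_num
    have h2 : 4 * (N : ℝ) ^ k * (((N : ℝ) ^ k)⁻¹ / 2) ≤ 4 * (N : ℝ) ^ k * |ω| :=
      mul_le_mul_of_nonneg_left hfreq (by positivity)
    linarith
  have hI4 : 2 * (k : ℝ) * (C * (H + H ^ 2) / T) * |H - 0| ≤ 4 * k * C := by
    rw [sub_zero, abs_of_pos (by linarith)]
    have h1 : 2 * (k : ℝ) * (C * (H + H ^ 2) / T) * H = 2 * k * C * ((H * (H + H ^ 2)) / T) := by
      ring
    rw [h1]
    have h2 : (H * (H + H ^ 2)) / T ≤ 2 := by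
      rw [div_le_iff₀ hT0]
      exact hHT2
    have h3 : 2 * (k : ℝ) * C * ((H * (H + H ^ 2)) / T) ≤ 2 * k * C * 2 :=
      mul_le_mul_of_nonneg_left h2 (by positivity)
    linarith
  have hNκ : (N : ℝ) ^ k ≤ (N : ℝ) ^ (8 * k + 8) := pow_le_pow_right₀ hN1 (by omega)
  have hNκ1 : (1 : ℝ) ≤ (N : ℝ) ^ (8 * k + 8) := one_le_pow₀ hN1
  have hkC : 0 ≤ 4 * (k : ℝ) * C := by positivity
  calc _ ≤ 2 * (k : ℝ) * (C * (H + H ^ 2) / T) * |H - 0| + 2 / |ω| :=
        (norm_add_le _ _).trans (add_le_add hI1 hI2)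
    _ ≤ 4 * k * C + 4 * (N : ℝ) ^ k := add_le_add hI4 hI3
    _ ≤ (4 + 4 * k * C) * (N : ℝ) ^ (8 * k + 8) := by nlinarith

end

end EXM

end Pool.Agent.H27.SW
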