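import Pool.Agent.H27.SW.Stm
import Pool.Agent.H27.G.R_seed8.TH509.GS.DIAG

set_option autoImplicit false

/-! Project SW (helper27), part EXB (helper44): the integral of one product. -/

namespace Pool.Agent.H27.SW

open Complex Filter Topology MeasureTheory Set
open Pool.Agent.TH612.CF
open Pool.Agent.TH612.GS
open Pool.Agent.N879.PU (fs)

noncomputable section

variable {k : ℕ}

lemma exb_split {n : ℕ} (hn : 1 ≤ n) (u : ℝ) :
    (n : ℂ) ^ (-(1 / 2 + I * (u : ℂ))) =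
      (((n : ℝ) ^ (-(1 / 2 : ℝ)) : ℝ) : ℂ) * (n : ℂ) ^ (-(I * (u : ℂ))) := by
  rw [Pool.Agent.TH509.GS.rpow_exp hn, Pool.Agent.TH509.GS.cpow_exp hn,
    Pool.Agent.TH509.GS.cpow_exp hn, ← Complex.exp_add]
  congr 1
  ring

lemma exb_splitc {n : ℕ} (hn : 1 ≤ n) (u : ℝ) :
    (starRingEnd ℂ) ((n : ℂ) ^ (-(1 / 2 + I * (u : ℂ)))) =
      (((n : ℝ) ^ (-(1 / 2 : ℝ)) : ℝ) : ℂ) * (n : ℂ) ^ (I * (u : ℂ)) := by
  rw [Pool.Agent.TH509.GS.rpow_exp hn, Pool.Agent.TH509.GS.cpow_exp hn,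
    Pool.Agent.TH509.GS.cpow_exp hn, ← Complex.exp_add, ← Complex.exp_conj]
  congr 1
  simp only [map_mul, map_neg, map_add, map_div₀, map_one, map_ofNat, Complex.conj_ofReal,
    Complex.conj_I]
  ring

lemma wt_eq (ν : Fin k ⊕ Fin k → ℕ) :
    (wt ν : ℂ) = ∏ i, (((ν i : ℝ) ^ (-(1 / 2 : ℝ)) : ℝ) : ℂ) := by
  unfold wt
  rw [← Real.finset_prod_rpow _ _ fun i _ => Nat.cast_nonneg (ν i)]
  push_cast
  rfl

lemma tup_pos {N : ℕ} {ν : Fin k ⊕ Fin k → ℕ} (hν : ν ∈ tup k N) (i : Fin k ⊕ Fin k) : 1 ≤ ν i :=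
  (Finset.mem_Icc.1 (Fintype.mem_piFinset.1 hν i)).1

/-- the product of the polynomials is a sum of monomials -/
lemma PA_eq (N : ℕ) (A : Finset (Fin k ⊕ Fin k)) (γ : Fin k ⊕ Fin k → ℝ) (t : ℝ) :
    PA N A γ t = ∑ ν ∈ tup k N, (wt ν : ℂ) * chA A ν (fun i => t + γ i) := by
  have h1 : PA N A γ t = ∏ i : Fin k ⊕ Fin k, ∑ n ∈ Finset.Icc 1 N,
      (if i ∈ A then (n : ℂ) ^ (-(1 / 2 + I * ((t + γ i : ℝ) : ℂ))) else
        (starRingEnd ℂ) ((n : ℂ) ^ (-(1 / 2 + I * ((t + γ i : ℝ) : ℂ))))) := by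
    unfold PA
    refine Finset.prod_congr rfl fun i _ => ?_
    by_cases hi : i ∈ A
    · simp only [if_pos hi]
      rfl
    · simp only [if_neg hi]
      unfold PN zN
      rw [map_sum]
  rw [h1, Finset.prod_univ_sum]
  refine Finset.sum_congr rfl fun ν hν => ?_
  rw [wt_eq]
  unfold chA
  rw [← Finset.prod_mul_distrib]
  refine Finset.prod_congr rfl fun i _ => ?_
  by_cases hi : i ∈ A
  · simp only [if_pos hi]
    exact exb_split (tup_pos hν i) _
  · simp only [if_neg hi]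
    exact exb_splitc (tup_pos hν i) _

/-- the frequency -/
def thA (A : Finset (Fin k ⊕ Fin k)) (ν : Fin k ⊕ Fin k → ℕ) : ℝ :=
  ∑ i, if i ∈ A then -Real.log (ν i) else Real.log (ν i)

lemma chA_shift {A : Finset (Fin k ⊕ Fin k)} {ν : Fin k ⊕ Fin k → ℕ} (hν : ∀ i, 1 ≤ ν i)
    (γ : Fin k ⊕ Fin k → ℝ) (t : ℝ) :
    chA A ν (fun i => t + γ i) = cexp (I * t * (thA A ν : ℝ)) * chA A ν γ := by
  have h1 : cexp (I * t * (thA A ν : ℝ)) =
      ∏ i, cexp (I * t * ((if i ∈ A then -Real.log (ν i) else Real.log (ν i) : ℝ) : ℂ)) := by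
    rw [← Complex.exp_sum]
    congr 1
    unfold thA
    rw [Complex.ofReal_sum, Finset.mul_sum]
  rw [h1]
  unfold chA
  rw [← Finset.prod_mul_distrib]
  refine Finset.prod_congr rfl fun i _ => ?_
  by_cases hi : i ∈ A
  · simp only [if_pos hi]
    rw [Pool.Agent.TH509.GS.cpow_exp (hν i), Pool.Agent.TH509.GS.cpow_exp (hν i), ← Complex.exp_add]
    congr 1
    push_cast
    ring
  · simp only [if_neg hi]
    rw [Pool.Agent.TH509.GS.cpow_exp (hν i), Pool.Agent.TH509.GS.cpow_exp (hν i), ← Complex.exp_add]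
    congr 1
    push_cast
    ring

lemma thA_diag {A : Finset (Fin k ⊕ Fin k)} {ν : Fin k ⊕ Fin k → ℕ} (hν : ∀ i, 1 ≤ ν i)
    (h : ∏ i ∈ A, ν i = ∏ i ∈ Aᶜ, ν i) : thA A ν = 0 := by
  unfold thA
  rw [← Finset.sum_add_sum_compl A]
  have e1 : ∑ i ∈ A, (if i ∈ A then -Real.log (ν i) else Real.log (ν i)) =
      -Real.log ((∏ i ∈ A, ν i : ℕ) : ℝ) := by
    rw [Nat.cast_prod, Real.log_prod, ← Finset.sum_neg_distrib]
    · exact Finset.sum_congr rfl fun i hi => if_pos hi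
    · intro i _
      have := hν i
      have h2 : ν i ≠ 0 := by omega
      exact_mod_cast h2
  have e2 : ∑ i ∈ Aᶜ, (if i ∈ A then -Real.log (ν i) else Real.log (ν i)) =
      Real.log ((∏ i ∈ Aᶜ, ν i : ℕ) : ℝ) := by
    rw [Nat.cast_prod, Real.log_prod]
    · exact Finset.sum_congr rfl fun i hi => if_neg (Finset.mem_compl.1 hi)
    · intro i _
      have := hν i
      have h2 : ν i ≠ 0 := by omega
      exact_mod_cast h2
  rw [e1, e2, h]
  ring

lemma XA_cont (hX : Continuous Xc) (A : Finset (Fin k ⊕ Fin k)) (γ : Fin k ⊕ Fin k → ℝ) :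
    Continuous (XA A γ) := by
  unfold XA
  refine continuous_finset_prod _ fun i _ => ?_
  have hX' : Continuous fun t : ℝ => Xc (t + γ i) := hX.comp (by fun_prop)
  by_cases hi : i ∈ A
  · simp only [if_pos hi]
    by_cases h2 : i.isRight = true
    · simp only [if_pos h2]
      exact Complex.continuous_conj.comp hX'
    · simp only [if_neg h2]
      exact continuous_const
  · simp only [if_neg hi]
    by_cases h2 : i.isLeft = true
    · simp only [if_pos h2]
      exact hX'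
    · simp only [if_neg h2]
      exact continuous_const

lemma chA_cont {A : Finset (Fin k ⊕ Fin k)} {ν : Fin k ⊕ Fin k → ℕ} (hν : ∀ i, 1 ≤ ν i)
    (γ : Fin k ⊕ Fin k → ℝ) : Continuous fun t : ℝ => chA A ν (fun i => t + γ i) := by
  have e : (fun t : ℝ => chA A ν (fun i => t + γ i)) =
      fun t : ℝ => cexp (I * t * (thA A ν : ℝ)) * chA A ν γ := by
    funext t
    exact chA_shift hν γ t
  rw [e]
  fun_prop

/-- the integral of one product, as a sum over the monomials -/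
lemma int_PA (hX : Continuous Xc) (N : ℕ) (A : Finset (Fin k ⊕ Fin k)) (γ : Fin k ⊕ Fin k → ℝ) (a b : ℝ) :
    (∫ t in a..b, XA A γ t * PA N A γ t) =
      ∑ ν ∈ tup k N, (wt ν : ℂ) * ∫ t in a..b, XA A γ t * chA A ν (fun i => t + γ i) := by
  have e : ∀ t, XA A γ t * PA N A γ t =
      ∑ ν ∈ tup k N, (wt ν : ℂ) * (XA A γ t * chA A ν (fun i => t + γ i)) := by
    intro t
    rw [PA_eq, Finset.mul_sum]
    refine Finset.sum_congr rfl fun ν _ => ?_
    ring
  simp_rw [e]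
  rw [intervalIntegral.integral_finsetSum]
  · refine Finset.sum_congr rfl fun ν _ => ?_
    exact intervalIntegral.integral_const_mul _ _
  · intro ν hν
    apply Continuous.intervalIntegrable
    exact continuous_const.mul ((XA_cont hX A γ).mul (chA_cont (tup_pos hν) γ))

lemma tup_card (N : ℕ) : (tup k N).card = N ^ (2 * k) := by
  unfold tup
  rw [Fintype.card_piFinset]
  simp [two_mul]

theorem exb (hM : S_EXM) (hX : Continuous Xc) : S_EXB := by
  intro k
  obtain ⟨C, T₀, κ, hC, hT₀, h⟩ := hM k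
  refine ⟨C, T₀, κ + 2 * k, hC, hT₀, fun T H U N γ A hT hH hHT hU hN hNU hγ => ?_⟩
  have hN1 : (1 : ℝ) ≤ N := by exact_mod_cast hN
  have hNU' : (N : ℝ) ^ κ * U ≤ T := by
    refine le_trans ?_ hNU
    have : (N : ℝ) ^ κ ≤ (N : ℝ) ^ (κ + 2 * k) := pow_le_pow_right₀ hN1 (by omega)
    exact mul_le_mul_of_nonneg_right this (by linarith)
  rw [int_PA hX]
  have e2 : (if A.card = k then (∫ t in T..(T + H), XA A γ t) * DA N A γ else 0) =
      ∑ ν ∈ tup k N, if A.card = k ∧ ∏ i ∈ A, ν i = ∏ i ∈ Aᶜ, ν i then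
        (wt ν : ℂ) * ((∫ t in T..(T + H), XA A γ t) * chA A ν γ) else 0 := by
    by_cases hA : A.card = k
    · rw [if_pos hA]
      unfold DA
      rw [Finset.mul_sum]
      refine Finset.sum_congr rfl fun ν _ => ?_
      by_cases hd : ∏ i ∈ A, ν i = ∏ i ∈ Aᶜ, ν i
      · rw [if_pos hd, if_pos ⟨hA, hd⟩]
        ring
      · rw [if_neg hd, if_neg (fun h => hd h.2), mul_zero]
    · rw [if_neg hA]
      symm
      refine Finset.sum_eq_zero fun ν _ => ?_
      rw [if_neg (fun h => hA h.1)]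
  rw [e2, ← Finset.sum_sub_distrib]
  have hterm : ∀ ν ∈ tup k N, ‖(wt ν : ℂ) * (∫ t in T..(T + H), XA A γ t * chA A ν (fun i => t + γ i)) -
      (if A.card = k ∧ ∏ i ∈ A, ν i = ∏ i ∈ Aᶜ, ν i then
        (wt ν : ℂ) * ((∫ t in T..(T + H), XA A γ t) * chA A ν γ) else 0)‖ ≤ C * (N : ℝ) ^ κ := by
    intro ν hν
    by_cases hd : A.card = k ∧ ∏ i ∈ A, ν i = ∏ i ∈ Aᶜ, ν i
    · rw [if_pos hd]
      have e3 : ∀ t, chA A ν (fun i => t + γ i) = chA A ν γ := by
        intro t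
        rw [chA_shift (tup_pos hν), thA_diag (tup_pos hν) hd.2]
        simp
      simp_rw [e3]
      rw [intervalIntegral.integral_mul_const, sub_self, norm_zero]
      positivity
    · rw [if_neg hd, sub_zero, norm_mul, Complex.norm_real,
        Real.norm_of_nonneg (Pool.Agent.TH509.GS.wt_bd (tup_pos hν)).1]
      have h1 := h T H U N γ A ν hT hH hHT hU hN hNU' hγ hν hd
      calc wt ν * ‖∫ t in T..(T + H), XA A γ t * chA A ν (fun i => t + γ i)‖
          ≤ 1 * (C * (N : ℝ) ^ κ) := by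
            apply mul_le_mul (Pool.Agent.TH509.GS.wt_bd (tup_pos hν)).2 h1 (norm_nonneg _) zero_le_one
        _ = _ := one_mul _
  refine (norm_sum_le_of_le _ hterm).trans ?_
  rw [Finset.sum_const, nsmul_eq_mul, tup_card]
  push_cast
  rw [pow_add]
  apply le_of_eq
  ring

theorem EXB.main (hX : S_XL) (hM : S_EXM) : S_EXB := exb hM hX.1

end

end Pool.Agent.H27.SW
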