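import Pool.Agent.H27.SW.EXA
import Pool.Agent.H27.SW.EXB

set_option autoImplicit false

/-! Project SW (helper27), part EXP (helper44): the product of the models. -/

namespace Pool.Agent.H27.SW

open Complex Filter Topology MeasureTheory Set
open Pool.Agent.TH612.CF
open Pool.Agent.TH612.GS
open Pool.Agent.N879.PU (fs)

noncomputable section

variable {k : ℕ}

lemma PN_cont' (N : ℕ) : Continuous (PN N) := by
  unfold PN zN
  refine continuous_finset_sum _ fun n hn => ?_
  have hn1 : 1 ≤ n := (Finset.mem_Icc.1 hn).1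
  have e : (fun u : ℝ => (n : ℂ) ^ (-(1 / 2 + I * (u : ℂ)))) =
      fun u : ℝ => cexp ((Real.log n : ℝ) * (-(1 / 2 + I * (u : ℂ)))) := by
    funext u
    exact Pool.Agent.TH509.GS.cpow_exp hn1 _
  rw [e]
  fun_prop

lemma PA_cont (N : ℕ) (A : Finset (Fin k ⊕ Fin k)) (γ : Fin k ⊕ Fin k → ℝ) :
    Continuous (PA N A γ) := by
  unfold PA
  refine continuous_finset_prod _ fun i _ => ?_
  have h : Continuous fun t : ℝ => PN N (t + γ i) := (PN_cont' N).comp (by fun_prop)
  by_cases hi : i ∈ A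
  · simp only [if_pos hi]
    exact h
  · simp only [if_neg hi]
    exact Complex.continuous_conj.comp h

theorem EXP.main (hA : S_EXA) (hB : S_EXB) (hC : S_EXC) (hX : S_XL) : S_EXP := by
  intro k
  obtain ⟨C, T₀, κ, hC0, hT₀, h⟩ := hB k
  refine ⟨(2 : ℝ) ^ (2 * k) * C, T₀, κ, by positivity, hT₀, fun T H U N γ hT hH hHT hU hN hNU hγ => ?_⟩
  have hk : ((Nat.factorial k : ℂ) ^ 2) ≠ 0 := by
    have := Nat.factorial_ne_zero k
    have h2 : (Nat.factorial k : ℂ) ≠ 0 := by exact_mod_cast this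
    exact pow_ne_zero 2 h2
  rw [hC k N T H γ, ← mul_assoc, inv_mul_cancel₀ hk, one_mul]
  have e1 : (∫ t in T..(T + H), ∏ i, fs (GN N) i (t + γ i)) =
      ∑ A : Finset (Fin k ⊕ Fin k), ∫ t in T..(T + H), XA A γ t * PA N A γ t := by
    simp_rw [hA k N γ]
    rw [intervalIntegral.integral_finsetSum]
    intro A _
    apply Continuous.intervalIntegrable
    exact (XA_cont hX.1 A γ).mul (PA_cont N A γ)
  rw [e1, ← Finset.sum_sub_distrib]
  refine (norm_sum_le_of_le _ fun A _ => h T H U N γ A hT hH hHT hU hN hNU hγ).trans ?_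
  rw [Finset.sum_const, nsmul_eq_mul]
  have hcard : (Finset.univ : Finset (Finset (Fin k ⊕ Fin k))).card = 2 ^ (2 * k) := by
    rw [Finset.card_univ, Fintype.card_finset]
    simp [two_mul]
  rw [hcard]
  push_cast
  apply le_of_eq
  ring

end

end Pool.Agent.H27.SW
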