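import Pool.Agent.H27.SW.Stm

set_option autoImplicit false

/-! Project SW (helper27), OPL: from windows to all `U` (helper96). -/

namespace Pool.Agent.H27.SW.OPL

open Complex Filter Topology MeasureTheory Set
open Pool.Agent.TH612.CF
open Pool.Agent.TH612.GS
open Pool.Agent.N879.PZ (Wb)

noncomputable section

lemma two_rpow {e : ℝ} (he : e ≤ 3 / 5) : (2 : ℝ) ^ e ≤ 8 / 5 := by
  have h1 : (2 : ℝ) ^ e ≤ (2 : ℝ) ^ (3 / 5 : ℝ) :=
    Real.rpow_le_rpow_of_exponent_le (by norm_num) he
  have h2 : ((2 : ℝ) ^ (3 / 5 : ℝ)) ^ 5 = 8 := by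
    rw [← Real.rpow_natCast, ← Real.rpow_mul (by norm_num)]
    norm_num
  have h3 : ((2 : ℝ) ^ (3 / 5 : ℝ)) ^ 5 ≤ (8 / 5 : ℝ) ^ 5 := by
    rw [h2]
    norm_num
  have h4 : (2 : ℝ) ^ (3 / 5 : ℝ) ≤ 8 / 5 :=
    le_of_pow_le_pow_left₀ (by norm_num) (by norm_num) h3
  exact h1.trans h4

theorem main (hOW : S_OW) : S_OPL := by
  intro ε hε hε4
  obtain ⟨C, T₀, hC, hT₀, h⟩ := hOW (ε / 25) (by positivity) (by linarith)
  refine ⟨4 * C, max T₀ ((8 : ℝ) ^ (25 / (22 * ε))), by positivity, hT₀.trans (le_max_left _ _), ?_⟩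
  intro T H U N F hT hH hHT hU hUT hN hNT hF
  have hTT₀ : T₀ ≤ T := (le_max_left _ _).trans hT
  have hT8 : (8 : ℝ) ^ (25 / (22 * ε)) ≤ T := (le_max_right _ _).trans hT
  have hT3 : 3 ≤ T := hT₀.trans hTT₀
  have hT0 : 0 < T := by linarith
  set e : ℝ := 1 / 2 + 3 * (ε / 25) with he
  have he0 : 0 < e := by positivity
  have he35 : e ≤ 3 / 5 := by linarith
  have hTe : 0 < T ^ e := Real.rpow_pos_of_pos hT0 _
  have h8 : 8 ≤ T ^ (22 * ε / 25) := by
    have h1 : ((8 : ℝ) ^ (25 / (22 * ε))) ^ (22 * ε / 25) ≤ T ^ (22 * ε / 25) :=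
      Real.rpow_le_rpow (by positivity) hT8 (by positivity)
    rw [← Real.rpow_mul (by norm_num)] at h1
    have h2 : 25 / (22 * ε) * (22 * ε / 25) = 1 := by
      field_simp
    rwa [h2, Real.rpow_one] at h1
  have hBU : 8 * T ^ e ≤ U := by
    refine le_trans ?_ hU
    have h1 : T ^ (1 / 2 + ε) = T ^ (22 * ε / 25) * T ^ e := by
      rw [← Real.rpow_add hT0, he]
      congr 1
      ring
    rw [h1]
    gcongr
  have hU0 : 0 < U := by linarith
  set B0 : ℝ := 2 * T ^ e with hB0
  have hB00 : 0 < B0 := by positivity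
  set n : ℕ := ⌈U / B0⌉₊ with hn
  have hn1 : U / B0 ≤ n := Nat.le_ceil _
  have hn2 : (n : ℝ) < U / B0 + 1 := Nat.ceil_lt_add_one (by positivity)
  have hn0 : (0 : ℝ) < n := lt_of_lt_of_le (by positivity) hn1
  set B : ℝ := U / n with hB
  have hB1 : B ≤ B0 := by
    rw [hB, div_le_iff₀ hn0]
    rw [div_le_iff₀ hB00] at hn1
    linarith
  have hB2 : 8 / 5 * T ^ e ≤ B := by
    rw [hB, le_div_iff₀ hn0]
    have h1 : (n : ℝ) * B0 < U + B0 := by
      have := mul_lt_mul_of_pos_right hn2 hB00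
      rw [add_mul, div_mul_cancel₀ _ hB00.ne'] at this
      linarith
    have h2 : 8 / 5 * T ^ e * n = 4 / 5 * (n * B0) := by rw [hB0]; ring
    rw [h2]
    have h3 : B0 ≤ U / 4 := by rw [hB0]; linarith
    linarith
  have hBpos : 0 < B := by positivity
  have hnB : (n : ℝ) * B = U := by
    rw [hB]
    field_simp
  have hH0 : 0 ≤ H / N := by positivity
  have hab : T ≤ T + H := by linarith
  have hP0 : 0 ≤ ∫ t in T..(T + H), ‖F t‖ ^ 2 :=
    intervalIntegral.integral_nonneg hab fun t _ => by positivity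
  set P := ∫ t in T..(T + H), ‖F t‖ ^ 2 with hPd
  have hL : 1 ≤ Real.log T := by
    rw [Real.le_log_iff_exp_le hT0]
    have := Real.exp_one_lt_d9
    linarith
  set L := Real.log T with hLd
  set G : ℝ → ℝ := fun c => ‖∫ t in T..(T + H), F t * (z (t + c) - GN N (t + c))‖ ^ 2 with hG
  by_cases hint : IntervalIntegrable G volume 0 U
  swap
  · have h1 : ∫ c in (0 : ℝ)..U, G c = 0 := intervalIntegral.integral_undef hint
    rw [h1]
    positivity
  -- one window
  have hwin : ∀ j : ℕ, j < n → ∫ c in (j * B)..((j + 1 : ℕ) * B), G c ≤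
      4 * C * L ^ 2 * (B * (1 + H / N)) * P := by
    intro j hj
    have hjn : (j : ℝ) + 1 ≤ n := by exact_mod_cast hj
    have hjB0 : 0 ≤ (j : ℝ) * B := by positivity
    have hjB : (j : ℝ) * B ≤ T := by
      have h1 : ((j : ℝ) + 1) * B ≤ n * B := by gcongr
      rw [hnB] at h1
      nlinarith
    set Tj := T + j * B with hTj
    have hTj1 : T ≤ Tj := by linarith
    have hTj2 : Tj ≤ 2 * T := by linarith
    have hTj0 : 0 < Tj := by linarith
    have hwb : Wb Tj (Tj + H) (fun s => F (s - j * B)) := by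
      obtain ⟨hm, M, hM⟩ := hF
      refine ⟨hm.comp (measurable_id.sub_const _), M, fun t ht => hM _ ?_⟩
      rw [hTj] at ht
      exact ⟨by linarith [ht.1], by linarith [ht.2]⟩
    have h1 := h Tj H B N (fun s => F (s - j * B)) (hTT₀.trans hTj1) hH
      (hHT.trans (Real.rpow_le_rpow hT0.le hTj1 (by norm_num)))
      (by
        calc Tj ^ e ≤ (2 * T) ^ e := Real.rpow_le_rpow hTj0.le hTj2 he0.le
          _ = (2 : ℝ) ^ e * T ^ e := Real.mul_rpow (by norm_num) hT0.le
          _ ≤ 8 / 5 * T ^ e := by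
              have := two_rpow he35
              gcongr
          _ ≤ B := hB2)
      (hB1.trans (by
        rw [hB0]
        have := Real.rpow_le_rpow hT0.le hTj1 he0.le
        gcongr)) hN
      (hNT.trans (Real.rpow_le_rpow hT0.le hTj1 (by norm_num))) hwb
    have e1 : ∫ c in (j * B)..((j + 1 : ℕ) * B), G c =
        ∫ c in (0 : ℝ)..B, ‖∫ t in Tj..(Tj + H), F (t - j * B) * (z (t + c) - GN N (t + c))‖ ^ 2 := by
      have h2 := intervalIntegral.integral_comp_add_right (a := 0) (b := B) G ((j : ℝ) * B)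
      have h3 : (0 : ℝ) + j * B = j * B := by ring
      have h4 : B + j * B = ((j + 1 : ℕ) : ℝ) * B := by push_cast; ring
      rw [h3, h4] at h2
      rw [← h2]
      refine intervalIntegral.integral_congr fun c _ => ?_
      simp only [hG]
      have h5 := intervalIntegral.integral_comp_add_right (a := T) (b := T + H)
        (fun t => F (t - j * B) * (z (t + c) - GN N (t + c))) ((j : ℝ) * B)
      have h6 : T + H + j * B = Tj + H := by rw [hTj]; ring
      rw [h6, ← hTj] at h5
      rw [← h5]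
      congr 2
      refine intervalIntegral.integral_congr fun t _ => ?_
      have h7 : t + (c + j * B) = t + j * B + c := by ring
      have h8 : t + j * B - j * B = t := by ring
      rw [h7, h8]
    have e2 : ∫ t in Tj..(Tj + H), ‖F (t - j * B)‖ ^ 2 = P := by
      have h5 := intervalIntegral.integral_comp_add_right (a := T) (b := T + H)
        (fun t => ‖F (t - j * B)‖ ^ 2) ((j : ℝ) * B)
      have h6 : T + H + j * B = Tj + H := by rw [hTj]; ring
      rw [h6, ← hTj] at h5
      rw [← h5, hPd]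
      refine intervalIntegral.integral_congr fun t _ => ?_
      have h8 : t + j * B - j * B = t := by ring
      rw [h8]
    rw [e2] at h1
    rw [e1]
    refine h1.trans ?_
    have hlog : Real.log Tj ≤ 2 * L := by
      have h2 : Real.log Tj ≤ Real.log (2 * T) := Real.log_le_log hTj0 hTj2
      have h3 : Real.log (2 * T) ≤ Real.log (T ^ 2) := by
        refine Real.log_le_log (by positivity) ?_
        nlinarith
      rw [Real.log_pow] at h3
      push_cast at h3
      linarith
    have hlog0 : 0 ≤ Real.log Tj := Real.log_nonneg (by linarith)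
    have h2 : Real.log Tj ^ 2 ≤ (2 * L) ^ 2 := pow_le_pow_left₀ hlog0 hlog 2
    calc C * Real.log Tj ^ 2 * (B * (1 + H / N)) * P ≤ C * (2 * L) ^ 2 * (B * (1 + H / N)) * P := by
          gcongr
      _ = _ := by ring
  have hsum : ∑ j ∈ Finset.range n, ∫ c in ((j : ℝ) * B)..((j + 1 : ℕ) * B), G c =
      ∫ c in (0 : ℝ)..U, G c := by
    have h1 := intervalIntegral.sum_integral_adjacent_intervals (f := G) (μ := volume)
      (a := fun j : ℕ => (j : ℝ) * B) (n := n) (by
        intro k hk
        refine hint.mono_set ?_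
        have hk1 : ((k : ℝ) + 1) ≤ n := by exact_mod_cast hk
        have hk2 : (k : ℝ) * B ≤ ((k + 1 : ℕ) : ℝ) * B := by
          push_cast
          gcongr
          linarith
        have hk3 : ((k + 1 : ℕ) : ℝ) * B ≤ U := by
          rw [← hnB]
          push_cast
          gcongr
        rw [uIcc_of_le hk2, uIcc_of_le hU0.le]
        exact Icc_subset_Icc (by positivity) hk3)
    simp only [Nat.cast_zero, zero_mul, hnB] at h1
    exact h1
  calc ∫ c in (0 : ℝ)..U, ‖∫ t in T..(T + H), F t * (z (t + c) - GN N (t + c))‖ ^ 2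
      = ∑ j ∈ Finset.range n, ∫ c in ((j : ℝ) * B)..((j + 1 : ℕ) * B), G c := hsum.symm
    _ ≤ ∑ j ∈ Finset.range n, 4 * C * L ^ 2 * (B * (1 + H / N)) * P :=
        Finset.sum_le_sum fun j hj => hwin j (Finset.mem_range.1 hj)
    _ = 4 * C * L ^ 2 * ((n * B) * (1 + H / N)) * P := by
        rw [Finset.sum_const, Finset.card_range, nsmul_eq_mul]
        ring
    _ = _ := by rw [hnB]

end

end Pool.Agent.H27.SW.OPL
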