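import Pool.Agent.H27.SW.Stm
import Pool.Agent.H27.G.R_pool_sql_team_seeded_63374d34.N879.PU.Ku

set_option autoImplicit false

/-! Project SW (helper27), OW: zeta minus the model, as an operator, for a window of shifts (helper67). -/

namespace Pool.Agent.H27.SW.OW

open Complex Filter Topology MeasureTheory Set
open Pool.Agent.TH612.CF
open Pool.Agent.TH612.GS
open Pool.Agent.N879.PZ (Wb)
open Pool.Agent.N879.PU.Kuaux

noncomputable section

lemma en_norm {n : ℕ} (hn : 1 ≤ n) (u : ℝ) : ‖en n u‖ = 1 := by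
  unfold en
  rw [Complex.norm_natCast_cpow_of_pos (by omega)]
  have e : (-(I * (u : ℂ))).re = 0 := by simp
  rw [e, Real.rpow_zero]

/-- the part of `Sa` above `N` -/
def Bp (a : ℕ → ℝ) (N Y : ℕ) (u : ℝ) : ℂ :=
  ∑ n ∈ Finset.Ioc N Y, ((a n : ℂ) * (n : ℂ) ^ (-(1 / 2) : ℂ)) * en n u

lemma Bp_cont (a : ℕ → ℝ) (N Y : ℕ) : Continuous (Bp a N Y) := by
  unfold Bp
  refine continuous_finsetSum _ fun n hn => continuous_const.mul (en_cont ?_)
  have := (Finset.mem_Ioc.1 hn).1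
  omega

lemma Sa_eq (a : ℕ → ℝ) (Y : ℕ) (u : ℝ) :
    Sa a Y u = Bp a 0 Y u := by
  have e : Finset.Icc 1 Y = Finset.Ioc 0 Y := by
    ext n
    rw [Finset.mem_Icc, Finset.mem_Ioc]
    omega
  unfold Sa Bp
  rw [e]
  refine Finset.sum_congr rfl fun n hn => ?_
  rw [term_eq (by have := (Finset.mem_Ioc.1 hn).1; omega) u, mul_assoc]

lemma Sa_cont (a : ℕ → ℝ) (Y : ℕ) : Continuous (Sa a Y) := by
  have e : Sa a Y = Bp a 0 Y := funext (Sa_eq a Y)
  rw [e]
  exact Bp_cont a 0 Y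

lemma Sa_sub {a : ℕ → ℝ} {N Y : ℕ} (h : N ≤ Y) (ha : ∀ n, 1 ≤ n → n ≤ N → a n = 1) (u : ℝ) :
    Sa a Y u - PN N u = Bp a N Y u := by
  rw [Sa_eq, PN_eq]
  unfold Bp
  rw [← Finset.sum_Ioc_consecutive _ (Nat.zero_le N) h]
  have e : ∑ n ∈ Finset.Ioc 0 N, ((a n : ℂ) * (n : ℂ) ^ (-(1 / 2) : ℂ)) * en n u =
      ∑ n ∈ Finset.Ioc 0 N, (n : ℂ) ^ (-(1 / 2) : ℂ) * en n u := by
    refine Finset.sum_congr rfl fun n hn => ?_
    rw [Finset.mem_Ioc] at hn
    rw [ha n (by omega) hn.2, Complex.ofReal_one, one_mul]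
  rw [e]
  ring

lemma w_norm {a : ℕ → ℝ} (ha : ∀ n, 0 ≤ a n ∧ a n ≤ 1) (n : ℕ) (hn : 1 ≤ n) :
    ‖(a n : ℂ) * (n : ℂ) ^ (-(1 / 2) : ℂ)‖ ^ 2 ≤ (n : ℝ)⁻¹ := by
  rw [norm_mul, mul_pow, norm_w hn, Complex.norm_real, Real.norm_eq_abs, sq_abs]
  have h1 := (ha n).1
  have h2 := (ha n).2
  have h3 : (0 : ℝ) ≤ (n : ℝ)⁻¹ := by positivity
  have h4 : a n ^ 2 ≤ 1 := by nlinarith
  calc a n ^ 2 * (n : ℝ)⁻¹ ≤ 1 * (n : ℝ)⁻¹ := mul_le_mul_of_nonneg_right h4 h3
    _ = _ := one_mul _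

lemma one_le_log {T : ℝ} (hT : 3 ≤ T) : 1 ≤ Real.log T := by
  rw [Real.le_log_iff_exp_le (by linarith)]
  have := Real.exp_one_lt_d9
  linarith

lemma Bp_bound {a : ℕ → ℝ} (ha : ∀ n, 0 ≤ a n ∧ a n ≤ 1) {N Y : ℕ} {T : ℝ} (hT : 3 ≤ T) (hY : 1 ≤ Y)
    (hYT : (Y : ℝ) ≤ T) (u : ℝ) : ‖Bp a N Y u‖ ^ 2 ≤ 2 * Real.log T * Y := by
  unfold Bp
  refine (norm_sum_sq (Finset.Ioc N Y)
    (fun n => ((a n : ℂ) * (n : ℂ) ^ (-(1 / 2) : ℂ)) * en n u)).trans ?_
  have hY0 : (0 : ℝ) < Y := by exact_mod_cast hY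
  have h2 : ((Finset.Ioc N Y).card : ℝ) ≤ Y := by
    rw [Nat.card_Ioc]
    exact_mod_cast Nat.sub_le Y N
  have h3 : ∑ n ∈ Finset.Ioc N Y, ‖((a n : ℂ) * (n : ℂ) ^ (-(1 / 2) : ℂ)) * en n u‖ ^ 2 ≤
      1 + Real.log Y := by
    calc _ ≤ ∑ n ∈ Finset.Ioc N Y, (n : ℝ)⁻¹ := by
          refine Finset.sum_le_sum fun n hn => ?_
          have hn1 : 1 ≤ n := by have := (Finset.mem_Ioc.1 hn).1; omega
          rw [norm_mul, en_norm hn1, mul_one]
          exact w_norm ha n hn1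
      _ ≤ ∑ n ∈ Finset.Icc 1 Y, (n : ℝ)⁻¹ := by
          refine Finset.sum_le_sum_of_subset_of_nonneg ?_ (fun n _ _ => by positivity)
          intro n hn
          rw [Finset.mem_Ioc] at hn
          rw [Finset.mem_Icc]
          omega
      _ = ((harmonic Y : ℚ) : ℝ) := by
          rw [harmonic_eq_sum_Icc]
          push_cast
          rfl
      _ ≤ 1 + Real.log Y := harmonic_le_one_add_log Y
  have h4 := Real.log_le_log hY0 hYT
  have h5 := one_le_log hT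
  have h6 : 0 ≤ ∑ n ∈ Finset.Ioc N Y, ‖((a n : ℂ) * (n : ℂ) ^ (-(1 / 2) : ℂ)) * en n u‖ ^ 2 :=
    Finset.sum_nonneg fun n _ => by positivity
  calc ((Finset.Ioc N Y).card : ℝ) *
        ∑ n ∈ Finset.Ioc N Y, ‖((a n : ℂ) * (n : ℂ) ^ (-(1 / 2) : ℂ)) * en n u‖ ^ 2
      ≤ (Y : ℝ) * (2 * Real.log T) := mul_le_mul h2 (by linarith) h6 hY0.le
    _ = _ := by ring

/-- two phases -/
lemma exp_diff (a b : ℝ) : ‖cexp (-(I * (a : ℂ))) - cexp (-(I * (b : ℂ)))‖ ≤ |a - b| := by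
  have e : cexp (-(I * (a : ℂ))) - cexp (-(I * (b : ℂ))) =
      cexp (-(I * (b : ℂ))) * (cexp (I * ((b - a : ℝ) : ℂ)) - 1) := by
    rw [mul_sub, mul_one, ← Complex.exp_add]
    congr 2
    push_cast
    ring
  rw [e, norm_mul]
  have h1 : ‖cexp (-(I * (b : ℂ)))‖ = 1 := by
    rw [show -(I * (b : ℂ)) = ((-b : ℝ) : ℂ) * I by push_cast; ring]
    exact Complex.norm_exp_ofReal_mul_I _
  rw [h1, one_mul]
  have h2 := Real.norm_exp_I_mul_ofReal_sub_one_le (x := b - a)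
  rw [Real.norm_eq_abs, abs_sub_comm] at h2
  exact h2

/-- the factor of the functional equation in a window of shifts -/
lemma D_bound {C : ℝ} (hC : 0 < C) (hX : ∀ V s : ℝ, 100 ≤ V → 0 ≤ s → s ≤ V →
    ‖Xc (V + s) - Xc V * cexp (-(I * ((s * Real.log (V / (2 * Real.pi)) : ℝ) : ℂ)))‖ ≤
      C * (s + s ^ 2) / V)
    (hn : ∀ u, ‖Xc u‖ = 1) {T H U c s : ℝ} (hT : 100 ≤ T) (hH1 : 1 ≤ H) (hHU : H ≤ U) (hHT : H ≤ T)
    (hc0 : 0 ≤ c) (hc : c ≤ U) (hs0 : 0 ≤ s) (hs : s ≤ H) :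
    ‖Xc (T + c + s) - Xc (T + c) * cexp (-(I * ((s * Real.log (T / (2 * Real.pi)) : ℝ) : ℂ)))‖ ≤
      (2 * C + 1) * (H * U) / T := by
  have hT0 : 0 < T := by linarith
  have hU1 : 1 ≤ U := by linarith
  have h1 := hX (T + c) s (by linarith) hs0 (by linarith)
  have h2 : C * (s + s ^ 2) / (T + c) ≤ 2 * C * (H * U) / T := by
    have a1 : C * (s + s ^ 2) / (T + c) ≤ C * (s + s ^ 2) / T :=
      div_le_div_of_nonneg_left (by positivity) hT0 (by linarith)
    have a2 : s + s ^ 2 ≤ 2 * (H * U) := by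
      have b1 : s ≤ H * U := by nlinarith
      have b2 : s ^ 2 ≤ H * U := by nlinarith
      linarith
    refine a1.trans (div_le_div_of_nonneg_right ?_ hT0.le)
    calc C * (s + s ^ 2) ≤ C * (2 * (H * U)) := mul_le_mul_of_nonneg_left a2 hC.le
      _ = _ := by ring
  have h3 : |s * Real.log ((T + c) / (2 * Real.pi)) - s * Real.log (T / (2 * Real.pi))| ≤
      H * U / T := by
    have hpi : (0 : ℝ) < 2 * Real.pi := by positivity
    have a1 : Real.log ((T + c) / (2 * Real.pi)) - Real.log (T / (2 * Real.pi)) =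
        Real.log ((T + c) / T) := by
      rw [Real.log_div (by linarith) hpi.ne', Real.log_div hT0.ne' hpi.ne',
        Real.log_div (by linarith) hT0.ne']
      ring
    have a2 : 0 ≤ Real.log ((T + c) / T) := by
      refine Real.log_nonneg ?_
      rw [le_div_iff₀ hT0]
      linarith
    have a3 : Real.log ((T + c) / T) ≤ U / T := by
      have b1 := Real.log_le_sub_one_of_pos (x := (T + c) / T) (by positivity)
      have b2 : (T + c) / T - 1 = c / T := by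
        field_simp
        ring
      rw [b2] at b1
      exact b1.trans (div_le_div_of_nonneg_right hc hT0.le)
    rw [← mul_sub, a1, abs_mul, abs_of_nonneg hs0, abs_of_nonneg a2]
    calc s * Real.log ((T + c) / T) ≤ H * (U / T) := mul_le_mul hs a3 a2 (by linarith)
      _ = _ := by ring
  have h4 := exp_diff (s * Real.log ((T + c) / (2 * Real.pi))) (s * Real.log (T / (2 * Real.pi)))
  have h5 : Xc (T + c + s) - Xc (T + c) * cexp (-(I * ((s * Real.log (T / (2 * Real.pi)) : ℝ) : ℂ))) =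
      (Xc (T + c + s) - Xc (T + c) *
        cexp (-(I * ((s * Real.log ((T + c) / (2 * Real.pi)) : ℝ) : ℂ)))) +
      Xc (T + c) * (cexp (-(I * ((s * Real.log ((T + c) / (2 * Real.pi)) : ℝ) : ℂ))) -
        cexp (-(I * ((s * Real.log (T / (2 * Real.pi)) : ℝ) : ℂ)))) := by ring
  rw [h5]
  refine (norm_add_le _ _).trans ?_
  rw [norm_mul, hn, one_mul]
  calc _ ≤ 2 * C * (H * U) / T + H * U / T := add_le_add (h1.trans h2) (h4.trans h3)
    _ = _ := by ring

/-- integrals of Dirichlet polynomials against a weight -/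
lemma int_poly {a b : ℝ} (hab : a ≤ b) {F : ℝ → ℂ} (hF : Wb a b F) (S : Finset ℕ)
    (hS : ∀ n ∈ S, 1 ≤ n) (w : ℕ → ℂ) (c : ℝ) :
    ∫ t in a..b, F t * (∑ n ∈ S, w n * en n (t + c)) =
      ∑ n ∈ S, w n * (∫ t in a..b, F t * en n t) * en n c := by
  have hFG : ∀ n ∈ S, IntervalIntegrable (fun t => F t * (w n * en n (t + c))) volume a b :=
    fun n hn => int_mul hab hF (continuous_const.mul ((en_cont (hS n hn)).comp
      (by fun_prop : Continuous fun t : ℝ => t + c)))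
  simp only [Finset.mul_sum]
  rw [intervalIntegral.integral_finsetSum hFG]
  refine Finset.sum_congr rfl fun n hn => ?_
  have e : ∀ t, F t * (w n * en n (t + c)) = (w n * en n c) * (F t * en n t) := by
    intro t
    rw [en_add (hS n hn)]
    ring
  simp only [e]
  rw [intervalIntegral.integral_const_mul]
  ring

/-- the norm of an integral and of the integral of the conjugates -/
lemma norm_int_conj (a b : ℝ) (f : ℝ → ℂ) :
    ‖∫ t in a..b, (starRingEnd ℂ) (f t)‖ = ‖∫ t in a..b, f t‖ := by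
  rw [intervalIntegral.norm_intervalIntegral_eq, intervalIntegral.norm_intervalIntegral_eq,
    integral_conj, RCLike.norm_conj]

lemma sq4 (x1 x2 x3 x4 : ℂ) :
    ‖x1 + x2 + x3 + x4‖ ^ 2 ≤ 4 * ‖x1‖ ^ 2 + 4 * ‖x2‖ ^ 2 + 4 * ‖x3‖ ^ 2 + 4 * ‖x4‖ ^ 2 := by
  have h1 : ‖x1 + x2 + x3 + x4‖ ≤ ‖x1‖ + ‖x2‖ + ‖x3‖ + ‖x4‖ :=
    (norm_add_le _ _).trans (add_le_add_left ((norm_add_le _ _).trans
      (add_le_add_left (norm_add_le _ _) _)) _)
  have h2 := pow_le_pow_left₀ (norm_nonneg _) h1 2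
  nlinarith [sq_nonneg (‖x1‖ - ‖x2‖), sq_nonneg (‖x1‖ - ‖x3‖), sq_nonneg (‖x1‖ - ‖x4‖),
    sq_nonneg (‖x2‖ - ‖x3‖), sq_nonneg (‖x2‖ - ‖x4‖), sq_nonneg (‖x3‖ - ‖x4‖)]

/-- Cauchy-Schwarz with a continuous bounded factor -/
lemma cs_bd {a b M : ℝ} (hab : a ≤ b) {F G : ℝ → ℂ} (hF : Wb a b F) (hG : Continuous G)
    (hM : ∀ t ∈ Icc a b, ‖G t‖ ^ 2 ≤ M) :
    ‖∫ t in a..b, F t * G t‖ ^ 2 ≤ (∫ t in a..b, ‖F t‖ ^ 2) * ((b - a) * M) := by
  have hG2 : IntervalIntegrable (fun t => ‖G t‖ ^ 2) volume a b :=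
    (hG.norm.pow 2).intervalIntegrable _ _
  have hFG : IntervalIntegrable (fun t => ‖F t‖ * ‖G t‖) volume a b := by
    have := (int_mul hab hF hG).norm
    simpa only [norm_mul] using this
  refine (cs_int hab (int_sq hab hF) hG2 hFG).trans ?_
  refine mul_le_mul_of_nonneg_left ?_ (intervalIntegral.integral_nonneg hab fun t _ => by positivity)
  calc ∫ t in a..b, ‖G t‖ ^ 2 ≤ ∫ t in a..b, M :=
        intervalIntegral.integral_mono_on hab hG2 (continuous_const.intervalIntegrable _ _) hM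
    _ = _ := by rw [intervalIntegral.integral_const, smul_eq_mul]

/-- powers of `T` -/
lemma powers {η T H U Y N : ℝ} (hη : 0 < η) (hη1 : η ≤ 1 / 100) (hT : 100 ≤ T) (hH1 : 1 ≤ H)
    (hH : H ≤ T ^ (1 / 16 : ℝ)) (hU1 : T ^ (1 / 2 + 3 * η) ≤ U) (hU2 : U ≤ 2 * T ^ (1 / 2 + 3 * η))
    (hY1 : 1 ≤ Y) (hY : Y ≤ T ^ (1 / 2 + 2 * η)) (hN : N ≤ T ^ (1 / 16 : ℝ)) :
    H ≤ U ∧ U ≤ T ∧ H + U ≤ 4 * T ^ (1 / 2 + 4 * η) ∧ Y ≤ U ∧ N ≤ T ^ (1 / 2 - 2 * η) ∧
      H ^ 3 * U ^ 2 * Y ≤ 4 * T ^ 2 ∧ H * (T ^ (-(1 / 8) : ℝ)) ^ 2 ≤ 1 ∧ H ≤ T := by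
  have hT1 : 1 ≤ T := by linarith
  have hT0 : 0 < T := by linarith
  have m : ∀ x y : ℝ, x ≤ y → T ^ x ≤ T ^ y := fun x y h => Real.rpow_le_rpow_of_exponent_le hT1 h
  have hHU : H ≤ U := (hH.trans (m _ _ (by linarith))).trans hU1
  have hU0 : 0 ≤ U := by linarith
  have h4 : (2 : ℝ) ≤ T ^ (1 / 4 : ℝ) := by
    have h : (16 : ℝ) ^ (1 / 4 : ℝ) = 2 := by
      rw [show (16 : ℝ) = 2 ^ (4 : ℝ) by norm_num, ← Real.rpow_mul (by norm_num)]
      norm_num
    rw [← h]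
    exact Real.rpow_le_rpow (by norm_num) (by linarith) (by norm_num)
  have hUT : U ≤ T := by
    calc U ≤ 2 * T ^ (1 / 2 + 3 * η) := hU2
      _ ≤ T ^ (1 / 4 : ℝ) * T ^ (1 / 2 + 3 * η) := by gcongr
      _ = T ^ (1 / 4 + (1 / 2 + 3 * η)) := (Real.rpow_add hT0 _ _).symm
      _ ≤ T ^ (1 : ℝ) := m _ _ (by linarith)
      _ = T := Real.rpow_one T
  refine ⟨hHU, hUT, ?_, ?_, ?_, ?_, ?_, hHU.trans hUT⟩
  · have h1 := m (1 / 16) (1 / 2 + 4 * η) (by linarith)
    have h2 := m (1 / 2 + 3 * η) (1 / 2 + 4 * η) (by linarith)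
    have h3 : 0 ≤ T ^ (1 / 2 + 4 * η) := by positivity
    linarith
  · exact (hY.trans (m _ _ (by linarith))).trans hU1
  · exact hN.trans (m _ _ (by linarith))
  · have q1 : H ^ 3 ≤ T ^ (3 / 16 : ℝ) := by
      calc H ^ 3 ≤ (T ^ (1 / 16 : ℝ)) ^ 3 := by gcongr
        _ = T ^ (3 / 16 : ℝ) := by
          rw [← Real.rpow_natCast, ← Real.rpow_mul hT0.le]
          norm_num
    have q2 : U ^ 2 ≤ 4 * T ^ (1 + 6 * η) := by
      calc U ^ 2 ≤ (2 * T ^ (1 / 2 + 3 * η)) ^ 2 := by gcongr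
        _ = 4 * T ^ (1 + 6 * η) := by
          rw [mul_pow, ← Real.rpow_natCast (T ^ (1 / 2 + 3 * η)), ← Real.rpow_mul hT0.le]
          have : (1 / 2 + 3 * η) * ((2 : ℕ) : ℝ) = 1 + 6 * η := by
            push_cast
            ring
          rw [this]
          norm_num
    calc H ^ 3 * U ^ 2 * Y ≤ T ^ (3 / 16 : ℝ) * (4 * T ^ (1 + 6 * η)) * T ^ (1 / 2 + 2 * η) := by
          gcongr
      _ = 4 * T ^ (3 / 16 + (1 + 6 * η) + (1 / 2 + 2 * η)) := by
          have key : ∀ x y w : ℝ, x * (4 * y) * w = 4 * (x * y * w) := by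
            intro x y w
            ring
          rw [key, ← Real.rpow_add hT0, ← Real.rpow_add hT0]
      _ ≤ 4 * T ^ (2 : ℝ) := by
          have := m (3 / 16 + (1 + 6 * η) + (1 / 2 + 2 * η)) 2 (by linarith)
          linarith
      _ = 4 * T ^ 2 := by
          rw [← Real.rpow_natCast T 2]
          norm_num
  · have q1 : (T ^ (-(1 / 8) : ℝ)) ^ 2 = T ^ (-(1 / 4) : ℝ) := by
      rw [← Real.rpow_natCast, ← Real.rpow_mul hT0.le]
      norm_num
    rw [q1]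
    calc H * T ^ (-(1 / 4) : ℝ) ≤ T ^ (1 / 16 : ℝ) * T ^ (-(1 / 4) : ℝ) := by gcongr
      _ = T ^ (1 / 16 + -(1 / 4) : ℝ) := (Real.rpow_add hT0 _ _).symm
      _ ≤ T ^ (0 : ℝ) := m _ _ (by norm_num)
      _ = 1 := Real.rpow_zero T

theorem main : S_XL → S_AFW → S_PB → S_OW := by
  intro hXL hAF hPB η hη hη1
  obtain ⟨hXc, hXn, C1, hC1, hX⟩ := hXL
  obtain ⟨C2, hC2, hP⟩ := hPB
  obtain ⟨T1, hT1, hA⟩ := hAF η hη hη1
  refine ⟨24 * C2 + 32 * (2 * C1 + 1) ^ 2 + 4, max T1 100, by positivity,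
    le_max_of_le_left hT1, ?_⟩
  intro T H U N F hT hH1 hHT hU1 hU2 hN1 hNT hF
  have hTT : T1 ≤ T := (le_max_left _ _).trans hT
  have hT100 : 100 ≤ T := (le_max_right _ _).trans hT
  have hT3 : 3 ≤ T := by linarith
  have hT0 : 0 < T := by linarith
  obtain ⟨Y, a, b, hY1, hY, ha, hb, hab1, hz⟩ := hA T hTT
  have hY1' : (1 : ℝ) ≤ Y := by exact_mod_cast hY1
  obtain ⟨pHU, pUT, pHU4, pYU, pN, p6, p7, pHT⟩ :=
    powers (N := (N : ℝ)) hη hη1 hT100 hH1 hHT hU1 hU2 hY1' hY hNT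
  have hL := one_le_log hT3
  set L := Real.log T with hLd
  have hab : T ≤ T + H := by linarith
  have hU1' : 1 ≤ U := by linarith
  have hU0 : 0 ≤ U := by linarith
  have hN0 : (0 : ℝ) < N := by exact_mod_cast hN1
  have hNY : N ≤ Y := (hab1 N hN1 pN).2.2
  have hYT : (Y : ℝ) ≤ T := pYU.trans pUT
  have hP0 : 0 ≤ ∫ t in T..(T + H), ‖F t‖ ^ 2 :=
    intervalIntegral.integral_nonneg hab fun t _ => by positivity
  have hone : ∀ n : ℕ, 1 ≤ n → n ≤ N → a n = 1 ∧ b n = 1 := by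
    intro n hn1 hn
    have h : (n : ℝ) ≤ N := by exact_mod_cast hn
    have := hab1 n hn1 (h.trans pN)
    exact ⟨this.1, this.2.1⟩
  -- the second weight
  set F1 : ℝ → ℂ := fun t => (starRingEnd ℂ) (F t) *
    cexp (I * (((t - T) * Real.log (T / (2 * Real.pi)) : ℝ) : ℂ)) with hF1
  have hph : ∀ x : ℝ, ‖cexp (I * (x : ℂ))‖ = 1 := by
    intro x
    rw [mul_comm]
    exact Complex.norm_exp_ofReal_mul_I _
  have hF1n : ∀ t, ‖F1 t‖ = ‖F t‖ := by
    intro t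
    rw [hF1]
    simp only
    rw [norm_mul, hph, mul_one, RCLike.norm_conj]
  have hF1W : Wb T (T + H) F1 := by
    obtain ⟨hm, M, hM⟩ := hF
    refine ⟨?_, M, fun t ht => (hF1n t).le.trans (hM t ht)⟩
    have h1 : Measurable fun t => (starRingEnd ℂ) (F t) :=
      Complex.continuous_conj.measurable.comp hm
    have h2 : Continuous fun t : ℝ =>
        cexp (I * (((t - T) * Real.log (T / (2 * Real.pi)) : ℝ) : ℂ)) := by fun_prop
    exact h1.mul h2.measurable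
  have hF1P : ∫ t in T..(T + H), ‖F1 t‖ ^ 2 = ∫ t in T..(T + H), ‖F t‖ ^ 2 := by
    simp only [hF1n]
  have hS : ∀ n ∈ Finset.Ioc N Y, 1 ≤ n := fun n hn => by
    have := (Finset.mem_Ioc.1 hn).1
    omega
  have hPB1 := hP T H U N Y (fun n => (a n : ℂ) * (n : ℂ) ^ (-(1 / 2) : ℂ)) F hT3 hH1 pHT hU1' pUT
    hN1 hNY hYT (w_norm ha) hF
  have hPB2 := hP T H U N Y (fun n => (b n : ℂ) * (n : ℂ) ^ (-(1 / 2) : ℂ)) F1 hT3 hH1 pHT hU1' pUT
    hN1 hNY hYT (w_norm hb) hF1W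
  rw [hF1P] at hPB2
  set P := ∫ t in T..(T + H), ‖F t‖ ^ 2 with hPd
  set S1 : ℝ → ℂ := fun c => ∑ n ∈ Finset.Ioc N Y, (a n : ℂ) * (n : ℂ) ^ (-(1 / 2) : ℂ) *
    (∫ t in T..(T + H), F t * en n t) * en n c with hS1
  set S2 : ℝ → ℂ := fun c => ∑ n ∈ Finset.Ioc N Y, (b n : ℂ) * (n : ℂ) ^ (-(1 / 2) : ℂ) *
    (∫ t in T..(T + H), F1 t * en n t) * en n c with hS2
  have hPB1' : ∫ c in (0 : ℝ)..U, ‖S1 c‖ ^ 2 ≤
      C2 * L ^ 2 * (H * U / N + H + U + Y) * P := hPB1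
  have hPB2' : ∫ c in (0 : ℝ)..U, ‖S2 c‖ ^ 2 ≤
      C2 * L ^ 2 * (H * U / N + H + U + Y) * P := hPB2
  have hS1c : Continuous S1 :=
    continuous_finsetSum _ fun n hn => continuous_const.mul (en_cont (hS n hn))
  have hS2c : Continuous S2 :=
    continuous_finsetSum _ fun n hn => continuous_const.mul (en_cont (hS n hn))
  -- the errors
  set K3 := P * (H * (((2 * C1 + 1) * (H * U) / T) ^ 2 * (2 * L * Y))) with hK3
  set K4 := P * (H * (T ^ (-(1 / 8) : ℝ)) ^ 2) with hK4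
  -- the pointwise bound
  have hpt : ∀ c ∈ Icc 0 U, ‖∫ t in T..(T + H), F t * (z (t + c) - GN N (t + c))‖ ^ 2 ≤
      4 * ‖S1 c‖ ^ 2 + 4 * ‖S2 c‖ ^ 2 + (4 * K3 + 4 * K4) := by
    intro c hc
    have hcc : Continuous fun t : ℝ => t + c := by fun_prop
    set ph : ℝ → ℂ := fun t =>
      cexp (-(I * (((t - T) * Real.log (T / (2 * Real.pi)) : ℝ) : ℂ))) with hphd
    have hphc : Continuous ph := by
      rw [hphd]
      fun_prop
    set D : ℝ → ℂ := fun t => Xc (t + c) - Xc (T + c) * ph t with hD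
    have hDc : Continuous D := (hXc.comp hcc).sub (continuous_const.mul hphc)
    set E : ℝ → ℂ := fun t => z (t + c) - Sa a Y (t + c) -
      Xc (t + c) * (starRingEnd ℂ) (Sa b Y (t + c)) with hE
    have hEc : Continuous E :=
      ((Pool.Agent.N879.PU.Kuaux.z_cont.comp hcc).sub ((Sa_cont a Y).comp hcc)).sub
        ((hXc.comp hcc).mul (Complex.continuous_conj.comp ((Sa_cont b Y).comp hcc)))
    have hBc : Continuous fun t => (starRingEnd ℂ) (Bp b N Y (t + c)) :=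
      Complex.continuous_conj.comp ((Bp_cont b N Y).comp hcc)
    have hAc : Continuous fun t => Bp a N Y (t + c) := (Bp_cont a N Y).comp hcc
    have e0 : ∀ t, F t * (z (t + c) - GN N (t + c)) =
        F t * Bp a N Y (t + c) +
        F t * ((Xc (T + c) * ph t) * (starRingEnd ℂ) (Bp b N Y (t + c))) +
        F t * (D t * (starRingEnd ℂ) (Bp b N Y (t + c))) + F t * E t := by
      intro t
      have h1 := Sa_sub hNY (fun n hn1 hn => (hone n hn1 hn).1) (t + c)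
      have h2 := Sa_sub hNY (fun n hn1 hn => (hone n hn1 hn).2) (t + c)
      rw [← h1, ← h2, map_sub]
      simp only [hE, hD]
      unfold GN
      ring
    have i1 := int_mul hab hF hAc
    have hPBc : Continuous fun t => (Xc (T + c) * ph t) * (starRingEnd ℂ) (Bp b N Y (t + c)) :=
      (continuous_const.mul hphc).mul hBc
    have hDB : Continuous fun t => D t * (starRingEnd ℂ) (Bp b N Y (t + c)) := hDc.mul hBc
    have i2 := int_mul hab hF hPBc
    have i3 := int_mul hab hF hDB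
    have i4 := int_mul hab hF hEc
    have e1 : ∫ t in T..(T + H), F t * (z (t + c) - GN N (t + c)) =
        (∫ t in T..(T + H), F t * Bp a N Y (t + c)) +
        (∫ t in T..(T + H), F t * ((Xc (T + c) * ph t) * (starRingEnd ℂ) (Bp b N Y (t + c)))) +
        (∫ t in T..(T + H), F t * (D t * (starRingEnd ℂ) (Bp b N Y (t + c)))) +
        ∫ t in T..(T + H), F t * E t := by
      simp only [e0]
      rw [intervalIntegral.integral_add ((i1.add i2).add i3) i4,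
        intervalIntegral.integral_add (i1.add i2) i3, intervalIntegral.integral_add i1 i2]
    have j1 : ∫ t in T..(T + H), F t * Bp a N Y (t + c) = S1 c := by
      unfold Bp
      exact int_poly hab hF (Finset.Ioc N Y) hS (fun n => (a n : ℂ) * (n : ℂ) ^ (-(1 / 2) : ℂ)) c
    have j2 : ‖∫ t in T..(T + H), F t * ((Xc (T + c) * ph t) *
        (starRingEnd ℂ) (Bp b N Y (t + c)))‖ = ‖S2 c‖ := by
      have h1 : ∫ t in T..(T + H), F1 t * Bp b N Y (t + c) = S2 c := by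
        unfold Bp
        exact int_poly hab hF1W (Finset.Ioc N Y) hS
          (fun n => (b n : ℂ) * (n : ℂ) ^ (-(1 / 2) : ℂ)) c
      have h2 : ∀ t, F t * ((Xc (T + c) * ph t) * (starRingEnd ℂ) (Bp b N Y (t + c))) =
          Xc (T + c) * (starRingEnd ℂ) (F1 t * Bp b N Y (t + c)) := by
        intro t
        have h3 : (starRingEnd ℂ) (cexp (I * (((t - T) * Real.log (T / (2 * Real.pi)) : ℝ) : ℂ))) =
            ph t := by
          rw [hphd]
          simp only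
          rw [← Complex.exp_conj, map_mul, Complex.conj_I, Complex.conj_ofReal, neg_mul]
        rw [hF1]
        simp only
        rw [map_mul, map_mul, h3, Complex.conj_conj]
        ring
      simp only [h2]
      rw [intervalIntegral.integral_const_mul, norm_mul, hXn, one_mul, norm_int_conj, h1]
    have j3 : ‖∫ t in T..(T + H), F t * (D t * (starRingEnd ℂ) (Bp b N Y (t + c)))‖ ^ 2 ≤ K3 := by
      have h1 := cs_bd hab hF hDB
        (M := ((2 * C1 + 1) * (H * U) / T) ^ 2 * (2 * L * Y)) (by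
          intro t ht
          rw [norm_mul, mul_pow, RCLike.norm_conj]
          have h2 : ‖D t‖ ≤ (2 * C1 + 1) * (H * U) / T := by
            have h3 := D_bound hC1 hX hXn (T := T) (H := H) (U := U) (c := c) (s := t - T) hT100 hH1
              pHU pHT hc.1 hc.2 (by linarith [ht.1]) (by linarith [ht.2])
            have e : T + c + (t - T) = t + c := by ring
            rw [e] at h3
            exact h3
          have h4 := Bp_bound hb (N := N) hT3 hY1 hYT (t + c)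
          exact mul_le_mul (pow_le_pow_left₀ (norm_nonneg _) h2 2) h4 (by positivity)
            (by positivity))
      have e : T + H - T = H := by ring
      rw [e] at h1
      exact h1
    have j4 : ‖∫ t in T..(T + H), F t * E t‖ ^ 2 ≤ K4 := by
      have h1 := cs_bd hab hF hEc (M := (T ^ (-(1 / 8) : ℝ)) ^ 2) (by
          intro t ht
          refine pow_le_pow_left₀ (norm_nonneg _) ?_ 2
          exact hz (t + c) (by linarith [ht.1, hc.1]) (by linarith [ht.2, hc.2]))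
      have e : T + H - T = H := by ring
      rw [e] at h1
      exact h1
    rw [e1]
    refine (sq4 _ _ _ _).trans ?_
    rw [j1, j2]
    linarith
  -- arithmetic
  have hYn : (0 : ℝ) ≤ Y := by linarith
  have hK3' : K3 ≤ P * (8 * (2 * C1 + 1) ^ 2 * L) := by
    rw [hK3]
    refine mul_le_mul_of_nonneg_left ?_ hP0
    have e : H * (((2 * C1 + 1) * (H * U) / T) ^ 2 * (2 * L * Y)) =
        (2 * (2 * C1 + 1) ^ 2 * L) * (H ^ 3 * U ^ 2 * Y / T ^ 2) := by
      field_simp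
    rw [e]
    have h : H ^ 3 * U ^ 2 * Y / T ^ 2 ≤ 4 := by
      rw [div_le_iff₀ (by positivity)]
      exact p6
    calc (2 * (2 * C1 + 1) ^ 2 * L) * (H ^ 3 * U ^ 2 * Y / T ^ 2) ≤
          (2 * (2 * C1 + 1) ^ 2 * L) * 4 := mul_le_mul_of_nonneg_left h (by positivity)
      _ = _ := by ring
  have hK4' : K4 ≤ P := by
    rw [hK4]
    calc P * (H * (T ^ (-(1 / 8) : ℝ)) ^ 2) ≤ P * 1 := mul_le_mul_of_nonneg_left p7 hP0
      _ = P := mul_one P
  have hHN : 0 ≤ H / N := by positivity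
  have hUK : U * (4 * K3 + 4 * K4) ≤
      (32 * (2 * C1 + 1) ^ 2 + 4) * L ^ 2 * (U * (1 + H / N)) * P := by
    have h1 : 4 * K3 + 4 * K4 ≤ (32 * (2 * C1 + 1) ^ 2 + 4) * L ^ 2 * P := by
      have h2 : 4 * K3 ≤ 32 * (2 * C1 + 1) ^ 2 * L ^ 2 * P := by
        calc 4 * K3 ≤ 4 * (P * (8 * (2 * C1 + 1) ^ 2 * L)) := by linarith
          _ = 32 * (2 * C1 + 1) ^ 2 * P * L := by ring
          _ ≤ 32 * (2 * C1 + 1) ^ 2 * P * L ^ 2 := by
            have : L ≤ L ^ 2 := by nlinarith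
            gcongr
          _ = _ := by ring
      have h3 : 4 * K4 ≤ 4 * L ^ 2 * P := by
        have : 1 ≤ L ^ 2 := one_le_pow₀ hL
        nlinarith
      linarith
    calc U * (4 * K3 + 4 * K4) ≤ U * ((32 * (2 * C1 + 1) ^ 2 + 4) * L ^ 2 * P) := by gcongr
      _ = (32 * (2 * C1 + 1) ^ 2 + 4) * L ^ 2 * (U * 1) * P := by ring
      _ ≤ (32 * (2 * C1 + 1) ^ 2 + 4) * L ^ 2 * (U * (1 + H / N)) * P := by
        gcongr
        linarith
  have hmain : C2 * L ^ 2 * (H * U / N + H + U + Y) * P ≤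
      3 * C2 * L ^ 2 * (U * (1 + H / N)) * P := by
    have h1 : H * U / N + H + U + Y ≤ 3 * (U * (1 + H / N)) := by
      have e : U * (1 + H / N) = U + H * U / N := by ring
      rw [e]
      have : 0 ≤ H * U / N := by positivity
      linarith
    calc C2 * L ^ 2 * (H * U / N + H + U + Y) * P ≤ C2 * L ^ 2 * (3 * (U * (1 + H / N))) * P := by
          gcongr
      _ = _ := by ring
  have hfin : 4 * (C2 * L ^ 2 * (H * U / N + H + U + Y) * P) +
      4 * (C2 * L ^ 2 * (H * U / N + H + U + Y) * P) + U * (4 * K3 + 4 * K4) ≤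
      (24 * C2 + 32 * (2 * C1 + 1) ^ 2 + 4) * L ^ 2 * (U * (1 + H / N)) * P := by
    calc _ ≤ 4 * (3 * C2 * L ^ 2 * (U * (1 + H / N)) * P) +
          4 * (3 * C2 * L ^ 2 * (U * (1 + H / N)) * P) +
          (32 * (2 * C1 + 1) ^ 2 + 4) * L ^ 2 * (U * (1 + H / N)) * P := by linarith
      _ = _ := by ring
  by_cases hint : IntervalIntegrable
      (fun c => ‖∫ t in T..(T + H), F t * (z (t + c) - GN N (t + c))‖ ^ 2) volume 0 U
  · have hc1 : Continuous fun c => 4 * ‖S1 c‖ ^ 2 := continuous_const.mul (hS1c.norm.pow 2)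
    have hc2 : Continuous fun c => 4 * ‖S2 c‖ ^ 2 := continuous_const.mul (hS2c.norm.pow 2)
    have hc12 : Continuous fun c => 4 * ‖S1 c‖ ^ 2 + 4 * ‖S2 c‖ ^ 2 := hc1.add hc2
    have hc3 : Continuous fun _ : ℝ => 4 * K3 + 4 * K4 := continuous_const
    have hc123 : Continuous fun c => 4 * ‖S1 c‖ ^ 2 + 4 * ‖S2 c‖ ^ 2 + (4 * K3 + 4 * K4) :=
      hc12.add hc3
    calc ∫ c in (0 : ℝ)..U, ‖∫ t in T..(T + H), F t * (z (t + c) - GN N (t + c))‖ ^ 2
        ≤ ∫ c in (0 : ℝ)..U, (4 * ‖S1 c‖ ^ 2 + 4 * ‖S2 c‖ ^ 2 + (4 * K3 + 4 * K4)) := by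
          refine intervalIntegral.integral_mono_on hU0 hint ?_ hpt
          exact hc123.intervalIntegrable _ _
      _ = 4 * (∫ c in (0 : ℝ)..U, ‖S1 c‖ ^ 2) + 4 * (∫ c in (0 : ℝ)..U, ‖S2 c‖ ^ 2) +
            U * (4 * K3 + 4 * K4) := by
          rw [intervalIntegral.integral_add (hc12.intervalIntegrable _ _)
              (hc3.intervalIntegrable _ _),
            intervalIntegral.integral_add (hc1.intervalIntegrable _ _)
              (hc2.intervalIntegrable _ _), intervalIntegral.integral_const_mul,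
            intervalIntegral.integral_const_mul, intervalIntegral.integral_const, sub_zero,
            smul_eq_mul]
      _ ≤ 4 * (C2 * L ^ 2 * (H * U / N + H + U + Y) * P) +
            4 * (C2 * L ^ 2 * (H * U / N + H + U + Y) * P) + U * (4 * K3 + 4 * K4) := by
          gcongr
      _ ≤ _ := hfin
  · rw [intervalIntegral.integral_undef hint]
    positivity

end

end Pool.Agent.H27.SW.OW
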