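import Pool.Agent.H27.SW.Stm
import Pool.Agent.H27.G.R_pool_sql_team_seeded_63374d34.N879.PU.Ku
import Pool.Agent.H27.G.R_pool_sql_team_seeded_63374d34.N879.PU.Mv

set_option autoImplicit false

/-! Project SW (helper27), PB: a Dirichlet polynomial without its short part, as an operator (helper96). -/

namespace Pool.Agent.H27.SW.PB

open Complex Filter Topology MeasureTheory Set
open Pool.Agent.N879.PZ (Wb)
open Pool.Agent.N879.PU.Kuaux

noncomputable section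

/-- one block -/
lemma blk {C2 C3 : ℝ} (hC2 : 0 < C2) (hC3 : 0 < C3)
    (hms : ∀ (M : ℕ) (a b : ℝ) (c : ℕ → ℂ), 1 ≤ M → a ≤ b →
      ∫ u in a..b, ‖∑ n ∈ Finset.Icc M (2 * M), c n * (n : ℂ) ^ (-(I * u))‖ ^ 2 ≤
        C2 * ((b - a) + M) * ∑ n ∈ Finset.Icc M (2 * M), ‖c n‖ ^ 2)
    (hmt : ∀ (M : ℕ) (a b : ℝ) (F : ℝ → ℂ), 1 ≤ M → a ≤ b → Wb a b F →
      ∑ n ∈ Finset.Icc M (2 * M), ‖∫ t in a..b, F t * (n : ℂ) ^ (-(I * t))‖ ^ 2 ≤
        C3 * ((b - a) + M) * ∫ t in a..b, ‖F t‖ ^ 2)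
    {T H U : ℝ} {N Y K : ℕ} {w : ℕ → ℂ} {F : ℝ → ℂ} (hH1 : 1 ≤ H)
    (hU1 : 1 ≤ U) (hN1 : 1 ≤ N) (hw : ∀ n, 1 ≤ n → ‖w n‖ ^ 2 ≤ (n : ℝ)⁻¹)
    (hF : Wb T (T + H) F) (hNK : N ≤ K)
    (hK : K ≤ Y) (S : Finset ℕ) (hS : ∀ n ∈ S, K < n ∧ n ≤ 2 * K) :
    ∫ c in (0 : ℝ)..U, ‖∑ n ∈ S, (w n * ∫ t in T..(T + H), F t * en n t) * en n c‖ ^ 2 ≤
      C2 * C3 * (H * U / N + H + U + Y) * ∫ t in T..(T + H), ‖F t‖ ^ 2 := by
  classical
  have hK1 : 1 ≤ K := hN1.trans hNK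
  have hK0 : (0 : ℝ) < K := by exact_mod_cast hK1
  have hN0 : (0 : ℝ) < N := by exact_mod_cast hN1
  have hNK' : (N : ℝ) ≤ K := by exact_mod_cast hNK
  have hKY' : (K : ℝ) ≤ Y := by exact_mod_cast hK
  have hab : T ≤ T + H := by linarith
  have hP0 : 0 ≤ ∫ t in T..(T + H), ‖F t‖ ^ 2 :=
    intervalIntegral.integral_nonneg hab fun t _ => by positivity
  set P := ∫ t in T..(T + H), ‖F t‖ ^ 2 with hPd
  set α : ℕ → ℂ := fun n => ∫ t in T..(T + H), F t * en n t with hα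
  set cc : ℕ → ℂ := fun n => if n ∈ S then w n * α n else 0 with hcc
  have hSsub : S ⊆ Finset.Icc K (2 * K) := by
    intro n hn
    have := hS n hn
    rw [Finset.mem_Icc]
    omega
  have e1 : ∀ c : ℝ, ∑ n ∈ S, (w n * α n) * en n c =
      ∑ n ∈ Finset.Icc K (2 * K), cc n * (n : ℂ) ^ (-(I * c)) := by
    intro c
    rw [← Finset.sum_subset hSsub (fun n _ hn => by
      show cc n * (n : ℂ) ^ (-(I * c)) = 0
      rw [hcc]
      simp only
      rw [if_neg hn, zero_mul])]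
    refine Finset.sum_congr rfl fun n hn => ?_
    rw [hcc]
    simp only
    rw [if_pos hn]
    rfl
  have h1 := hms K 0 U cc hK1 (by linarith)
  have h2 := hmt K T (T + H) F hK1 hab hF
  have h3 : ∑ n ∈ Finset.Icc K (2 * K), ‖cc n‖ ^ 2 ≤
      (K : ℝ)⁻¹ * ∑ n ∈ Finset.Icc K (2 * K), ‖α n‖ ^ 2 := by
    rw [Finset.mul_sum]
    refine Finset.sum_le_sum fun n hn => ?_
    have hn1 : K ≤ n := (Finset.mem_Icc.1 hn).1
    have hn0 : 1 ≤ n := hK1.trans hn1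
    rw [hcc]
    simp only
    split_ifs
    · rw [norm_mul, mul_pow]
      refine mul_le_mul_of_nonneg_right ((hw n hn0).trans ?_) (by positivity)
      exact inv_anti₀ hK0 (by exact_mod_cast hn1)
    · rw [norm_zero, zero_pow two_ne_zero]
      positivity
  have h4 : ∑ n ∈ Finset.Icc K (2 * K), ‖α n‖ ^ 2 ≤ C3 * (H + K) * P := by
    have e : T + H - T = H := by ring
    rw [e] at h2
    exact h2
  rw [sub_zero] at h1
  have e2 : ∫ c in (0 : ℝ)..U, ‖∑ n ∈ S, (w n * α n) * en n c‖ ^ 2 =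
      ∫ u in (0 : ℝ)..U, ‖∑ n ∈ Finset.Icc K (2 * K), cc n * (n : ℂ) ^ (-(I * u))‖ ^ 2 := by
    refine intervalIntegral.integral_congr fun c _ => ?_
    simp only [e1 c]
  rw [e2]
  have har : (U + K) * ((K : ℝ)⁻¹ * (H + K)) ≤ H * U / N + H + U + Y := by
    have a1 : (U + K) * ((K : ℝ)⁻¹ * (H + K)) = H * U / K + U + H + K := by
      field_simp
      ring
    have a2 : H * U / K ≤ H * U / N := div_le_div_of_nonneg_left (by positivity) hN0 hNK'
    rw [a1]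
    linarith
  calc ∫ u in (0 : ℝ)..U, ‖∑ n ∈ Finset.Icc K (2 * K), cc n * (n : ℂ) ^ (-(I * u))‖ ^ 2
      ≤ C2 * (U + K) * ∑ n ∈ Finset.Icc K (2 * K), ‖cc n‖ ^ 2 := h1
    _ ≤ C2 * (U + K) * ((K : ℝ)⁻¹ * (C3 * (H + K) * P)) := by
        refine mul_le_mul_of_nonneg_left (h3.trans ?_) (by positivity)
        exact mul_le_mul_of_nonneg_left h4 (by positivity)
    _ = C2 * C3 * ((U + K) * ((K : ℝ)⁻¹ * (H + K))) * P := by ring
    _ ≤ C2 * C3 * (H * U / N + H + U + Y) * P := by gcongr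

theorem main : S_PB := by
  classical
  obtain ⟨C2, hC2, hms⟩ := Pool.Agent.N879.PU.t_MVS
  obtain ⟨C3, hC3, hmt⟩ := Pool.Agent.N879.PU.t_MVT Pool.Agent.N879.PU.t_MVS
  refine ⟨49 * (C2 * C3), by positivity, ?_⟩
  intro T H U N Y w F hT hH1 hHT hU1 hUT hN1 hNY hYT hw hF
  have hT0 : 0 < T := by linarith
  have hU0 : 0 ≤ U := by linarith
  have hN0 : (0 : ℝ) < N := by exact_mod_cast hN1
  have hYn : 1 ≤ Y := hN1.trans hNY
  have hab : T ≤ T + H := by linarith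
  have hP0 : 0 ≤ ∫ t in T..(T + H), ‖F t‖ ^ 2 :=
    intervalIntegral.integral_nonneg hab fun t _ => by positivity
  set L := Real.log T with hLd
  set P := ∫ t in T..(T + H), ‖F t‖ ^ 2 with hPd
  set S := Finset.Ioc N Y with hS
  have hSn : ∀ n ∈ S, 1 ≤ n := fun n hn => by
    have := (Finset.mem_Ioc.1 hn).1
    omega
  set ζ : ℕ → ℂ := fun n => w n * ∫ t in T..(T + H), F t * en n t with hζ
  set r := Nat.log 2 Y + 1 with hrd
  have hr : (r : ℝ) ≤ 7 * L := by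
    rw [hrd]
    push_cast
    exact log_blk hT hYn (by linarith)
  have hex : ∀ n ∈ S, ∃ i < r, N * 2 ^ i < n ∧ n ≤ N * 2 ^ (i + 1) := by
    intro n hn
    rw [hS, Finset.mem_Ioc] at hn
    refine exists_blk r ?_ hn.1
    have h5 := Nat.lt_pow_succ_log_self (b := 2) (by norm_num) Y
    have h6 : 2 ^ r ≤ N * 2 ^ r := Nat.le_mul_of_pos_left _ hN1
    have h7 : 2 ^ (Nat.log 2 Y).succ = 2 ^ r := rfl
    have h8 := hn.2
    omega
  have hind : ∃ ind : ℕ → ℕ, ∀ n ∈ S, ind n < r ∧ N * 2 ^ (ind n) < n ∧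
      n ≤ N * 2 ^ (ind n + 1) := by
    refine ⟨fun n => if h : n ∈ S then (hex n h).choose else 0, fun n hn => ?_⟩
    simp only [hn, dif_pos]
    exact (hex n hn).choose_spec
  obtain ⟨ind, hind⟩ := hind
  have hc1 : ∀ S' : Finset ℕ, S' ⊆ S → Continuous fun c => ‖∑ n ∈ S', ζ n * en n c‖ ^ 2 := by
    intro S' hS'
    refine (Continuous.norm ?_).pow 2
    exact continuous_finsetSum _ fun n hn => continuous_const.mul (en_cont (hSn n (hS' hn)))
  set Bd := C2 * C3 * (H * U / N + H + U + Y) * P with hBd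
  have hBd0 : 0 ≤ Bd := by positivity
  have h4 : ∀ c : ℝ, ‖∑ n ∈ S, ζ n * en n c‖ ^ 2 ≤
      r * ∑ i ∈ Finset.range r, ‖∑ n ∈ S.filter (fun n => ind n = i), ζ n * en n c‖ ^ 2 := by
    intro c
    rw [← Finset.sum_fiberwise_of_maps_to (s := S) (t := Finset.range r) (g := ind)
      (fun n hn => Finset.mem_range.2 (hind n hn).1)]
    have := norm_sum_sq (Finset.range r)
      (fun i => ∑ n ∈ S.filter (fun n => ind n = i), ζ n * en n c)
    rwa [Finset.card_range] at this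
  have h5 : ∀ i ∈ Finset.range r, ∫ c in (0 : ℝ)..U,
      ‖∑ n ∈ S.filter (fun n => ind n = i), ζ n * en n c‖ ^ 2 ≤ Bd := by
    intro i hi
    rcases Finset.eq_empty_or_nonempty (S.filter (fun n => ind n = i)) with hem' | ⟨n₀, hn₀⟩
    · rw [hem']
      simpa using hBd0
    · rw [Finset.mem_filter] at hn₀
      have h6 := (hind n₀ hn₀.1).2.1
      rw [hn₀.2] at h6
      have h7 : n₀ ≤ Y := (Finset.mem_Ioc.1 hn₀.1).2
      have h8 : N * 2 ^ i ≤ Y := by omega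
      refine blk hC2 hC3 hms hmt (K := N * 2 ^ i) hH1 hU1 hN1 hw hF
        (Nat.le_mul_of_pos_right _ (by positivity)) h8 _ ?_
      intro n hn
      rw [Finset.mem_filter] at hn
      obtain ⟨-, h10, h11⟩ := hind n hn.1
      rw [hn.2] at h10 h11
      refine ⟨h10, ?_⟩
      rw [pow_succ] at h11
      linarith
  have hmain : ∫ c in (0 : ℝ)..U, ‖∑ n ∈ S, ζ n * en n c‖ ^ 2 ≤ (7 * L) ^ 2 * Bd := by
    calc ∫ c in (0 : ℝ)..U, ‖∑ n ∈ S, ζ n * en n c‖ ^ 2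
        ≤ ∫ c in (0 : ℝ)..U, r * ∑ i ∈ Finset.range r,
            ‖∑ n ∈ S.filter (fun n => ind n = i), ζ n * en n c‖ ^ 2 := by
          refine intervalIntegral.integral_mono_on hU0 ?_ ?_ fun c _ => h4 c
          · exact (hc1 S (Finset.Subset.refl _)).intervalIntegrable _ _
          · exact (continuous_const.mul (continuous_finsetSum _ fun i _ =>
              hc1 _ (Finset.filter_subset _ _))).intervalIntegrable _ _
      _ = r * ∑ i ∈ Finset.range r, ∫ c in (0 : ℝ)..U,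
            ‖∑ n ∈ S.filter (fun n => ind n = i), ζ n * en n c‖ ^ 2 := by
          rw [intervalIntegral.integral_const_mul, intervalIntegral.integral_finsetSum]
          intro i _
          exact (hc1 _ (Finset.filter_subset _ _)).intervalIntegrable _ _
      _ ≤ r * ∑ i ∈ Finset.range r, Bd := by
          gcongr with i hi
          exact h5 i hi
      _ = (r : ℝ) ^ 2 * Bd := by
          rw [Finset.sum_const, Finset.card_range, nsmul_eq_mul]
          ring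
      _ ≤ (7 * L) ^ 2 * Bd := by gcongr
  calc ∫ c in (0 : ℝ)..U, ‖∑ n ∈ Finset.Ioc N Y, w n * (∫ t in T..(T + H), F t *
        (n : ℂ) ^ (-(I * (t : ℂ)))) * (n : ℂ) ^ (-(I * (c : ℂ)))‖ ^ 2
      = ∫ c in (0 : ℝ)..U, ‖∑ n ∈ S, ζ n * en n c‖ ^ 2 := rfl
    _ ≤ (7 * L) ^ 2 * Bd := hmain
    _ = _ := by rw [hBd]; ring

end

end Pool.Agent.H27.SW.PB
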