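import Pool.Agent.H27.SW.Stm
import Pool.Agent.H27.G.R_seed8.TH367.GS.SS
import Pool.Agent.H27.G.R_seed8.TH347.GS.A4
import Pool.Agent.H27.G.R_seed8.TH811.GS.One
import Pool.Agent.H27.G.R_seed8.TH228.GS.ZM
import Pool.Agent.H27.G.R_seed8.TH448.GS.FL2
import Pool.Agent.H27.G.R_seed8.TH753.GS.GL2
import Pool.Agent.H27.G.R_seed8.TH757.GS.CONT
import Pool.Agent.H27.G.R_seed8.TH928.GS.MV

set_option autoImplicit false

/-! Job PRM of project SW. -/

namespace Pool.Agent.H27.SW.PRM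

open Complex Filter Topology MeasureTheory Set
open Pool.Agent.TH612.CF
open Pool.Agent.TH612.GS
open Pool.Agent.H27.SW

variable {k : ℕ}

lemma three (a b c : ℂ) : ENNReal.ofReal (‖a + b + c‖ ^ 2) ≤
    3 * (ENNReal.ofReal (‖a‖ ^ 2) + (ENNReal.ofReal (‖b‖ ^ 2) + ENNReal.ofReal (‖c‖ ^ 2))) := by
  have h3 : (3 : ENNReal) = ENNReal.ofReal 3 := by norm_num
  rw [← ENNReal.ofReal_add (by positivity) (by positivity),
    ← ENNReal.ofReal_add (by positivity) (by positivity), h3, ← ENNReal.ofReal_mul (by norm_num)]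
  refine ENNReal.ofReal_le_ofReal ?_
  have h1 : ‖a + b + c‖ ≤ ‖a‖ + ‖b‖ + ‖c‖ :=
    (norm_add_le _ _).trans (add_le_add (norm_add_le _ _) le_rfl)
  have h2 : ‖a + b + c‖ ^ 2 ≤ (‖a‖ + ‖b‖ + ‖c‖) ^ 2 :=
    pow_le_pow_left₀ (norm_nonneg _) h1 2
  nlinarith [sq_nonneg (‖a‖ - ‖b‖), sq_nonneg (‖a‖ - ‖c‖), sq_nonneg (‖b‖ - ‖c‖)]

/-- permutation of the coordinates preserves the measure and the separated vectors -/
lemma perm_int (U : ℝ) (π : Equiv.Perm (Fin k ⊕ Fin k)) (F : (Fin k ⊕ Fin k → ℝ) → ENNReal) :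
    ∫⁻ γ in Sep k U, F (fun i => γ (π i)) ∂(mP (Fin k ⊕ Fin k) U) =
      ∫⁻ γ in Sep k U, F γ ∂(mP (Fin k ⊕ Fin k) U) := by
  set e := MeasurableEquiv.piCongrLeft (fun _ : Fin k ⊕ Fin k => ℝ) π.symm with he
  have hmp : MeasurePreserving e (mP (Fin k ⊕ Fin k) U) (mP (Fin k ⊕ Fin k) U) :=
    measurePreserving_piCongrLeft (α := fun _ : Fin k ⊕ Fin k => ℝ)
      (fun _ => volume.restrict (Icc 0 U)) π.symm
  have hap : ∀ γ : Fin k ⊕ Fin k → ℝ, e γ = fun i => γ (π i) := by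
    intro γ
    funext i
    have := Equiv.piCongrLeft_apply_apply (fun _ : Fin k ⊕ Fin k => ℝ) π.symm γ (π i)
    rw [Equiv.symm_apply_apply] at this
    exact this
  have hpre : e ⁻¹' Sep k U = Sep k U := by
    ext γ
    simp only [mem_preimage, hap, Pool.Agent.TH612.GS.Sep, mem_ofPred_eq]
    constructor
    · rintro ⟨h1, h2⟩
      refine ⟨fun i => by simpa using h1 (π.symm i), fun p q hpq => ?_⟩
      have := h2 (π.symm p) (π.symm q) (fun h => hpq (π.symm.injective h))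
      simpa using this
    · rintro ⟨h1, h2⟩
      exact ⟨fun i => h1 (π i), fun p q hpq => h2 (π p) (π q) fun h => hpq (π.injective h)⟩
  have h := hmp.setLIntegral_comp_preimage_emb e.measurableEmbedding F (Sep k U)
  rw [hpre] at h
  simp_rw [hap] at h
  exact h

theorem main : S_PRM := by
  intro k
  obtain ⟨ψ, hψ⟩ := exists_cut
  obtain ⟨C3, hC3, h3⟩ := Pool.Agent.TH367.GS.t_SS Pool.Agent.TH448.GS.t_FL2 k ψ hψ
  obtain ⟨C4, M0, hC4, hM0, h4⟩ := Pool.Agent.TH347.GS.t_A4 Pool.Agent.TH757.GS.t_CONT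
    (Pool.Agent.TH753.GS.t_GL2 Pool.Agent.TH448.GS.t_FL2) k ψ hψ
  obtain ⟨C5, T5, B5, hC5, hT5, h5⟩ := Pool.Agent.TH228.GS.t_ZM
    (Pool.Agent.TH811.GS.t_ONE Pool.Agent.TH928.GS.t_MV) k
  refine ⟨3 * (C3 + C4 + C5), T5, B5, M0, 4 * k + 2 + 3 * k ^ 2 + 2, by positivity, hT5, hM0,
    by omega, fun U N π hU hN hNU => ?_⟩
  have hN2 : 2 ≤ N := hM0.trans hN
  have hN1 : (1 : ℝ) ≤ N := by exact_mod_cast (by omega : 1 ≤ N)
  have hN0 : (0 : ℝ) < N := by linarith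
  have hU3 : 3 ≤ U := hT5.trans hU
  have hlog : 1 ≤ Real.log U := by
    rw [Real.le_log_iff_exp_le (by linarith)]
    exact (Real.exp_one_lt_d9.le.trans (by norm_num)).trans hU3
  have hlogB : 1 ≤ Real.log U ^ B5 := one_le_pow₀ hlog
  have hpow : ∀ m : ℕ, m ≤ 4 * k + 2 + 3 * k ^ 2 + 2 → 2 * (N : ℝ) ^ m ≤ U := fun m hm =>
    le_trans (by have := pow_le_pow_right₀ hN1 hm; linarith) hNU
  have a3 := h3 U N hN2 (hpow _ (by omega))
  have a4 := h4 U N hN (by linarith) (hpow _ (by omega))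
  have hsq : (N : ℝ) ≤ U ^ (1 / 2 : ℝ) := by
    rw [← Real.sqrt_eq_rpow]
    refine Real.le_sqrt_of_sq_le ?_
    have := hpow 2 (by omega)
    nlinarith [sq_nonneg (N : ℝ)]
  have a5 := h5 U N hU (by omega) hsq
  have e1 : ∀ γ : Fin k ⊕ Fin k → ℝ, zp γ π = zr (fun i => γ (π i)) := fun γ => rfl
  simp_rw [e1]
  rw [perm_int U π fun γ => ENNReal.ofReal (‖SN N γ - zr γ‖ ^ 2)]
  have m1 : Measurable fun γ : Fin k ⊕ Fin k → ℝ => ENNReal.ofReal (‖SN N γ - SP ψ N γ‖ ^ 2) :=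
    ((((SN_cont N).sub (SP_cont ψ N)).norm.pow 2).measurable).ennreal_ofReal
  have m2 : Measurable fun γ : Fin k ⊕ Fin k → ℝ => ENNReal.ofReal (‖SP ψ N γ - GM N γ 0‖ ^ 2) :=
    ((((SP_cont ψ N).sub (GM0_cont N)).norm.pow 2).measurable).ennreal_ofReal
  have hNinv : 1 / (N : ℝ) ≤ (N : ℝ) ^ (-(1 / 8) : ℝ) := by
    rw [one_div, ← Real.rpow_neg_one]
    exact Real.rpow_le_rpow_of_exponent_le hN1 (by norm_num)
  have hUk : 0 < U ^ (2 * k) := by positivity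
  have hNp : 0 < (N : ℝ) ^ (-(1 / 8) : ℝ) := by positivity
  calc ∫⁻ γ in Sep k U, ENNReal.ofReal (‖SN N γ - zr γ‖ ^ 2) ∂(mP (Fin k ⊕ Fin k) U)
      ≤ ∫⁻ γ in Sep k U, 3 * (ENNReal.ofReal (‖SN N γ - SP ψ N γ‖ ^ 2) +
          (ENNReal.ofReal (‖SP ψ N γ - GM N γ 0‖ ^ 2) +
            ENNReal.ofReal (‖GM N γ 0 - zr γ‖ ^ 2))) ∂(mP (Fin k ⊕ Fin k) U) := by
        refine lintegral_mono fun γ => ?_
        have := three (SN N γ - SP ψ N γ) (SP ψ N γ - GM N γ 0) (GM N γ 0 - zr γ)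
        simpa using this
    _ = 3 * (∫⁻ γ in Sep k U, ENNReal.ofReal (‖SN N γ - SP ψ N γ‖ ^ 2) ∂(mP (Fin k ⊕ Fin k) U) +
          (∫⁻ γ in Sep k U, ENNReal.ofReal (‖SP ψ N γ - GM N γ 0‖ ^ 2) ∂(mP (Fin k ⊕ Fin k) U) +
            ∫⁻ γ in Sep k U, ENNReal.ofReal (‖GM N γ 0 - zr γ‖ ^ 2) ∂(mP (Fin k ⊕ Fin k) U))) := by
        rw [lintegral_const_mul' _ _ (by norm_num), lintegral_add_left m1, lintegral_add_left m2]
    _ ≤ 3 * (ENNReal.ofReal (C3 * U ^ (2 * k) * (N : ℝ) ^ (-(1 / 8) : ℝ)) +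
          (ENNReal.ofReal (C4 * U ^ (2 * k) * (N : ℝ) ^ (-(1 / 8) : ℝ)) +
            ENNReal.ofReal (C5 * Real.log U ^ B5 * U ^ (2 * k) / N))) := by
        gcongr
        · exact (setLIntegral_le_lintegral _ _).trans a3
        · exact (setLIntegral_le_lintegral _ _).trans a4
    _ = ENNReal.ofReal (3 * (C3 * U ^ (2 * k) * (N : ℝ) ^ (-(1 / 8) : ℝ) +
          (C4 * U ^ (2 * k) * (N : ℝ) ^ (-(1 / 8) : ℝ) +
            C5 * Real.log U ^ B5 * U ^ (2 * k) / N))) := by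
        have hl0 : 0 ≤ Real.log U := by linarith
        rw [← ENNReal.ofReal_add (by positivity) (by positivity),
          ← ENNReal.ofReal_add (by positivity) (by positivity)]
        have h3 : (3 : ENNReal) = ENNReal.ofReal 3 := by norm_num
        rw [h3, ← ENNReal.ofReal_mul (by norm_num)]
    _ ≤ _ := by
        refine ENNReal.ofReal_le_ofReal ?_
        have hl0 : 0 ≤ Real.log U := by linarith
        have x1 : C3 * U ^ (2 * k) * (N : ℝ) ^ (-(1 / 8) : ℝ) ≤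
            C3 * Real.log U ^ B5 * U ^ (2 * k) * (N : ℝ) ^ (-(1 / 8) : ℝ) := by
          have : C3 ≤ C3 * Real.log U ^ B5 := le_mul_of_one_le_right hC3.le hlogB
          gcongr
        have x2 : C4 * U ^ (2 * k) * (N : ℝ) ^ (-(1 / 8) : ℝ) ≤
            C4 * Real.log U ^ B5 * U ^ (2 * k) * (N : ℝ) ^ (-(1 / 8) : ℝ) := by
          have : C4 ≤ C4 * Real.log U ^ B5 := le_mul_of_one_le_right hC4.le hlogB
          gcongr
        have x3 : C5 * Real.log U ^ B5 * U ^ (2 * k) / N ≤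
            C5 * Real.log U ^ B5 * U ^ (2 * k) * (N : ℝ) ^ (-(1 / 8) : ℝ) := by
          rw [div_eq_mul_one_div]
          gcongr
        have x4 : 3 * (C3 + C4 + C5) * Real.log U ^ B5 * U ^ (2 * k) * (N : ℝ) ^ (-(1 / 8) : ℝ) =
            3 * (C3 * Real.log U ^ B5 * U ^ (2 * k) * (N : ℝ) ^ (-(1 / 8) : ℝ) +
              (C4 * Real.log U ^ B5 * U ^ (2 * k) * (N : ℝ) ^ (-(1 / 8) : ℝ) +
                C5 * Real.log U ^ B5 * U ^ (2 * k) * (N : ℝ) ^ (-(1 / 8) : ℝ))) := by ring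
        rw [x4]
        linarith

end Pool.Agent.H27.SW.PRM
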