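import Pool.Agent.H27.SW.Stm
import Pool.Agent.H27.G.R_pool_sql_team_seeded_63374d34.N879.PU.Ku
import Pool.Agent.H27.G.R_pool_sql_team_seeded_63374d34.N879.PU.Mv
import Pool.Agent.H27.G.R_pool_sql_team_seeded_63374d34.N879.PU.Sms
import Pool.Agent.H27.G.R_pool_sql_team_seeded_63374d34.N879.PU.Winu

set_option autoImplicit false

/-! Project SW (helper27), VB: second moments in short intervals (helper96). -/

namespace Pool.Agent.H27.SW.VB

open Complex Filter Topology MeasureTheory Set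
open Pool.Agent.TH612.CF
open Pool.Agent.TH612.GS
open Pool.Agent.N879.PZ (Wb)


noncomputable section

theorem main (hXL : S_XL) : S_VB := by
  obtain ⟨hXc, hX1, -⟩ := hXL
  obtain ⟨C1, A, hC1, h1⟩ := Pool.Agent.N879.PU.t_SMS
  obtain ⟨C2, hC2, h2⟩ := Pool.Agent.N879.PU.t_WINU Pool.Agent.N879.PU.t_MVS
  refine ⟨3 * 2 ^ A * C1 + 16 * C2, A + 2, by positivity, ?_⟩
  intro T U t N hT hTU hUT hTt ht2 hN hNT
  have hT0 : 0 < T := by linarith
  have hs1 : 1 ≤ T ^ (1 / 2 : ℝ) := Real.one_le_rpow (by linarith) (by norm_num)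
  have hU0 : 0 < U := by linarith
  have hU1 : 1 ≤ U := by linarith
  have hN0 : (0 : ℝ) < N := by exact_mod_cast hN
  have ht0 : 0 < t := by linarith
  have hL : 1 ≤ Real.log T := by
    rw [Real.le_log_iff_exp_le hT0]
    have := Real.exp_one_lt_d9
    linarith
  set L := Real.log T with hLd
  have hLA : L ^ A ≤ L ^ (A + 2) := pow_le_pow_right₀ hL (by omega)
  have hL2 : L ^ 2 ≤ L ^ (A + 2) := pow_le_pow_right₀ hL (by omega)
  have hlog : Real.log t ≤ 2 * L := by
    have h2 : Real.log t ≤ Real.log (2 * T) := Real.log_le_log ht0 ht2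
    have h3 : Real.log (2 * T) ≤ Real.log (T ^ 2) := by
      refine Real.log_le_log (by positivity) ?_
      nlinarith
    rw [Real.log_pow] at h3
    push_cast at h3
    linarith
  have hlog0 : 0 ≤ Real.log t := Real.log_nonneg (by linarith)
  have hsq : t ^ (1 / 2 : ℝ) ≤ 2 * U := by
    have h3 : t ^ (1 / 2 : ℝ) ≤ (4 * T) ^ (1 / 2 : ℝ) :=
      Real.rpow_le_rpow ht0.le (by linarith) (by norm_num)
    have h4 : (4 * T) ^ (1 / 2 : ℝ) = 2 * T ^ (1 / 2 : ℝ) := by
      rw [Real.mul_rpow (by norm_num) hT0.le]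
      congr 1
      rw [show (4 : ℝ) = 2 ^ (2 : ℝ) by norm_num, ← Real.rpow_mul (by norm_num)]
      norm_num
    rw [h4] at h3
    linarith
  constructor
  · have h3 := h1 t U (by linarith) hU0.le (by linarith)
    have h4 : ∫ c in (0 : ℝ)..U, ‖z (t + c)‖ ^ 2 = ∫ u in t..(t + U), ‖z u‖ ^ 2 := by
      have h5 := intervalIntegral.integral_comp_add_left (a := 0) (b := U)
        (fun u => ‖z u‖ ^ 2) t
      rw [add_zero] at h5
      exact h5
    rw [h4]
    refine h3.trans ?_
    have h5 : Real.log t ^ A ≤ (2 * L) ^ A := pow_le_pow_left₀ hlog0 hlog A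
    calc C1 * (U + t ^ (1 / 2 : ℝ)) * Real.log t ^ A ≤ C1 * (U + 2 * U) * (2 * L) ^ A := by
          gcongr
      _ = 3 * 2 ^ A * C1 * U * L ^ A := by
          rw [mul_pow]
          ring
      _ ≤ 3 * 2 ^ A * C1 * U * L ^ (A + 2) := by gcongr
      _ ≤ (3 * 2 ^ A * C1 + 16 * C2) * U * L ^ (A + 2) := by
          gcongr
          linarith
  · have h3 := h2 U t N hU1 hN (hNT.trans hTU)
    have hlogN : Real.log N ≤ L := by
      refine Real.log_le_log hN0 (hNT.trans ?_)
      calc T ^ (1 / 2 : ℝ) ≤ T ^ (1 : ℝ) := Real.rpow_le_rpow_of_exponent_le (by linarith) (by norm_num)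
        _ = T := Real.rpow_one T
    have hlogN0 : 0 ≤ Real.log N := Real.log_nonneg (by exact_mod_cast hN)
    have hGc : Continuous fun c : ℝ => ‖GN N (t + c)‖ ^ 2 := by
      have h4 : Continuous (GN N) := by
        unfold GN
        exact (PN_cont N).add (hXc.mul (Complex.continuous_conj.comp (PN_cont N)))
      exact (h4.comp (by fun_prop : Continuous fun c : ℝ => t + c)).norm.pow 2
    have hPc : Continuous fun c : ℝ => ‖PN N (t + c)‖ ^ 2 :=
      ((PN_cont N).comp (by fun_prop : Continuous fun c : ℝ => t + c)).norm.pow 2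
    have hpt : ∀ c : ℝ, ‖GN N (t + c)‖ ^ 2 ≤ 4 * ‖PN N (t + c)‖ ^ 2 := by
      intro c
      have h4 : ‖GN N (t + c)‖ ≤ 2 * ‖PN N (t + c)‖ := by
        unfold GN
        refine (norm_add_le _ _).trans ?_
        rw [norm_mul, hX1, Complex.norm_conj]
        linarith
      have h5 := pow_le_pow_left₀ (norm_nonneg _) h4 2
      rw [mul_pow] at h5
      norm_num at h5
      exact h5
    calc ∫ c in (0 : ℝ)..U, ‖GN N (t + c)‖ ^ 2 ≤ ∫ c in (0 : ℝ)..U, 4 * ‖PN N (t + c)‖ ^ 2 :=
          intervalIntegral.integral_mono_on hU0.le (hGc.intervalIntegrable _ _)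
            ((continuous_const.mul hPc).intervalIntegrable _ _) fun c _ => hpt c
      _ = 4 * ∫ c in (0 : ℝ)..U, ‖PN N (t + c)‖ ^ 2 := intervalIntegral.integral_const_mul _ _
      _ ≤ 4 * (C2 * U * (1 + Real.log N) ^ 2) := by gcongr
      _ ≤ 4 * (C2 * U * (L + L) ^ 2) := by gcongr
      _ = 16 * C2 * U * L ^ 2 := by ring
      _ ≤ 16 * C2 * U * L ^ (A + 2) := by gcongr
      _ ≤ (3 * 2 ^ A * C1 + 16 * C2) * U * L ^ (A + 2) := by
          gcongr
          have : 0 ≤ 3 * 2 ^ A * C1 := by positivity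
          linarith

end

end Pool.Agent.H27.SW.VB
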