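import Pool.Agent.H27.SW.Asm4
import Pool.Agent.H27.SW.AFW
import Pool.Agent.H27.SW.EXP
import Pool.Agent.H27.SW.EXC
import Pool.Agent.H27.SW.EXM
import Pool.Agent.H27.SW.OPL
import Pool.Agent.H27.SW.OW
import Pool.Agent.H27.SW.PB
import Pool.Agent.H27.SW.PRM
import Pool.Agent.H27.SW.VB
import Pool.Agent.H27.SW.TE
import Pool.Agent.H27.G.R_seed8.TH767.GS.NS

set_option autoImplicit false

/-! Project SW: all the parts together. -/

namespace Pool.Agent.H27.SW

theorem t_OPL : S_OPL := OPL.main (OW.main xl afw PB.main)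

theorem t_TE : S_TE := Pool.Agent.H29.SW.te xl t_OPL (VB.main xl)

theorem t_EXP : S_EXP := EXP.main exa (EXB.main xl (EXM.main xl)) EXC.main xl

theorem t_FIN : S_FIN := fin (sqa (cor xl t_TE t_EXP PRM.main)) Pool.Agent.TH767.GS.t_NS

end Pool.Agent.H27.SW
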