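import Pool.Agent.H27.SW.Stm
import Pool.Agent.H27.G.R_pool_sql_team_seeded_63374d34.N879.PU.Asm2

set_option autoImplicit false

/-! Project SW: assembly, first part (decomposition, continuity, the core estimate). -/

namespace Pool.Agent.H27.SW

open Complex Filter Topology MeasureTheory Set
open Pool.Agent.TH612.CF
open Pool.Agent.TH612.GS
open Pool.Agent.N879.PU (fs fs_cont fs_prod fs_norm card_ii)

noncomputable section

variable {k : ℕ}

/-- the quantity of interest -/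
def DT (T H : ℝ) (γ : Fin k ⊕ Fin k → ℝ) : ℂ :=
  ∫ t in T..(T + H), (Zg γ t - ((Nat.factorial k : ℂ) ^ 2)⁻¹ * Qs t (fun i => (γ i : ℂ)))

/-- the integral of a swap factor -/
def IT (T H : ℝ) (γ : Fin k ⊕ Fin k → ℝ) (π : Equiv.Perm (Fin k ⊕ Fin k)) : ℂ :=
  ∫ t in T..(T + H), GG t (fun i => (γ i : ℂ)) π

/-- the first error -/
def E1 (T H : ℝ) (N : ℕ) (γ : Fin k ⊕ Fin k → ℝ) : ℂ :=
  ∫ t in T..(T + H), (∏ i, fs z i (t + γ i) - ∏ i, fs (GN N) i (t + γ i))

/-- the second error -/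
def E2 (T H : ℝ) (N : ℕ) (γ : Fin k ⊕ Fin k → ℝ) : ℂ :=
  (∫ t in T..(T + H), ∏ i, fs (GN N) i (t + γ i)) - ((Nat.factorial k : ℂ) ^ 2)⁻¹ *
      ∑ π : Equiv.Perm (Fin k ⊕ Fin k), (∫ t in T..(T + H), GG t (fun i => (γ i : ℂ)) π) *
        SN N (fun i => γ (π i))

/-- the third error -/
def E3 (T H : ℝ) (N : ℕ) (γ : Fin k ⊕ Fin k → ℝ) : ℂ :=
  ((Nat.factorial k : ℂ) ^ 2)⁻¹ *
      ∑ π : Equiv.Perm (Fin k ⊕ Fin k), IT T H γ π * (SN N (fun i => γ (π i)) - zp γ π)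

lemma GN_cont (hXL : S_XL) (N : ℕ) : Continuous (GN N) := by
  unfold GN
  exact (PN_cont N).add (hXL.1.mul (Complex.continuous_conj.comp (PN_cont N)))

lemma prod_fs_cont {f : ℝ → ℂ} (hf : Continuous f) (γ : Fin k ⊕ Fin k → ℝ) :
    Continuous fun t : ℝ => ∏ i, fs f i (t + γ i) :=
  continuous_finsetProd _ fun i _ => (fs_cont hf i).comp (by fun_prop)

lemma DT_eq (hXL : S_XL) (T H : ℝ) (N : ℕ) (γ : Fin k ⊕ Fin k → ℝ) :
    DT T H γ = E1 T H N γ + E2 T H N γ + E3 T H N γ := by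
  unfold DT E1 E2 E3 IT
  have hq : IntervalIntegrable (fun t : ℝ => ((Nat.factorial k : ℂ) ^ 2)⁻¹ *
      Qs t (fun i => (γ i : ℂ))) volume T (T + H) :=
    (continuous_const.mul (Qs_cont γ)).intervalIntegrable _ _
  rw [intervalIntegral.integral_sub ((Zg_cont γ).intervalIntegrable _ _) hq,
    intervalIntegral.integral_const_mul, int_Qs,
    intervalIntegral.integral_sub ((prod_fs_cont z_cont γ).intervalIntegrable _ _)
      ((prod_fs_cont (GN_cont hXL N) γ).intervalIntegrable _ _)]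
  have h1 : (∫ t in T..(T + H), Zg γ t) = ∫ t in T..(T + H), ∏ i, fs z i (t + γ i) := by
    refine intervalIntegral.integral_congr fun t _ => ?_
    simp only [Zg_fz, fs_prod]
  rw [h1]
  simp only [mul_sub, Finset.sum_sub_distrib]
  ring

lemma IT_norm {T H : ℝ} (hH : 0 ≤ H) (γ : Fin k ⊕ Fin k → ℝ) (π : Equiv.Perm (Fin k ⊕ Fin k)) :
    ‖IT T H γ π‖ ≤ H := by
  unfold IT
  refine (intervalIntegral.norm_integral_le_of_norm_le_const (C := 1) fun t _ => (norm_GG t γ π).le).trans ?_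
  rw [one_mul, add_sub_cancel_left, abs_of_nonneg hH]

/-- permuting the coordinates -/
lemma Sep_perm {U : ℝ} {γ : Fin k ⊕ Fin k → ℝ} (hγ : γ ∈ Sep k U) (π : Equiv.Perm (Fin k ⊕ Fin k)) :
    (fun i => γ (π i)) ∈ Sep k U :=
  ⟨fun _ => hγ.1 _, fun _ _ h => hγ.2 _ _ fun e => h (π.injective e)⟩

lemma zp_cont {U : ℝ} (hU : 1 ≤ U) (π : Equiv.Perm (Fin k ⊕ Fin k)) :
    ContinuousOn (fun γ : Fin k ⊕ Fin k → ℝ => zp γ π) (Sep k U) := by
  have h1 : (fun γ : Fin k ⊕ Fin k → ℝ => zp γ π) =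
      (fun γ : Fin k ⊕ Fin k → ℝ => zr γ) ∘ fun γ : Fin k ⊕ Fin k → ℝ => fun i => γ (π i) := rfl
  rw [h1]
  refine (zr_cont hU).comp (Continuous.continuousOn (by fun_prop)) fun γ hγ => Sep_perm hγ π

lemma IT_cont (T H : ℝ) (π : Equiv.Perm (Fin k ⊕ Fin k)) :
    Continuous fun γ : Fin k ⊕ Fin k → ℝ => IT T H γ π := by
  unfold IT
  exact intervalIntegral.continuous_parametric_intervalIntegral_of_continuous
    (f := fun (γ : Fin k ⊕ Fin k → ℝ) (t : ℝ) => GG t (fun i => (γ i : ℂ)) π) (GG_cont_2 π)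
    continuous_const

lemma DT_cont (T H : ℝ) {U : ℝ} (hU : 1 ≤ U) :
    ContinuousOn (fun γ : Fin k ⊕ Fin k → ℝ => DT T H γ) (Sep k U) := by
  have h1 : ∀ γ : Fin k ⊕ Fin k → ℝ, DT T H γ = (∫ t in T..(T + H), Zg γ t) -
      ((Nat.factorial k : ℂ) ^ 2)⁻¹ * ∑ π : Equiv.Perm (Fin k ⊕ Fin k), IT T H γ π * zp γ π := by
    intro γ
    unfold DT IT
    have hq : IntervalIntegrable (fun t : ℝ => ((Nat.factorial k : ℂ) ^ 2)⁻¹ *
        Qs t (fun i => (γ i : ℂ))) volume T (T + H) :=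
      (continuous_const.mul (Qs_cont γ)).intervalIntegrable _ _
    rw [intervalIntegral.integral_sub ((Zg_cont γ).intervalIntegrable _ _) hq,
      intervalIntegral.integral_const_mul, int_Qs]
  simp only [h1]
  refine ContinuousOn.sub (Continuous.continuousOn ?_) (continuousOn_const.mul ?_)
  · simp only [Zg_fz]
    exact intervalIntegral.continuous_parametric_intervalIntegral_of_continuous
      (f := fun (γ : Fin k ⊕ Fin k → ℝ) (t : ℝ) => ∏ j : Fin k, z (t + γ (Sum.inl j)) *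
        (starRingEnd ℂ) (z (t + γ (Sum.inr j)))) (prod2_cont z_cont) continuous_const
  · refine continuousOn_finsetSum _ fun π _ => ?_
    exact (IT_cont T H π).continuousOn.mul (zp_cont hU π)

/-- total mass -/
lemma mP_univ {U : ℝ} (hU : 0 ≤ U) : mP (Fin k ⊕ Fin k) U univ = ENNReal.ofReal (U ^ (2 * k)) := by
  unfold mP
  rw [Measure.pi_univ]
  simp only [Measure.restrict_apply MeasurableSet.univ, univ_inter, Real.volume_Icc, sub_zero]
  rw [Finset.prod_const, Finset.card_univ, card_ii, ENNReal.ofReal_pow hU]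

end

end Pool.Agent.H27.SW
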