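import Pool.Agent.H27.SW.Asm1

set_option autoImplicit false

/-! Project SW: assembly, second part (the core estimate). -/

namespace Pool.Agent.H27.SW

open Complex Filter Topology MeasureTheory Set
open Pool.Agent.TH612.CF
open Pool.Agent.TH612.GS
open Pool.Agent.N879.PU (fs fs_cont fs_prod fs_norm card_ii)

noncomputable section

variable {k : ℕ}

/-- the number of permutations -/
def Pn (k : ℕ) : ℝ := (Fintype.card (Equiv.Perm (Fin k ⊕ Fin k)) : ℝ)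

lemma Pn_pos (k : ℕ) : 0 < Pn k := by
  unfold Pn
  exact_mod_cast Fintype.card_pos

lemma E3_sq {T H : ℝ} (hH : 0 ≤ H) (N : ℕ) (γ : Fin k ⊕ Fin k → ℝ) :
    ‖E3 T H N γ‖ ^ 2 ≤ Pn k * H ^ 2 * ∑ π : Equiv.Perm (Fin k ⊕ Fin k), ‖SN N (fun i => γ (π i)) - zp γ π‖ ^ 2 := by
  have h1 : ‖E3 T H N γ‖ ≤ ∑ π : Equiv.Perm (Fin k ⊕ Fin k), H * ‖SN N (fun i => γ (π i)) - zp γ π‖ := by
    unfold E3
    rw [norm_mul]
    calc _ ≤ 1 * ∑ π : Equiv.Perm (Fin k ⊕ Fin k), ‖IT T H γ π * (SN N (fun i => γ (π i)) - zp γ π)‖ := by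
          gcongr
          · exact inv_le_one
          · exact norm_sum_le _ _
      _ ≤ _ := by
          rw [one_mul]
          refine Finset.sum_le_sum fun π _ => ?_
          rw [norm_mul]
          exact mul_le_mul_of_nonneg_right (IT_norm hH γ π) (norm_nonneg _)
  calc ‖E3 T H N γ‖ ^ 2 ≤ (∑ π : Equiv.Perm (Fin k ⊕ Fin k), H * ‖SN N (fun i => γ (π i)) - zp γ π‖) ^ 2 :=
        pow_le_pow_left₀ (norm_nonneg _) h1 2
    _ ≤ (Finset.univ : Finset (Equiv.Perm (Fin k ⊕ Fin k))).card *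
        ∑ π : Equiv.Perm (Fin k ⊕ Fin k), (H * ‖SN N (fun i => γ (π i)) - zp γ π‖) ^ 2 := sq_sum_le_card_mul_sum_sq
    _ = _ := by
        simp only [mul_pow, ← Finset.mul_sum]
        unfold Pn
        rw [Finset.card_univ]
        ring

lemma sq3 (a b c : ℂ) : ‖a + b + c‖ ^ 2 ≤ 3 * (‖a‖ ^ 2 + ‖b‖ ^ 2 + ‖c‖ ^ 2) := by
  have h1 : ‖a + b + c‖ ≤ ‖a‖ + ‖b‖ + ‖c‖ := norm_add₃_le
  have h2 : ‖a + b + c‖ ^ 2 ≤ (‖a‖ + ‖b‖ + ‖c‖) ^ 2 := pow_le_pow_left₀ (norm_nonneg _) h1 2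
  nlinarith [sq_nonneg (‖a‖ - ‖b‖), sq_nonneg (‖a‖ - ‖c‖), sq_nonneg (‖b‖ - ‖c‖)]

/-- the core estimate -/
def S_COR : Prop := ∀ (k : ℕ) (ε : ℝ), 1 ≤ k → 0 < ε → ε ≤ 1 / 4 → ∃ (C T₀ : ℝ) (B M₀ κ : ℕ), 0 < C ∧ 3 ≤ T₀ ∧
  2 ≤ M₀ ∧ 1 ≤ κ ∧ ∀ (T H U : ℝ) (N : ℕ), T₀ ≤ T → 1 ≤ H → H ≤ T ^ (1 / 16 : ℝ) → T ^ (1 / 2 + ε) ≤ U →
  (N : ℝ) ^ κ * U ≤ T → 2 * (N : ℝ) ^ κ ≤ H → M₀ ≤ N →
  ∫⁻ γ in Sep k U, ENNReal.ofReal (‖DT T H γ‖ ^ 2) ∂(mP (Fin k ⊕ Fin k) U) ≤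
    ENNReal.ofReal (C * Real.log T ^ B * U ^ (2 * k) * (H ^ 2 * (N : ℝ) ^ (-(1 / 8) : ℝ)))

theorem cor (hXL : S_XL) (hTE : S_TE) (hEXP : S_EXP) (hPRM : S_PRM) : S_COR := by
  intro k ε hk hε hε4
  obtain ⟨C1, T1, B1, hC1, hT1, h1⟩ := hTE k ε hk hε hε4
  obtain ⟨C2, T2, κ2, hC2, hT2, h2⟩ := hEXP k
  obtain ⟨C3, U3, B3, M3, κ3, hC3, hU3, hM3, hκ3, h3⟩ := hPRM k
  set P : ℝ := Pn k with hP
  have hP0 : 0 < P := Pn_pos k
  refine ⟨3 * P * P * C3 + 6 * C1 + 3 * C2 ^ 2, max (max T1 T2) (max (U3 ^ 2) (Real.exp 1)), B1 + B3, M3,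
    κ3 + 4 * κ2 + 4, by positivity, hT1.trans ((le_max_left _ _).trans (le_max_left _ _)), hM3, by omega,
    fun T H U N hT hH hHT hTU hNU hNH hMN => ?_⟩
  have hTT1 : T1 ≤ T := (le_max_left _ _).trans ((le_max_left _ _).trans hT)
  have hTT2 : T2 ≤ T := (le_max_right _ _).trans ((le_max_left _ _).trans hT)
  have hTU3 : U3 ^ 2 ≤ T := (le_max_left _ _).trans ((le_max_right _ _).trans hT)
  have hTe : Real.exp 1 ≤ T := (le_max_right _ _).trans ((le_max_right _ _).trans hT)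
  have hT3 : 3 ≤ T := hT1.trans hTT1
  have hT0 : 0 < T := by linarith
  have hT1' : 1 ≤ T := by linarith
  have hL1 : 1 ≤ Real.log T := by rwa [Real.le_log_iff_exp_le hT0]
  have hN2 : 2 ≤ N := hM3.trans hMN
  have hN1 : 1 ≤ N := by omega
  have hNr : (2:ℝ) ≤ N := by exact_mod_cast hN2
  have hNr1 : (1:ℝ) ≤ N := by linarith
  have hN0 : (0:ℝ) < N := by linarith
  have hH0 : 0 < H := by linarith
  have hU1 : 1 ≤ U := (Real.one_le_rpow hT1' (by linarith)).trans hTU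
  have hU0 : 0 < U := by linarith
  have hTU' : T ^ (1 / 2 : ℝ) ≤ U := (Real.rpow_le_rpow_of_exponent_le hT1' (by linarith)).trans hTU
  have hNpow : ∀ m : ℕ, m ≤ κ3 + 4 * κ2 + 4 → (N : ℝ) ^ m ≤ (N : ℝ) ^ (κ3 + 4 * κ2 + 4) :=
    fun m hm => pow_le_pow_right₀ hNr1 hm
  have hUT : U ≤ T := by
    refine le_trans ?_ hNU
    have := one_le_pow₀ hNr1 (n := κ3 + 4 * κ2 + 4)
    nlinarith
  have hH16 : H ≤ T ^ (1 / 2 : ℝ) := hHT.trans (Real.rpow_le_rpow_of_exponent_le hT1' (by norm_num))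
  have hU3' : U3 ≤ U := by
    refine le_trans ?_ hTU'
    rw [← Real.sqrt_eq_rpow]
    exact Real.le_sqrt_of_sq_le hTU3
  have hκU : 2 * (N : ℝ) ^ κ3 ≤ U := by
    have := hNpow κ3 (by omega)
    linarith
  have hκ2U : (N : ℝ) ^ κ2 * U ≤ T := (mul_le_mul_of_nonneg_right (hNpow κ2 (by omega)) hU0.le).trans hNU
  have hN16 : (N : ℝ) ≤ T ^ (1 / 16 : ℝ) := by
    have := hNpow 1 (by omega)
    rw [pow_one] at this
    linarith
  have hNH1 : (N : ℝ) ≤ H := by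
    have := hNpow 1 (by omega)
    rw [pow_one] at this
    linarith
  -- the pointwise bound
  set Q : ℝ := 3 * P * H ^ 2 with hQ
  have hQ0 : 0 ≤ Q := by positivity
  set a : (Fin k ⊕ Fin k → ℝ) → ENNReal := fun γ => ∑ π : Equiv.Perm (Fin k ⊕ Fin k),
    ENNReal.ofReal Q * ENNReal.ofReal (‖SN N (fun i => γ (π i)) - zp γ π‖ ^ 2) with ha
  set b : (Fin k ⊕ Fin k → ℝ) → ENNReal := fun γ => ENNReal.ofReal 3 * ENNReal.ofReal (‖E1 T H N γ‖ ^ 2) with hb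
  set c : ENNReal := ENNReal.ofReal (3 * (C2 * (N : ℝ) ^ κ2) ^ 2) with hc
  have hpt : ∀ γ ∈ Sep k U, ENNReal.ofReal (‖DT T H γ‖ ^ 2) ≤ a γ + (b γ + c) := by
    intro γ hγ
    have e2 : ‖E2 T H N γ‖ ≤ C2 * (N : ℝ) ^ κ2 := h2 T H U N γ hTT2 hH hHT hU1 hN1 hκ2U hγ.1
    have e2' : ‖E2 T H N γ‖ ^ 2 ≤ (C2 * (N : ℝ) ^ κ2) ^ 2 := pow_le_pow_left₀ (norm_nonneg _) e2 2
    have e3 := E3_sq (T := T) hH0.le N γ
    have e4 := sq3 (E1 T H N γ) (E2 T H N γ) (E3 T H N γ)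
    rw [← DT_eq hXL] at e4
    have e5 : ‖DT T H γ‖ ^ 2 ≤ (∑ π : Equiv.Perm (Fin k ⊕ Fin k), Q * ‖SN N (fun i => γ (π i)) - zp γ π‖ ^ 2) +
        (3 * ‖E1 T H N γ‖ ^ 2 + 3 * (C2 * (N : ℝ) ^ κ2) ^ 2) := by
      rw [← Finset.mul_sum, hQ]
      nlinarith [e3, e4, e2']
    refine (ENNReal.ofReal_le_ofReal e5).trans ?_
    rw [ENNReal.ofReal_add (Finset.sum_nonneg fun π _ => by positivity) (by positivity),
      ENNReal.ofReal_add (by positivity) (by positivity),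
      ENNReal.ofReal_sum_of_nonneg fun π _ => by positivity]
    simp only [ha, hb, hc]
    gcongr with π hπ
    · rw [ENNReal.ofReal_mul hQ0]
    · rw [ENNReal.ofReal_mul (by norm_num)]
  have hsm := Sep_meas k U
  have hm1 : ∀ π : Equiv.Perm (Fin k ⊕ Fin k), AEMeasurable (fun γ : Fin k ⊕ Fin k → ℝ =>
      ENNReal.ofReal Q * ENNReal.ofReal (‖SN N (fun i => γ (π i)) - zp γ π‖ ^ 2))
      ((mP (Fin k ⊕ Fin k) U).restrict (Sep k U)) := by
    intro π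
    refine AEMeasurable.const_mul ?_ _
    refine AEMeasurable.ennreal_ofReal ?_
    refine AEMeasurable.pow_const ?_ 2
    refine (ContinuousOn.norm (ContinuousOn.sub ?_ (zp_cont hU1 π))).aemeasurable hsm
    exact ((SN_cont N).comp (by fun_prop)).continuousOn
  have ham : AEMeasurable a ((mP (Fin k ⊕ Fin k) U).restrict (Sep k U)) := by
    simp only [ha]
    exact Finset.aemeasurable_fun_sum _ fun π _ => hm1 π
  have s1 : ∫⁻ γ in Sep k U, ENNReal.ofReal (‖DT T H γ‖ ^ 2) ∂(mP (Fin k ⊕ Fin k) U) ≤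
      ∫⁻ γ in Sep k U, (a γ + (b γ + c)) ∂(mP (Fin k ⊕ Fin k) U) :=
    setLIntegral_mono' hsm hpt
  have s2 : ∫⁻ γ in Sep k U, (a γ + (b γ + c)) ∂(mP (Fin k ⊕ Fin k) U) =
      (∫⁻ γ in Sep k U, a γ ∂(mP (Fin k ⊕ Fin k) U)) + ((∫⁻ γ in Sep k U, b γ ∂(mP (Fin k ⊕ Fin k) U)) +
        ∫⁻ _γ in Sep k U, c ∂(mP (Fin k ⊕ Fin k) U)) := by
    rw [lintegral_add_left' ham, lintegral_add_right _ measurable_const]
  set x : ℝ := U ^ (2 * k) with hx
  have hx0 : 0 < x := by positivity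
  set lam : ℝ := (N : ℝ) ^ (-(1 / 8) : ℝ) with hlam
  have hlam0 : 0 < lam := by positivity
  have sa : ∫⁻ γ in Sep k U, a γ ∂(mP (Fin k ⊕ Fin k) U) ≤
      ENNReal.ofReal (P * (Q * (C3 * Real.log U ^ B3 * x * lam))) := by
    simp only [ha]
    rw [lintegral_finsetSum' _ fun π _ => hm1 π]
    calc _ ≤ ∑ π : Equiv.Perm (Fin k ⊕ Fin k), ENNReal.ofReal (Q * (C3 * Real.log U ^ B3 * x * lam)) := by
          refine Finset.sum_le_sum fun π _ => ?_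
          rw [lintegral_const_mul' _ _ ENNReal.ofReal_ne_top, ENNReal.ofReal_mul hQ0]
          gcongr
          exact h3 U N π hU3' hMN hκU
      _ = _ := by
          rw [Finset.sum_const, Finset.card_univ, nsmul_eq_mul, hP]
          unfold Pn
          rw [ENNReal.ofReal_mul (p := (Fintype.card (Equiv.Perm (Fin k ⊕ Fin k)) : ℝ)) (by positivity),
            ENNReal.ofReal_natCast]
  have sb : ∫⁻ γ in Sep k U, b γ ∂(mP (Fin k ⊕ Fin k) U) ≤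
      ENNReal.ofReal (3 * (C1 * Real.log T ^ B1 * U ^ (2 * k) * (H * (1 + H / N)))) := by
    simp only [hb]
    rw [lintegral_const_mul' _ _ ENNReal.ofReal_ne_top, ENNReal.ofReal_mul (by norm_num)]
    gcongr
    refine (setLIntegral_le_lintegral _ _).trans ?_
    exact h1 T H U N hTT1 hH hHT hTU hUT hN1 hN16
  have sc : ∫⁻ _γ in Sep k U, c ∂(mP (Fin k ⊕ Fin k) U) ≤
      ENNReal.ofReal (3 * (C2 * (N : ℝ) ^ κ2) ^ 2 * x) := by
    refine (setLIntegral_le_lintegral _ _).trans ?_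
    rw [lintegral_const, mP_univ hU0.le, hc, ← ENNReal.ofReal_mul (by positivity)]
  have hlU : Real.log U ≤ Real.log T := Real.log_le_log hU0 hUT
  have hlU0 : 0 ≤ Real.log U := Real.log_nonneg hU1
  have hB1 : 1 ≤ Real.log T ^ B1 := one_le_pow₀ hL1
  have hB3 : 1 ≤ Real.log T ^ B3 := one_le_pow₀ hL1
  have hlamN : 1 / (N:ℝ) ≤ lam := by
    rw [hlam, one_div, ← Real.rpow_neg_one]
    exact Real.rpow_le_rpow_of_exponent_le hNr1 (by norm_num)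
  calc _ ≤ _ := s1
    _ = _ := s2
    _ ≤ ENNReal.ofReal (P * (Q * (C3 * Real.log U ^ B3 * x * lam))) +
        (ENNReal.ofReal (3 * (C1 * Real.log T ^ B1 * U ^ (2 * k) * (H * (1 + H / N)))) +
        ENNReal.ofReal (3 * (C2 * (N : ℝ) ^ κ2) ^ 2 * x)) := by gcongr
    _ = ENNReal.ofReal (P * (Q * (C3 * Real.log U ^ B3 * x * lam)) +
        (3 * (C1 * Real.log T ^ B1 * U ^ (2 * k) * (H * (1 + H / N))) +
        3 * (C2 * (N : ℝ) ^ κ2) ^ 2 * x)) := by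
        rw [ENNReal.ofReal_add (by positivity) (by positivity), ENNReal.ofReal_add (by positivity) (by positivity)]
    _ ≤ _ := by
        refine ENNReal.ofReal_le_ofReal ?_
        have t1 : P * (Q * (C3 * Real.log U ^ B3 * x * lam)) ≤
            (3 * P * P * C3) * (Real.log T ^ (B1 + B3) * x * (H ^ 2 * lam)) := by
          have : Real.log U ^ B3 ≤ Real.log T ^ (B1 + B3) := by
            calc Real.log U ^ B3 ≤ Real.log T ^ B3 := pow_le_pow_left₀ hlU0 hlU _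
              _ ≤ _ := pow_le_pow_right₀ hL1 (by omega)
          calc P * (Q * (C3 * Real.log U ^ B3 * x * lam)) ≤ P * (Q * (C3 * Real.log T ^ (B1 + B3) * x * lam)) := by
                gcongr
            _ = _ := by rw [hQ]; ring
        have t2 : 3 * (C1 * Real.log T ^ B1 * U ^ (2 * k) * (H * (1 + H / N))) ≤
            (6 * C1) * (Real.log T ^ (B1 + B3) * x * (H ^ 2 * lam)) := by
          have u1 : H * (1 + H / N) ≤ 2 * (H ^ 2 * lam) := by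
            have u2 : H ≤ H ^ 2 * (1 / N) := by
              rw [mul_one_div, le_div_iff₀ hN0]; nlinarith
            have u3 : H ^ 2 * (1 / N) ≤ H ^ 2 * lam := by gcongr
            calc H * (1 + H / N) = H + H ^ 2 * (1 / N) := by ring
              _ ≤ _ := by linarith
          have u4 : Real.log T ^ B1 ≤ Real.log T ^ (B1 + B3) := pow_le_pow_right₀ hL1 (by omega)
          calc 3 * (C1 * Real.log T ^ B1 * U ^ (2 * k) * (H * (1 + H / N)))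
              ≤ 3 * (C1 * Real.log T ^ (B1 + B3) * U ^ (2 * k) * (2 * (H ^ 2 * lam))) := by gcongr
            _ = _ := by rw [hx]; ring
        have t3 : 3 * (C2 * (N : ℝ) ^ κ2) ^ 2 * x ≤ (3 * C2 ^ 2) * (Real.log T ^ (B1 + B3) * x * (H ^ 2 * lam)) := by
          have v1 : ((N : ℝ) ^ κ2) ^ 2 ≤ H ^ 2 * lam := by
            have v2 : ((N : ℝ) ^ κ2) ^ 2 * N ≤ H ^ 2 := by
              have v3 : ((N : ℝ) ^ κ2) ^ 2 * N = (N : ℝ) ^ (2 * κ2 + 1) := by ring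
              rw [v3]
              have v4 := hNpow (2 * κ2 + 1) (by omega)
              nlinarith
            calc ((N : ℝ) ^ κ2) ^ 2 ≤ H ^ 2 * (1 / N) := by rw [mul_one_div, le_div_iff₀ hN0]; exact v2
              _ ≤ _ := by gcongr
          have v5 : 1 ≤ Real.log T ^ (B1 + B3) := one_le_pow₀ hL1
          calc 3 * (C2 * (N : ℝ) ^ κ2) ^ 2 * x = (3 * C2 ^ 2) * (1 * x * ((N : ℝ) ^ κ2) ^ 2) := by ring
            _ ≤ _ := by gcongr
        calc _ ≤ (3 * P * P * C3) * (Real.log T ^ (B1 + B3) * x * (H ^ 2 * lam)) +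
              ((6 * C1) * (Real.log T ^ (B1 + B3) * x * (H ^ 2 * lam)) +
              (3 * C2 ^ 2) * (Real.log T ^ (B1 + B3) * x * (H ^ 2 * lam))) := by linarith
          _ = _ := by ring

end

end Pool.Agent.H27.SW
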