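import Pool.Agent.H27.SW.Asm2

set_option autoImplicit false

/-! Project SW: assembly, third part (long averages from short ones). -/

namespace Pool.Agent.H27.SW

open Complex Filter Topology MeasureTheory Set
open Pool.Agent.TH612.CF
open Pool.Agent.TH612.GS
open Pool.Agent.N879.PU (fs fs_cont fs_prod fs_norm card_ii)

noncomputable section

variable {k : ℕ}

lemma DT_split (T h : ℝ) (J : ℕ) (γ : Fin k ⊕ Fin k → ℝ) :
    DT T (J * h) γ = ∑ j ∈ Finset.range J, DT (T + j * h) h γ := by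
  have hc : Continuous fun t : ℝ => Zg γ t - ((Nat.factorial k : ℂ) ^ 2)⁻¹ *
      Qs t (fun i => (γ i : ℂ)) := (Zg_cont γ).sub (continuous_const.mul (Qs_cont γ))
  have h1 := intervalIntegral.sum_integral_adjacent_intervals (μ := volume) (n := J)
    (a := fun j : ℕ => T + (j:ℝ) * h) (f := fun t : ℝ => Zg γ t - ((Nat.factorial k : ℂ) ^ 2)⁻¹ *
      Qs t (fun i => (γ i : ℂ))) (fun j _ => hc.intervalIntegrable _ _)
  unfold DT
  simp only [Nat.cast_zero, zero_mul, add_zero] at h1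
  rw [← h1]
  refine Finset.sum_congr rfl fun j _ => ?_
  congr 1
  push_cast
  ring

lemma lint_split {U : ℝ} (hU : 1 ≤ U) (T h : ℝ) (J : ℕ) {b : ℝ}
    (hb : ∀ j ∈ Finset.range J, ∫⁻ γ in Sep k U, ENNReal.ofReal (‖DT (T + j * h) h γ‖ ^ 2)
      ∂(mP (Fin k ⊕ Fin k) U) ≤ ENNReal.ofReal b) :
    ∫⁻ γ in Sep k U, ENNReal.ofReal (‖DT T (J * h) γ‖ ^ 2) ∂(mP (Fin k ⊕ Fin k) U) ≤
      ENNReal.ofReal ((J : ℝ) ^ 2 * b) := by
  have hm : ∀ j : ℕ, AEMeasurable (fun γ : Fin k ⊕ Fin k → ℝ =>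
      ENNReal.ofReal (J : ℝ) * ENNReal.ofReal (‖DT (T + j * h) h γ‖ ^ 2))
      ((mP (Fin k ⊕ Fin k) U).restrict (Sep k U)) := fun j => by
    refine AEMeasurable.const_mul ?_ _
    refine AEMeasurable.ennreal_ofReal (AEMeasurable.pow_const ?_ 2)
    exact (DT_cont (T + j * h) h hU).norm.aemeasurable (Sep_meas k U)
  have h1 : ∀ γ : Fin k ⊕ Fin k → ℝ, ENNReal.ofReal (‖DT T (J * h) γ‖ ^ 2) ≤
      ∑ j ∈ Finset.range J, ENNReal.ofReal (J : ℝ) * ENNReal.ofReal (‖DT (T + j * h) h γ‖ ^ 2) := by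
    intro γ
    have e1 : ‖DT T (J * h) γ‖ ≤ ∑ j ∈ Finset.range J, ‖DT (T + j * h) h γ‖ := by
      rw [DT_split]; exact norm_sum_le _ _
    have e2 : ‖DT T (J * h) γ‖ ^ 2 ≤ ∑ j ∈ Finset.range J, (J : ℝ) * ‖DT (T + j * h) h γ‖ ^ 2 := by
      calc _ ≤ (∑ j ∈ Finset.range J, ‖DT (T + j * h) h γ‖) ^ 2 := pow_le_pow_left₀ (norm_nonneg _) e1 2
        _ ≤ (Finset.range J).card * ∑ j ∈ Finset.range J, ‖DT (T + j * h) h γ‖ ^ 2 := sq_sum_le_card_mul_sum_sq
        _ = _ := by rw [Finset.card_range, Finset.mul_sum]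
    refine (ENNReal.ofReal_le_ofReal e2).trans (le_of_eq ?_)
    rw [ENNReal.ofReal_sum_of_nonneg fun j _ => by positivity]
    refine Finset.sum_congr rfl fun j _ => ?_
    rw [ENNReal.ofReal_mul (by positivity)]
  calc _ ≤ ∫⁻ γ in Sep k U, ∑ j ∈ Finset.range J, ENNReal.ofReal (J : ℝ) *
        ENNReal.ofReal (‖DT (T + j * h) h γ‖ ^ 2) ∂(mP (Fin k ⊕ Fin k) U) := lintegral_mono fun γ => h1 γ
    _ = ∑ j ∈ Finset.range J, ∫⁻ γ in Sep k U, ENNReal.ofReal (J : ℝ) *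
        ENNReal.ofReal (‖DT (T + j * h) h γ‖ ^ 2) ∂(mP (Fin k ⊕ Fin k) U) :=
        lintegral_finsetSum' _ fun j _ => hm j
    _ ≤ ∑ _j ∈ Finset.range J, ENNReal.ofReal ((J : ℝ) * b) := by
        refine Finset.sum_le_sum fun j hj => ?_
        rw [lintegral_const_mul' _ _ ENNReal.ofReal_ne_top, ENNReal.ofReal_mul (by positivity)]
        gcongr
        exact hb j hj
    _ = _ := by
        rw [Finset.sum_const, Finset.card_range, nsmul_eq_mul, ← ENNReal.ofReal_natCast,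
          ← ENNReal.ofReal_mul (by positivity)]
        congr 1
        ring

/-- the mean square for all lengths -/
def S_SQA : Prop := ∀ (k : ℕ) (ε : ℝ), 1 ≤ k → 0 < ε → ε ≤ 1 / 4 → ∃ (c C T₀ H₀ : ℝ) (B : ℕ), 0 < c ∧ c ≤ 1 / 8 ∧
  0 < C ∧ 3 ≤ T₀ ∧ 1 ≤ H₀ ∧ ∀ (T H U : ℝ), T₀ ≤ T → H₀ ≤ H → H ≤ T → T ^ (1 / 2 + ε) ≤ U → U * H ^ ε ≤ T →
  ∫⁻ γ in Sep k U, ENNReal.ofReal (‖DT T H γ‖ ^ 2) ∂(mP (Fin k ⊕ Fin k) U) ≤
    ENNReal.ofReal (C * Real.log T ^ B * U ^ (2 * k) * (H ^ 2 * H ^ (-c)))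

theorem sqa (hCOR : S_COR) : S_SQA := by
  intro k ε hk hε hε4
  obtain ⟨C, T1, B, M₀, κ, hC, hT1, hM₀, hκ, hcor⟩ := hCOR k (ε / 2) hk (by linarith) (by linarith)
  set a : ℝ := ε / (κ + 1) with ha
  have hκ0 : (0:ℝ) < κ := by exact_mod_cast hκ
  have hκ1 : (1:ℝ) ≤ κ := by exact_mod_cast hκ
  have ha0 : 0 < a := by positivity
  have haε : a ≤ ε := by rw [ha]; exact div_le_self hε.le (by linarith)
  have haκ : a * κ ≤ ε := by
    rw [ha, div_mul_eq_mul_div, div_le_iff₀ (by positivity)]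
    nlinarith
  set W : ℝ := 4 + ((M₀ : ℝ) + 1) ^ (1 / a) with hW
  have hM0 : (0:ℝ) ≤ M₀ := Nat.cast_nonneg _
  have hW4 : 4 ≤ W := by
    have : 0 ≤ ((M₀ : ℝ) + 1) ^ (1 / a) := by positivity
    linarith
  refine ⟨a / 128, 4 * 2 ^ B * C, max T1 (max (Real.exp 1) (2 ^ (2 / ε))), (2 * W) ^ 16, B, by positivity, by linarith,
    by positivity, hT1.trans (le_max_left _ _), one_le_pow₀ (by linarith), fun T H U hT hHH hHT hTU hUH => ?_⟩
  have hTT1 : T1 ≤ T := (le_max_left _ _).trans hT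
  have hTe : Real.exp 1 ≤ T := (le_max_left _ _).trans ((le_max_right _ _).trans hT)
  have hT2 : (2:ℝ) ^ (2 / ε) ≤ T := (le_max_right _ _).trans ((le_max_right _ _).trans hT)
  have hT3 : 3 ≤ T := hT1.trans hTT1
  have hT0 : 0 < T := by linarith
  have hT1' : 1 ≤ T := by linarith
  have hL1 : 1 ≤ Real.log T := by rwa [Real.le_log_iff_exp_le hT0]
  have hU1 : 1 ≤ U := (Real.one_le_rpow hT1' (by linarith)).trans hTU
  have hU0 : 0 < U := by linarith
  have hH1 : 1 ≤ H := (one_le_pow₀ (by linarith)).trans hHH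
  have hH0 : 0 < H := by linarith
  -- the pieces
  set q : ℝ := T ^ (1 / 16 : ℝ) with hq
  have hq1 : 1 ≤ q := Real.one_le_rpow hT1' (by norm_num)
  have hq0 : 0 < q := by linarith
  set J : ℕ := ⌈H / q⌉₊ with hJ
  have hJ1 : 1 ≤ J := Nat.one_le_ceil_iff.2 (by positivity)
  have hJ1r : (1:ℝ) ≤ J := by exact_mod_cast hJ1
  have hJ0 : (0:ℝ) < J := by linarith
  have hJl : H / q ≤ J := Nat.le_ceil _
  have hJu : (J:ℝ) < H / q + 1 := Nat.ceil_lt_add_one (by positivity)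
  set h : ℝ := H / J with hh
  have hJh : (J:ℝ) * h = H := by rw [hh]; field_simp
  have hh0 : 0 < h := by positivity
  have hhq : h ≤ q := by
    rw [hh, div_le_iff₀ hJ0]
    rw [div_le_iff₀ hq0] at hJl
    linarith
  have hhH : h ≤ H := by rw [hh]; exact div_le_self hH0.le hJ1r
  have hHH16 : (2 * W) ≤ H ^ (1 / 16 : ℝ) := by
    have e : (2 * W) = ((2 * W) ^ 16) ^ (1 / 16 : ℝ) := by
      rw [← Real.rpow_natCast, ← Real.rpow_mul (by linarith)]; norm_num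
    rw [e]
    exact Real.rpow_le_rpow (by positivity) hHH (by norm_num)
  have hhl : H ^ (1 / 16 : ℝ) / 2 ≤ h := by
    by_cases hc : H ≤ q
    · have hJe : J = 1 := by
        have : H / q ≤ 1 := by rw [div_le_one hq0]; exact hc
        have h2 : J ≤ 1 := by rw [hJ]; exact Nat.ceil_le.2 (by exact_mod_cast this)
        omega
      have : h = H := by rw [hh, hJe]; simp
      rw [this]
      have : H ^ (1 / 16 : ℝ) ≤ H ^ (1:ℝ) := Real.rpow_le_rpow_of_exponent_le hH1 (by norm_num)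
      rw [Real.rpow_one] at this
      linarith
    · push Not at hc
      have h1 : H / q + 1 ≤ 2 * (H / q) := by
        have : 1 ≤ H / q := by rw [le_div_iff₀ hq0]; linarith
        linarith
      have h2 : (J:ℝ) ≤ 2 * (H / q) := by linarith
      have h3 : q / 2 ≤ h := by
        rw [hh, le_div_iff₀ hJ0]
        calc q / 2 * J ≤ q / 2 * (2 * (H / q)) := by gcongr
          _ = H := by field_simp
      have h4 : H ^ (1 / 16 : ℝ) ≤ q := Real.rpow_le_rpow hH0.le hHT (by norm_num)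
      linarith
  have hhW : W ≤ h := by linarith
  have hh4 : 4 ≤ h := by linarith
  have hh1 : 1 ≤ h := by linarith
  -- the length of the polynomials
  set N : ℕ := ⌊h ^ a⌋₊ with hN
  have hha : (M₀ : ℝ) + 1 ≤ h ^ a := by
    have h1 : ((M₀ : ℝ) + 1) ^ (1 / a) ≤ h := by linarith
    calc (M₀ : ℝ) + 1 = (((M₀ : ℝ) + 1) ^ (1 / a)) ^ a := by
          rw [← Real.rpow_mul (by positivity), one_div_mul_cancel ha0.ne', Real.rpow_one]
      _ ≤ h ^ a := Real.rpow_le_rpow (by positivity) h1 ha0.le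
  have hMN : M₀ ≤ N := Nat.le_floor (by linarith)
  have hNl : h ^ a < N + 1 := Nat.lt_floor_add_one _
  have hNu : (N:ℝ) ≤ h ^ a := Nat.floor_le (by positivity)
  have hM2r : (2:ℝ) ≤ M₀ := by exact_mod_cast hM₀
  have hN2 : (2:ℝ) ≤ N := by
    have : (M₀:ℝ) ≤ N := by exact_mod_cast hMN
    linarith
  have hN0 : (0:ℝ) < N := by linarith
  have hNh : h ^ a / 2 ≤ N := by linarith
  have hNκ : (N:ℝ) ^ κ ≤ h ^ (a * κ) := by
    calc (N:ℝ) ^ κ ≤ (h ^ a) ^ κ := pow_le_pow_left₀ hN0.le hNu κ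
      _ = h ^ (a * κ) := by rw [← Real.rpow_natCast, ← Real.rpow_mul hh0.le]
  have hNκH : (N:ℝ) ^ κ ≤ H ^ ε := by
    refine hNκ.trans ?_
    calc h ^ (a * κ) ≤ h ^ ε := Real.rpow_le_rpow_of_exponent_le hh1 haκ
      _ ≤ H ^ ε := Real.rpow_le_rpow hh0.le hhH hε.le
  have hNκh : 2 * (N:ℝ) ^ κ ≤ h := by
    have h1 : h ^ (a * κ) ≤ h ^ (1 / 2 : ℝ) := Real.rpow_le_rpow_of_exponent_le hh1 (by linarith)
    have h2 : (2:ℝ) ≤ h ^ (1 / 2 : ℝ) := by
      rw [← Real.sqrt_eq_rpow]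
      exact Real.le_sqrt_of_sq_le (by linarith)
    calc 2 * (N:ℝ) ^ κ ≤ h ^ (1 / 2 : ℝ) * h ^ (1 / 2 : ℝ) := by
          have := hNκ.trans h1
          gcongr
      _ = h := by rw [← Real.rpow_add hh0]; norm_num
  have hsav : (N:ℝ) ^ (-(1 / 8) : ℝ) ≤ 4 * H ^ (-(a / 128)) := by
    have h1 : H ^ (a / 16) / 4 ≤ N := by
      have h2 : (H ^ (1 / 16 : ℝ) / 2) ^ a ≤ h ^ a := Real.rpow_le_rpow (by positivity) hhl ha0.le
      rw [Real.div_rpow (by positivity) (by norm_num), ← Real.rpow_mul hH0.le] at h2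
      have h3 : (2:ℝ) ^ a ≤ 2 := by
        calc (2:ℝ) ^ a ≤ 2 ^ (1:ℝ) := Real.rpow_le_rpow_of_exponent_le (by norm_num) (by linarith)
          _ = 2 := Real.rpow_one 2
      have h4 : H ^ (1 / 16 * a) / 2 ≤ H ^ (1 / 16 * a) / 2 ^ a := by gcongr
      have h5 : (1 / 16 * a : ℝ) = a / 16 := by ring
      rw [h5] at h2 h4
      linarith
    have h6 : (N:ℝ) ^ (-(1 / 8) : ℝ) ≤ (H ^ (a / 16) / 4) ^ (-(1 / 8) : ℝ) :=
      Real.rpow_le_rpow_of_nonpos (by positivity) h1 (by norm_num)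
    refine h6.trans ?_
    rw [Real.div_rpow (by positivity) (by norm_num), ← Real.rpow_mul hH0.le]
    have h7 : (a / 16 * -(1 / 8) : ℝ) = -(a / 128) := by ring
    rw [h7, div_eq_mul_inv, mul_comm]
    have h8 : ((4:ℝ) ^ (-(1 / 8) : ℝ))⁻¹ ≤ 4 := by
      rw [← Real.rpow_neg (by norm_num), neg_neg]
      calc (4:ℝ) ^ (1 / 8 : ℝ) ≤ 4 ^ (1:ℝ) := Real.rpow_le_rpow_of_exponent_le (by norm_num) (by norm_num)
        _ = 4 := Real.rpow_one 4
    gcongr
  have hpiece : ∀ j ∈ Finset.range J, ∫⁻ γ in Sep k U, ENNReal.ofReal (‖DT (T + j * h) h γ‖ ^ 2)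
      ∂(mP (Fin k ⊕ Fin k) U) ≤ ENNReal.ofReal (C * (2 * Real.log T) ^ B * U ^ (2 * k) *
        (h ^ 2 * (4 * H ^ (-(a / 128))))) := by
    intro j hj
    have hj' : (j:ℝ) + 1 ≤ J := by exact_mod_cast Finset.mem_range.1 hj
    have hj0 : (0:ℝ) ≤ j := Nat.cast_nonneg j
    set T' : ℝ := T + j * h with hT'
    have a1 : T ≤ T' := by
      have : 0 ≤ (j:ℝ) * h := by positivity
      linarith
    have a2 : T' ≤ 2 * T := by
      have : (j:ℝ) * h ≤ H := by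
        rw [← hJh]
        exact mul_le_mul_of_nonneg_right (by linarith) hh0.le
      linarith
    have hT'0 : 0 < T' := by linarith
    have hlT : Real.log T' ≤ 2 * Real.log T := by
      calc Real.log T' ≤ Real.log (T ^ 2) := Real.log_le_log hT'0 (by nlinarith)
        _ = 2 * Real.log T := by rw [Real.log_pow]; norm_num
    have hlT0 : 0 ≤ Real.log T' := Real.log_nonneg (by linarith)
    have a3 : T' ^ (1 / 2 + ε / 2) ≤ U := by
      refine le_trans ?_ hTU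
      calc T' ^ (1 / 2 + ε / 2) ≤ (2 * T) ^ (1 / 2 + ε / 2) := Real.rpow_le_rpow hT'0.le a2 (by linarith)
        _ = 2 ^ (1 / 2 + ε / 2) * T ^ (1 / 2 + ε / 2) := Real.mul_rpow (by norm_num) hT0.le
        _ ≤ T ^ (ε / 2) * T ^ (1 / 2 + ε / 2) := by
            gcongr
            calc (2:ℝ) ^ (1 / 2 + ε / 2) ≤ 2 ^ (1:ℝ) := Real.rpow_le_rpow_of_exponent_le (by norm_num) (by linarith)
              _ = ((2:ℝ) ^ (2 / ε)) ^ (ε / 2) := by
                  rw [← Real.rpow_mul (by norm_num)]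
                  congr 1
                  field_simp
              _ ≤ T ^ (ε / 2) := Real.rpow_le_rpow (by positivity) hT2 (by linarith)
        _ = T ^ (1 / 2 + ε) := by rw [← Real.rpow_add hT0]; ring_nf
    have a4 : h ≤ T' ^ (1 / 16 : ℝ) := hhq.trans (Real.rpow_le_rpow hT0.le a1 (by norm_num))
    have a5 : (N:ℝ) ^ κ * U ≤ T' := by
      calc (N:ℝ) ^ κ * U ≤ H ^ ε * U := by gcongr
        _ = U * H ^ ε := mul_comm _ _
        _ ≤ T' := hUH.trans a1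
    refine (hcor T' h U N (hTT1.trans a1) hh1 a4 a3 a5 hNκh hMN).trans (ENNReal.ofReal_le_ofReal ?_)
    gcongr
  have hfin := lint_split hU1 T h J hpiece
  rw [hJh] at hfin
  refine hfin.trans (ENNReal.ofReal_le_ofReal (le_of_eq ?_))
  have e1 : (J:ℝ) ^ 2 * h ^ 2 = H ^ 2 := by rw [← mul_pow, hJh]
  calc (J:ℝ) ^ 2 * (C * (2 * Real.log T) ^ B * U ^ (2 * k) * (h ^ 2 * (4 * H ^ (-(a / 128)))))
      = ((J:ℝ) ^ 2 * h ^ 2) * (C * (2 * Real.log T) ^ B * U ^ (2 * k) * (4 * H ^ (-(a / 128)))) := by ring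
    _ = _ := by rw [e1, mul_pow]; ring

end

end Pool.Agent.H27.SW
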