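import Pool.Agent.H27.SW.Asm3

set_option autoImplicit false

/-! Project SW: assembly, fourth part (the theorem). -/

namespace Pool.Agent.H27.SW

open Complex Filter Topology MeasureTheory Set
open Pool.Agent.TH612.CF
open Pool.Agent.TH612.GS

noncomputable section

/-- the theorem -/
def S_FIN : Prop := ∀ (k : ℕ) (ε : ℝ), 1 ≤ k → 0 < ε → ε ≤ 1 / 4 → ∃ (c T₀ : ℝ) (B : ℕ), 0 < c ∧
  ∀ (T H U : ℝ), T₀ ≤ T → 1 ≤ H → H ≤ T → T ^ (1 / 2 + ε) ≤ U → U * H ^ ε ≤ T →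
  mP (Fin k ⊕ Fin k) U {γ | H * (H ^ (-c) * Real.log T ^ B) < ‖DT T H γ‖} ≤
    ENNReal.ofReal (U ^ (2 * k) * (H ^ (-c) * Real.log T ^ B))

theorem fin (hSQA : S_SQA) (hNS : S_NS) : S_FIN := by
  intro k ε hk hε hε4
  obtain ⟨c0, C, T1, H0, B, hc0, hc08, hC, hT1, hH0, hsq⟩ := hSQA k ε hk hε hε4
  set c : ℝ := c0 / 3 with hc
  have hcp : 0 < c := by positivity
  have hc8 : c ≤ 1 / 8 := by linarith
  refine ⟨c, max (max T1 ((16 * (k:ℝ) ^ 2 + 1) ^ (8:ℕ))) (Real.exp (1 + 2 * C + H0)), B + 1, hcp,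
    fun T H U hT hH1 hHT hTU hUH => ?_⟩
  have hTT1 : T1 ≤ T := (le_max_left _ _).trans ((le_max_left _ _).trans hT)
  have hTk : (16 * (k:ℝ) ^ 2 + 1) ^ (8:ℕ) ≤ T := (le_max_right _ _).trans ((le_max_left _ _).trans hT)
  have hTe : Real.exp (1 + 2 * C + H0) ≤ T := (le_max_right _ _).trans hT
  have hT3 : 3 ≤ T := hT1.trans hTT1
  have hT0 : 0 < T := by linarith
  have hT1' : 1 ≤ T := by linarith
  have hL : 1 + 2 * C + H0 ≤ Real.log T := by rwa [Real.le_log_iff_exp_le hT0]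
  have hL1 : 1 ≤ Real.log T := by linarith
  have hU1 : 1 ≤ U := (Real.one_le_rpow hT1' (by linarith)).trans hTU
  have hU0 : 0 < U := by linarith
  have hHp : 0 < H := by linarith
  set L := Real.log T with hLdef
  have hL0 : 0 < L := by linarith
  set x : ℝ := H ^ (-c) * L ^ (B + 1) with hx
  have hx0 : 0 < x := by positivity
  set u : ℝ := U ^ (2 * k) with hu
  have hu0 : 0 < u := by positivity
  by_cases hHH : H0 ≤ H
  swap
  · -- trivial range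
    push Not at hHH
    have hx1 : 1 ≤ x := by
      have h1 : H ^ c ≤ L := by
        calc H ^ c ≤ H ^ (1:ℝ) := Real.rpow_le_rpow_of_exponent_le hH1 (by linarith)
          _ = H := Real.rpow_one H
          _ ≤ L := by linarith
      have h2 : L ≤ L ^ (B + 1) := le_self_pow₀ hL1 (by omega)
      rw [hx, Real.rpow_neg hHp.le, inv_mul_eq_div, le_div_iff₀ (by positivity), one_mul]
      linarith
    calc _ ≤ mP (Fin k ⊕ Fin k) U univ := measure_mono (subset_univ _)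
      _ = ENNReal.ofReal u := mP_univ hU0.le
      _ ≤ _ := ENNReal.ofReal_le_ofReal (le_mul_of_one_le_right hu0.le hx1)
  have h1 := hsq T H U hTT1 hHH hHT hTU hUH
  have hm : AEMeasurable (fun γ : Fin k ⊕ Fin k → ℝ => ‖DT T H γ‖)
      ((mP (Fin k ⊕ Fin k) U).restrict (Sep k U)) := (DT_cont T H hU1).norm.aemeasurable (Sep_meas k U)
  have h2 := cheb hm (lam := H * x) (by positivity) h1
  have h3 : C * L ^ B * u * (H ^ 2 * H ^ (-c0)) / (H * x) ^ 2 ≤ u * x / 2 := by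
    have e1 : H ^ (-c0) = H ^ (-c) * H ^ (-c) * H ^ (-c) := by
      rw [← Real.rpow_add hHp, ← Real.rpow_add hHp]
      congr 1
      rw [hc]; ring
    have hHc : 0 < H ^ (-c) := by positivity
    rw [e1, div_le_iff₀ (by positivity)]
    have e2 : u * x / 2 * (H * x) ^ 2 = (1 / 2 * L ^ (3 * (B + 1))) *
        (u * (H ^ 2 * (H ^ (-c) * H ^ (-c) * H ^ (-c)))) := by
      rw [hx]; ring
    have e3 : C * L ^ B * u * (H ^ 2 * (H ^ (-c) * H ^ (-c) * H ^ (-c))) = (C * L ^ B) *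
        (u * (H ^ 2 * (H ^ (-c) * H ^ (-c) * H ^ (-c)))) := by ring
    rw [e2, e3]
    refine mul_le_mul_of_nonneg_right ?_ (by positivity)
    have e4 : L ^ (3 * (B + 1)) = L ^ B * L * L ^ (2 * B + 2) := by ring
    have e5 : 1 ≤ L ^ (2 * B + 2) := one_le_pow₀ hL1
    have e6 : 0 < L ^ B := by positivity
    rw [e4]
    have e7 : 2 * C ≤ L := by linarith
    calc C * L ^ B = 1 / 2 * (L ^ B * (2 * C) * 1) := by ring
      _ ≤ _ := by gcongr
  have h4 : mP (Fin k ⊕ Fin k) U (Sep k U)ᶜ ≤ ENNReal.ofReal (u * x / 2) := by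
    refine (hNS k U hU1).trans (ENNReal.ofReal_le_ofReal ?_)
    have e1 : U ^ (2 * k - 1 / 2 : ℝ) = u / U ^ (1 / 2 : ℝ) := by
      rw [Real.rpow_sub hU0, hu, ← Real.rpow_natCast]
      push_cast
      rfl
    have e2 : T ^ (1 / 4 : ℝ) ≤ U ^ (1 / 2 : ℝ) := by
      calc T ^ (1 / 4 : ℝ) = (T ^ (1 / 2 : ℝ)) ^ (1 / 2 : ℝ) := by
            rw [← Real.rpow_mul hT0.le]; norm_num
        _ ≤ U ^ (1 / 2 : ℝ) := by
            refine Real.rpow_le_rpow (by positivity) ?_ (by norm_num)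
            exact (Real.rpow_le_rpow_of_exponent_le hT1' (by linarith)).trans hTU
    have e3 : T ^ (-(1 / 8) : ℝ) ≤ x := by
      have f1 : T ^ (-(1 / 8) : ℝ) ≤ H ^ (-(1 / 8) : ℝ) :=
        Real.rpow_le_rpow_of_nonpos hHp hHT (by norm_num)
      have f2 : H ^ (-(1 / 8) : ℝ) ≤ H ^ (-c) := Real.rpow_le_rpow_of_exponent_le hH1 (by linarith)
      have f3 : 1 ≤ L ^ (B + 1) := one_le_pow₀ hL1
      have f4 : H ^ (-c) ≤ x := le_mul_of_one_le_right (by positivity) f3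
      linarith
    have e4 : 16 * (k:ℝ) ^ 2 ≤ T ^ (1 / 8 : ℝ) := by
      have f0 : ∀ w : ℝ, 0 ≤ w → w = (w ^ (8:ℕ)) ^ (1 / 8 : ℝ) := by
        intro w hw
        rw [← Real.rpow_natCast, ← Real.rpow_mul hw]; norm_num
      have f1 := f0 (16 * (k:ℝ) ^ 2 + 1) (by positivity)
      have f2 : ((16 * (k:ℝ) ^ 2 + 1) ^ (8:ℕ)) ^ (1 / 8 : ℝ) ≤ T ^ (1 / 8 : ℝ) :=
        Real.rpow_le_rpow (by positivity) hTk (by norm_num)
      linarith
    rw [e1]
    have e5 : T ^ (1 / 4 : ℝ) = T ^ (1 / 8 : ℝ) * T ^ (1 / 8 : ℝ) := by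
      rw [← Real.rpow_add hT0]; norm_num
    have e6 : 0 < T ^ (1 / 8 : ℝ) := by positivity
    have e7 : T ^ (-(1 / 8) : ℝ) = (T ^ (1 / 8 : ℝ))⁻¹ := Real.rpow_neg hT0.le _
    calc 8 * (k:ℝ) ^ 2 * (u / U ^ (1 / 2 : ℝ)) ≤ T ^ (1 / 8 : ℝ) / 2 * (u / T ^ (1 / 4 : ℝ)) := by
          gcongr
          linarith
      _ = u * T ^ (-(1 / 8) : ℝ) / 2 := by rw [e5, e7]; field_simp
      _ ≤ u * x / 2 := by gcongr
  calc mP (Fin k ⊕ Fin k) U {γ | H * x < ‖DT T H γ‖}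
      ≤ mP (Fin k ⊕ Fin k) U (({γ | H * x < ‖DT T H γ‖} ∩ Sep k U) ∪ (Sep k U)ᶜ) := by
        refine measure_mono fun γ hγ => ?_
        by_cases hs : γ ∈ Sep k U
        · exact Or.inl ⟨hγ, hs⟩
        · exact Or.inr hs
    _ ≤ mP (Fin k ⊕ Fin k) U ({γ | H * x < ‖DT T H γ‖} ∩ Sep k U) + mP (Fin k ⊕ Fin k) U (Sep k U)ᶜ :=
        measure_union_le _ _
    _ ≤ ENNReal.ofReal (u * x / 2) + ENNReal.ofReal (u * x / 2) := by
        gcongr
        · exact (Measure.le_restrict_apply _ _).trans (h2.trans (ENNReal.ofReal_le_ofReal h3))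
    _ = _ := by
        rw [← ENNReal.ofReal_add (by positivity) (by positivity)]
        congr 1
        ring

end

end Pool.Agent.H27.SW
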