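import Pool.Agent.H27.SW.Stm

set_option autoImplicit false

/-! Project SW (helper27), part EXA (helper44): the product of the models as a sum over the subsets. -/

namespace Pool.Agent.H27.SW

open Complex Filter Topology MeasureTheory Set
open Pool.Agent.TH612.CF
open Pool.Agent.TH612.GS
open Pool.Agent.N879.PU (fs)

noncomputable section

theorem exa : S_EXA := by
  intro k N γ t
  have h1 : ∀ i : Fin k ⊕ Fin k, fs (GN N) i (t + γ i) =
      (if i.isRight then (starRingEnd ℂ) (Xc (t + γ i)) else 1) * PN N (t + γ i) +
        (if i.isLeft then Xc (t + γ i) else 1) * (starRingEnd ℂ) (PN N (t + γ i)) := by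
    rintro (i | i)
    · simp [fs, GN]
    · simp only [fs, GN, Sum.elim_inr, map_add, map_mul, Complex.conj_conj, Sum.isRight_inr,
        if_true, Sum.isLeft_inr, Bool.false_eq_true, if_false, one_mul]
      ring
  rw [Finset.prod_congr rfl (fun i _ => h1 i), Finset.prod_add, Finset.powerset_univ]
  refine Finset.sum_congr rfl fun A _ => ?_
  unfold XA PA
  rw [← Finset.prod_mul_distrib, ← Finset.prod_mul_prod_compl A]
  congr 1
  · refine Finset.prod_congr rfl fun i hi => ?_
    rw [if_pos hi, if_pos hi]
  · rw [← Finset.compl_eq_univ_sdiff]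
    refine Finset.prod_congr rfl fun i hi => ?_
    rw [Finset.mem_compl] at hi
    rw [if_neg hi, if_neg hi]

end

end Pool.Agent.H27.SW
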