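import Pool.Agent.H27.G.R_seed8.TH612.GS.Asm6
import Pool.Agent.H27.G.R_pool_sql_team_seeded_63374d34.N879.PU.Stm

set_option autoImplicit false

/-!
Project SW (helper27, `MP_6a632e_nt`): the full recipe, with all swap terms, for the shifted moments of zeta of order
`2k`, for almost all shift vectors in `[0,U]^{2k}`, `T^(1/2+ε) ≤ U ≤ T H^(-ε)`, in averages over `[T,T+H]` with
`H ≥ (log T)^B` (`H U < T` is allowed, so that the swap terms matter). Definitions and statements of the parts.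
-/

namespace Pool.Agent.H27.SW

open Complex Filter Topology MeasureTheory Set
open Pool.Agent.TH612.CF
open Pool.Agent.TH612.GS
open Pool.Agent.N879.PZ (Wb)
open Pool.Agent.N879.PU (fs)

noncomputable section

/-- the factor of the functional equation on the critical line, `z u = Xc u * conj (z u)` -/
def Xc (u : ℝ) : ℂ := chi (1 / 2 + I * u)

/-- the model: a short Dirichlet polynomial and its image under the functional equation -/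
def GN (N : ℕ) (u : ℝ) : ℂ := PN N u + Xc u * (starRingEnd ℂ) (PN N u)

/-- a Dirichlet polynomial with real coefficients on the critical line -/
def Sa (a : ℕ → ℝ) (Y : ℕ) (u : ℝ) : ℂ := ∑ n ∈ Finset.Icc 1 Y, (a n : ℂ) * (n : ℂ) ^ (-(1 / 2 + I * (u : ℂ)))

/-- XL: linearisation of the factor -/
def S_XL : Prop := Continuous Xc ∧ (∀ u, ‖Xc u‖ = 1) ∧ ∃ C : ℝ, 0 < C ∧ ∀ V s : ℝ, 100 ≤ V → 0 ≤ s → s ≤ V →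
  ‖Xc (V + s) - Xc V * cexp (-(I * ((s * Real.log (V / (2 * Real.pi)) : ℝ) : ℂ)))‖ ≤ C * (s + s ^ 2) / V

/-- AFW: approximate functional equation with fixed smooth coefficients in a window -/
def S_AFW : Prop := ∀ η : ℝ, 0 < η → η ≤ 1 / 100 → ∃ T₀ : ℝ, 3 ≤ T₀ ∧ ∀ T : ℝ, T₀ ≤ T →
  ∃ (Y : ℕ) (a b : ℕ → ℝ), 1 ≤ Y ∧ (Y : ℝ) ≤ T ^ (1 / 2 + 2 * η) ∧ (∀ n, 0 ≤ a n ∧ a n ≤ 1) ∧
  (∀ n, 0 ≤ b n ∧ b n ≤ 1) ∧ (∀ n : ℕ, 1 ≤ n → (n : ℝ) ≤ T ^ (1 / 2 - 2 * η) → a n = 1 ∧ b n = 1 ∧ n ≤ Y) ∧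
  ∀ u : ℝ, T ≤ u → u ≤ T + 4 * T ^ (1 / 2 + 4 * η) →
    ‖z u - Sa a Y u - Xc u * (starRingEnd ℂ) (Sa b Y u)‖ ≤ T ^ (-(1 / 8) : ℝ)

/-- PB: a Dirichlet polynomial of length at most `U` without its short part, as an operator -/
def S_PB : Prop := ∃ C : ℝ, 0 < C ∧ ∀ (T H U : ℝ) (N Y : ℕ) (w : ℕ → ℂ) (F : ℝ → ℂ), 3 ≤ T → 1 ≤ H → H ≤ T →
  1 ≤ U → U ≤ T → 1 ≤ N → N ≤ Y → (Y : ℝ) ≤ T → (∀ n, 1 ≤ n → ‖w n‖ ^ 2 ≤ (n : ℝ)⁻¹) → Wb T (T + H) F →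
  ∫ c in (0 : ℝ)..U, ‖∑ n ∈ Finset.Ioc N Y, w n * (∫ t in T..(T + H), F t * (n : ℂ) ^ (-(I * (t : ℂ)))) *
      (n : ℂ) ^ (-(I * (c : ℂ)))‖ ^ 2 ≤
    C * Real.log T ^ 2 * (H * U / N + H + U + Y) * ∫ t in T..(T + H), ‖F t‖ ^ 2

/-- OW: zeta minus the model, as an operator, for a window of shifts of length about `T^(1/2+3η)` -/
def S_OW : Prop := ∀ η : ℝ, 0 < η → η ≤ 1 / 100 → ∃ C T₀ : ℝ, 0 < C ∧ 3 ≤ T₀ ∧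
  ∀ (T H U : ℝ) (N : ℕ) (F : ℝ → ℂ), T₀ ≤ T → 1 ≤ H → H ≤ T ^ (1 / 16 : ℝ) → T ^ (1 / 2 + 3 * η) ≤ U →
  U ≤ 2 * T ^ (1 / 2 + 3 * η) → 1 ≤ N → (N : ℝ) ≤ T ^ (1 / 16 : ℝ) → Wb T (T + H) F →
  ∫ c in (0 : ℝ)..U, ‖∫ t in T..(T + H), F t * (z (t + c) - GN N (t + c))‖ ^ 2 ≤
    C * Real.log T ^ 2 * (U * (1 + H / N)) * ∫ t in T..(T + H), ‖F t‖ ^ 2

/-- OPL: the same for all `U ≥ T^(1/2+ε)` -/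
def S_OPL : Prop := ∀ ε : ℝ, 0 < ε → ε ≤ 1 / 4 → ∃ C T₀ : ℝ, 0 < C ∧ 3 ≤ T₀ ∧
  ∀ (T H U : ℝ) (N : ℕ) (F : ℝ → ℂ), T₀ ≤ T → 1 ≤ H → H ≤ T ^ (1 / 16 : ℝ) → T ^ (1 / 2 + ε) ≤ U → U ≤ T →
  1 ≤ N → (N : ℝ) ≤ T ^ (1 / 16 : ℝ) → Wb T (T + H) F →
  ∫ c in (0 : ℝ)..U, ‖∫ t in T..(T + H), F t * (z (t + c) - GN N (t + c))‖ ^ 2 ≤
    C * Real.log T ^ 2 * (U * (1 + H / N)) * ∫ t in T..(T + H), ‖F t‖ ^ 2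

/-- VB: second moments in short intervals -/
def S_VB : Prop := ∃ (C : ℝ) (B : ℕ), 0 < C ∧ ∀ (T U t : ℝ) (N : ℕ), 3 ≤ T → T ^ (1 / 2 : ℝ) ≤ U → U ≤ T → T ≤ t →
  t ≤ 2 * T → 1 ≤ N → (N : ℝ) ≤ T ^ (1 / 2 : ℝ) →
  (∫ c in (0 : ℝ)..U, ‖z (t + c)‖ ^ 2 ≤ C * U * Real.log T ^ B) ∧
  ∫ c in (0 : ℝ)..U, ‖GN N (t + c)‖ ^ 2 ≤ C * U * Real.log T ^ B

/-- TE: replacement of all the factors by the model -/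
def S_TE : Prop := ∀ (k : ℕ) (ε : ℝ), 1 ≤ k → 0 < ε → ε ≤ 1 / 4 → ∃ (C T₀ : ℝ) (B : ℕ), 0 < C ∧ 3 ≤ T₀ ∧
  ∀ (T H U : ℝ) (N : ℕ), T₀ ≤ T → 1 ≤ H → H ≤ T ^ (1 / 16 : ℝ) → T ^ (1 / 2 + ε) ≤ U → U ≤ T → 1 ≤ N →
  (N : ℝ) ≤ T ^ (1 / 16 : ℝ) →
  ∫⁻ γ, ENNReal.ofReal (‖∫ t in T..(T + H), (∏ i, fs z i (t + γ i) - ∏ i, fs (GN N) i (t + γ i))‖ ^ 2)
    ∂(mP (Fin k ⊕ Fin k) U) ≤ ENNReal.ofReal (C * Real.log T ^ B * U ^ (2 * k) * (H * (1 + H / N)))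

/-- the factors of the functional equation: at the places of `A` the polynomial is not conjugated -/
def XA {k : ℕ} (A : Finset (Fin k ⊕ Fin k)) (γ : Fin k ⊕ Fin k → ℝ) (t : ℝ) : ℂ :=
  ∏ i, if i ∈ A then (if i.isRight then (starRingEnd ℂ) (Xc (t + γ i)) else 1) else
    (if i.isLeft then Xc (t + γ i) else 1)

/-- the polynomials -/
def PA {k : ℕ} (N : ℕ) (A : Finset (Fin k ⊕ Fin k)) (γ : Fin k ⊕ Fin k → ℝ) (t : ℝ) : ℂ :=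
  ∏ i, if i ∈ A then PN N (t + γ i) else (starRingEnd ℂ) (PN N (t + γ i))

/-- monomials -/
def chA {k : ℕ} (A : Finset (Fin k ⊕ Fin k)) (ν : Fin k ⊕ Fin k → ℕ) (γ : Fin k ⊕ Fin k → ℝ) : ℂ :=
  ∏ i, if i ∈ A then (ν i : ℂ) ^ (-(I * (γ i : ℂ))) else (ν i : ℂ) ^ (I * (γ i : ℂ))

/-- the diagonal sum -/
def DA {k : ℕ} (N : ℕ) (A : Finset (Fin k ⊕ Fin k)) (γ : Fin k ⊕ Fin k → ℝ) : ℂ :=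
  ∑ ν ∈ tup k N, if ∏ i ∈ A, ν i = ∏ i ∈ Aᶜ, ν i then (wt ν : ℂ) * chA A ν γ else 0

/-- EXA: the product of the models is a sum over the subsets -/
def S_EXA : Prop := ∀ (k N : ℕ) (γ : Fin k ⊕ Fin k → ℝ) (t : ℝ),
  ∏ i, fs (GN N) i (t + γ i) = ∑ A : Finset (Fin k ⊕ Fin k), XA A γ t * PA N A γ t

/-- EXM: the monomials off the diagonal -/
def S_EXM : Prop := ∀ k : ℕ, ∃ (C T₀ : ℝ) (κ : ℕ), 0 < C ∧ 100 ≤ T₀ ∧ ∀ (T H U : ℝ) (N : ℕ)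
  (γ : Fin k ⊕ Fin k → ℝ) (A : Finset (Fin k ⊕ Fin k)) (ν : Fin k ⊕ Fin k → ℕ), T₀ ≤ T → 1 ≤ H →
  H ≤ T ^ (1 / 16 : ℝ) → 1 ≤ U → 1 ≤ N → (N : ℝ) ^ κ * U ≤ T → (∀ i, 0 ≤ γ i ∧ γ i ≤ U) → ν ∈ tup k N →
  ¬(A.card = k ∧ ∏ i ∈ A, ν i = ∏ i ∈ Aᶜ, ν i) →
  ‖∫ t in T..(T + H), XA A γ t * chA A ν (fun i => t + γ i)‖ ≤ C * (N : ℝ) ^ κ

/-- EXB: the integral of one product -/
def S_EXB : Prop := ∀ k : ℕ, ∃ (C T₀ : ℝ) (κ : ℕ), 0 < C ∧ 100 ≤ T₀ ∧ ∀ (T H U : ℝ) (N : ℕ)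
  (γ : Fin k ⊕ Fin k → ℝ) (A : Finset (Fin k ⊕ Fin k)), T₀ ≤ T → 1 ≤ H →
  H ≤ T ^ (1 / 16 : ℝ) → 1 ≤ U → 1 ≤ N → (N : ℝ) ^ κ * U ≤ T → (∀ i, 0 ≤ γ i ∧ γ i ≤ U) →
  ‖(∫ t in T..(T + H), XA A γ t * PA N A γ t) -
      (if A.card = k then (∫ t in T..(T + H), XA A γ t) * DA N A γ else 0)‖ ≤ C * (N : ℝ) ^ κ

/-- EXC: permutations and subsets -/
def S_EXC : Prop := ∀ (k N : ℕ) (T H : ℝ) (γ : Fin k ⊕ Fin k → ℝ),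
  ∑ π : Equiv.Perm (Fin k ⊕ Fin k), (∫ t in T..(T + H), GG t (fun i => (γ i : ℂ)) π) *
      SN N (fun i => γ (π i)) =
    (Nat.factorial k : ℂ) ^ 2 * ∑ A : Finset (Fin k ⊕ Fin k),
      if A.card = k then (∫ t in T..(T + H), XA A γ t) * DA N A γ else 0

/-- EXP: the product of the models -/
def S_EXP : Prop := ∀ k : ℕ, ∃ (C T₀ : ℝ) (κ : ℕ), 0 < C ∧ 100 ≤ T₀ ∧ ∀ (T H U : ℝ) (N : ℕ)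
  (γ : Fin k ⊕ Fin k → ℝ), T₀ ≤ T → 1 ≤ H → H ≤ T ^ (1 / 16 : ℝ) → 1 ≤ U → 1 ≤ N →
  (N : ℝ) ^ κ * U ≤ T → (∀ i, 0 ≤ γ i ∧ γ i ≤ U) →
  ‖(∫ t in T..(T + H), ∏ i, fs (GN N) i (t + γ i)) - ((Nat.factorial k : ℂ) ^ 2)⁻¹ *
      ∑ π : Equiv.Perm (Fin k ⊕ Fin k), (∫ t in T..(T + H), GG t (fun i => (γ i : ℂ)) π) *
        SN N (fun i => γ (π i))‖ ≤ C * (N : ℝ) ^ κ

/-- PRM: from the diagonal sums to their values, for permuted shifts -/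
def S_PRM : Prop := ∀ k : ℕ, ∃ (C U₀ : ℝ) (B M₀ κ : ℕ), 0 < C ∧ 3 ≤ U₀ ∧ 2 ≤ M₀ ∧ 1 ≤ κ ∧
  ∀ (U : ℝ) (N : ℕ) (π : Equiv.Perm (Fin k ⊕ Fin k)), U₀ ≤ U → M₀ ≤ N → 2 * (N : ℝ) ^ κ ≤ U →
  ∫⁻ γ in Sep k U, ENNReal.ofReal (‖SN N (fun i => γ (π i)) - zp γ π‖ ^ 2) ∂(mP (Fin k ⊕ Fin k) U) ≤
    ENNReal.ofReal (C * Real.log U ^ B * U ^ (2 * k) * (N : ℝ) ^ (-(1 / 8) : ℝ))

end

end Pool.Agent.H27.SW
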