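import Pool.Agent.H27.SW.Stm
import Pool.Agent.H27.G.R_seed8.TH406.GS.CHI

set_option autoImplicit false

/-! Project SW (helper27): linearisation of the factor (XL). -/

namespace Pool.Agent.H27.SW

open Complex Filter Topology MeasureTheory Set
open Pool.Agent.TH612.CF Pool.Agent.TH612.MD
open Pool.Agent.TH612.GS
open Pool.Agent.W182.KO (XX)
open scoped ComplexConjugate

noncomputable section

theorem Xc_eq (u : ℝ) : Xc u = conj (XX (1 / 2 + I * u)) := Pool.Agent.TH406.GS.chi_eq u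

theorem Xc_cont : Continuous Xc := by
  have h := Pool.Agent.TH406.GS.osc.cont
  have e : Xc = fun u : ℝ => conj (XX (1 / 2 + I * u)) := by
    funext u
    exact Xc_eq u
  rw [e]
  exact Complex.continuous_conj.comp h

theorem Xc_norm (u : ℝ) : ‖Xc u‖ = 1 := by
  rw [Xc_eq, Complex.norm_conj]
  exact Pool.Agent.TH406.GS.osc.norm u

theorem Xc_deriv {u : ℝ} (hu : 1 ≤ u) :
    HasDerivAt Xc (-(I * conj (LX (1 / 2 + I * u)) * Xc u)) u := by
  have h := (Pool.Agent.TH406.GS.osc.hd u hu).star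
  have e : Xc = fun u : ℝ => star (XX (1 / 2 + I * u)) := by
    funext u
    exact Xc_eq u
  rw [e]
  refine h.congr_deriv ?_
  simp only [Complex.star_def, map_mul, conj_I]
  ring

theorem xl : S_XL := by
  refine ⟨Xc_cont, Xc_norm, 16, by norm_num, fun V s hV hs _ => ?_⟩
  have hV0 : 0 < V := by linarith
  obtain ⟨l, hl⟩ : ∃ l : ℝ, l = Real.log (V / (2 * Real.pi)) := ⟨_, rfl⟩
  rw [← hl]
  set f : ℝ → ℂ := fun x => Xc (V + x) * cexp (I * ((x * l : ℝ) : ℂ)) with hf
  have hd : ∀ x, 0 ≤ x → HasDerivAt f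
      ((-(I * conj (LX (1 / 2 + I * ((V + x : ℝ) : ℂ))) * Xc (V + x))) * cexp (I * ((x * l : ℝ) : ℂ)) +
        Xc (V + x) * (cexp (I * ((x * l : ℝ) : ℂ)) * (I * ((1 * l : ℝ) : ℂ)))) x := by
    intro x hx
    have d1 : HasDerivAt (fun x => Xc (V + x))
        (-(I * conj (LX (1 / 2 + I * ((V + x : ℝ) : ℂ))) * Xc (V + x))) x :=
      (Xc_deriv (u := V + x) (by linarith)).comp_const_add V x
    have d2 : HasDerivAt (fun x : ℝ => I * ((x * l : ℝ) : ℂ)) (I * ((1 * l : ℝ) : ℂ)) x :=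
      (((hasDerivAt_id x).mul_const l).ofReal_comp).const_mul I
    exact d1.mul d2.cexp
  have hen : ∀ x : ℝ, ‖cexp (I * ((x * l : ℝ) : ℂ))‖ = 1 := by
    intro x
    rw [mul_comm]
    exact Complex.norm_exp_ofReal_mul_I _
  have hb : ∀ x, 0 ≤ x → x ≤ s →
      ‖(-(I * conj (LX (1 / 2 + I * ((V + x : ℝ) : ℂ))) * Xc (V + x))) * cexp (I * ((x * l : ℝ) : ℂ)) +
        Xc (V + x) * (cexp (I * ((x * l : ℝ) : ℂ)) * (I * ((1 * l : ℝ) : ℂ)))‖ ≤ (s + 16) / V := by
    intro x hx hxs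
    have e1 : (-(I * conj (LX (1 / 2 + I * ((V + x : ℝ) : ℂ))) * Xc (V + x))) *
        cexp (I * ((x * l : ℝ) : ℂ)) +
        Xc (V + x) * (cexp (I * ((x * l : ℝ) : ℂ)) * (I * ((1 * l : ℝ) : ℂ))) =
        (I * cexp (I * ((x * l : ℝ) : ℂ)) * Xc (V + x)) *
          ((l : ℂ) - conj (LX (1 / 2 + I * ((V + x : ℝ) : ℂ)))) := by
      push_cast
      ring
    rw [e1, norm_mul, norm_mul, norm_mul, norm_I, hen, Xc_norm, one_mul, one_mul, one_mul]
    have h1 := Pool.Agent.TH406.GS.osc.near (V + x) (by linarith)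
    have h2 : (l : ℂ) - conj (LX (1 / 2 + I * ((V + x : ℝ) : ℂ))) =
        ((l - Real.log ((V + x) / (2 * Real.pi)) : ℝ) : ℂ) -
          conj (LX (1 / 2 + I * ((V + x : ℝ) : ℂ)) - (Real.log ((V + x) / (2 * Real.pi)) : ℂ)) := by
      rw [map_sub, conj_ofReal]
      push_cast
      ring
    rw [h2]
    refine (norm_sub_le _ _).trans ?_
    rw [Complex.norm_conj, Complex.norm_real, Real.norm_eq_abs]
    have h3 : |l - Real.log ((V + x) / (2 * Real.pi))| ≤ s / V := by
      rw [hl, Real.log_div hV0.ne' (by positivity), Real.log_div (by linarith) (by positivity)]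
      have h4 : Real.log V ≤ Real.log (V + x) := Real.log_le_log hV0 (by linarith)
      rw [abs_le]
      have h5 : Real.log (V + x) - Real.log V ≤ s / V := by
        rw [← Real.log_div (by linarith) hV0.ne']
        have h6 := Real.log_le_sub_one_of_pos (x := (V + x) / V) (by positivity)
        have h7 : (V + x) / V - 1 = x / V := by field_simp; ring
        rw [h7] at h6
        exact h6.trans (div_le_div_of_nonneg_right hxs hV0.le)
      constructor <;> linarith
    have h4 : ‖LX (1 / 2 + I * ((V + x : ℝ) : ℂ)) - (Real.log ((V + x) / (2 * Real.pi)) : ℂ)‖ ≤ 16 / V :=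
      h1.trans (div_le_div_of_nonneg_left (by norm_num) hV0 (by linarith))
    calc _ ≤ s / V + 16 / V := add_le_add h3 h4
      _ = (s + 16) / V := by ring
  have key := Convex.norm_image_sub_le_of_norm_hasDerivWithin_le (f := f) (s := Icc 0 s)
    (C := (s + 16) / V) (fun x hx => (hd x hx.1).hasDerivWithinAt) (fun x hx => hb x hx.1 hx.2)
    (convex_Icc 0 s) (left_mem_Icc.2 hs) (right_mem_Icc.2 hs)
  have e2 : Xc (V + s) - Xc V * cexp (-(I * ((s * l : ℝ) : ℂ))) =
      (f s - f 0) * cexp (-(I * ((s * l : ℝ) : ℂ))) := by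
    rw [hf]
    simp only [add_zero, zero_mul, ofReal_zero, mul_zero, Complex.exp_zero, mul_one]
    rw [sub_mul, mul_assoc, ← Complex.exp_add, add_neg_cancel, Complex.exp_zero, mul_one]
  have hen' : ‖cexp (-(I * ((s * l : ℝ) : ℂ)))‖ = 1 := by
    rw [Complex.exp_neg, norm_inv, hen, inv_one]
  rw [e2, norm_mul, hen', mul_one]
  refine key.trans ?_
  rw [sub_zero, Real.norm_of_nonneg hs, div_mul_eq_mul_div]
  refine div_le_div_of_nonneg_right ?_ hV0.le
  nlinarith [sq_nonneg s]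

end

end Pool.Agent.H27.SW
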